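import Pool.Agent.Lib.MP_81308f_co.Pull

open scoped Pointwise BigOperators

namespace MP81308f

/-- An edge of `conv T` inside a face is an edge of the face. -/
theorem edge_restrict {n : ℕ} {T A : Finset (Fin n → ℝ)} (hA : IsFace T A) {v b : Fin n → ℝ}
    (hv : v ∈ A) (hb : b ∈ A) (h : IsEdge T v b) : IsEdge A v b := by
  refine ⟨h.1, ?_⟩
  exact h.2.mono hA.2.2.subset
    ((convex_convexHull ℝ _).segment_subset (subset_convexHull ℝ _ (by exact_mod_cast hv))
      (subset_convexHull ℝ _ (by exact_mod_cast hb)))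

/-- An edge of a face is an edge. -/
theorem edge_extend {n : ℕ} {T A : Finset (Fin n → ℝ)} (hA : IsFace T A) {v b : Fin n → ℝ}
    (h : IsEdge A v b) : IsEdge T v b :=
  ⟨h.1, hA.2.2.trans h.2⟩

/-- Independent differences inside a face: at most `dim A` of them. -/
theorem card_le_dim {n : ℕ} {A B : Finset (Fin n → ℝ)} {v : Fin n → ℝ} (hv : v ∈ A)
    (hB : B ⊆ A) (hli : LinearIndepOn ℝ (fun b => b - v) (B : Set (Fin n → ℝ))) :
    B.card ≤ dim A := by
  classical
  have h1 : Module.finrank ℝ (Submodule.span ℝ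
      (Set.range (fun x : (B : Set (Fin n → ℝ)) => (x : Fin n → ℝ) - v)))
        = Fintype.card (B : Set (Fin n → ℝ)) := finrank_span_eq_card hli
  have h2 : Submodule.span ℝ (Set.range (fun x : (B : Set (Fin n → ℝ)) => (x : Fin n → ℝ) - v)) ≤
      vectorSpan ℝ (A : Set (Fin n → ℝ)) := by
    rw [Submodule.span_le]
    rintro _ ⟨x, rfl⟩
    exact vsub_mem_vectorSpan ℝ (by exact_mod_cast hB (by exact_mod_cast x.2))
      (by exact_mod_cast hv)
  have h3 := Submodule.finrank_mono h2
  rw [h1] at h3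
  have h4 : Fintype.card (B : Set (Fin n → ℝ)) = B.card := by simp
  rw [h4] at h3
  exact h3

/-- An adapted set of edges at a vertex of a chain of faces. -/
theorem adapted {n : ℕ} (T : Finset (Fin n → ℝ)) (v : Fin n → ℝ)
    (hvx : v ∈ (convexHull ℝ (T : Set (Fin n → ℝ))).extremePoints ℝ) :
    ∀ (m : ℕ) (C : Finset (Finset (Fin n → ℝ))), C.card = m → (∀ A ∈ C, IsFace T A) →
    (∀ A ∈ C, ∀ A' ∈ C, A ⊆ A' ∨ A' ⊆ A) → (∀ A ∈ C, v ∈ A) →
    ∃ B : Finset (Fin n → ℝ), (∀ b ∈ B, b ∈ T ∧ IsEdge T v b) ∧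
      LinearIndepOn ℝ (fun b => b - v) (B : Set (Fin n → ℝ)) ∧
      (∀ A ∈ C, (B ∩ A).card = dim A) ∧
      (∀ A : Finset (Fin n → ℝ), (∀ A' ∈ C, A' ⊆ A) → B ⊆ A) := by
  classical
  intro m
  induction m with
  | zero =>
    intro C hC _ _ _
    rw [Finset.card_eq_zero] at hC
    subst hC
    refine ⟨∅, by simp, ?_, by simp, fun A _ => Finset.empty_subset _⟩
    rw [Finset.coe_empty]
    exact linearIndepOn_empty ℝ _
  | succ m ih =>
    intro C hC hF hch hv
    have hne : C.Nonempty := by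
      rw [← Finset.card_pos, hC]; omega
    obtain ⟨M, hM, hmax⟩ := C.exists_max_image Finset.card hne
    have hMtop : ∀ A ∈ C, A ⊆ M := by
      intro A hA
      rcases hch A hA M hM with h | h
      · exact h
      · exact (Finset.eq_of_subset_of_card_le h (hmax A hA)).symm.subset
    have hFM := hF M hM
    have hvM := hv M hM
    have hsubhull : convexHull ℝ (M : Set (Fin n → ℝ)) ⊆ convexHull ℝ (T : Set (Fin n → ℝ)) :=
      hFM.2.2.subset
    obtain ⟨B', hB'e, hB'li, hB'card, hB'sub⟩ := ih (C.erase M)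
      (by rw [Finset.card_erase_of_mem hM, hC]; rfl)
      (fun A hA => hF A (Finset.mem_of_mem_erase hA))
      (fun A hA A' hA' => hch A (Finset.mem_of_mem_erase hA) A' (Finset.mem_of_mem_erase hA'))
      (fun A hA => hv A (Finset.mem_of_mem_erase hA))
    have hB'M : B' ⊆ M := hB'sub M (fun A' hA' => hMtop A' (Finset.mem_of_mem_erase hA'))
    have hvxM : v ∈ (convexHull ℝ (M : Set (Fin n → ℝ))).extremePoints ℝ :=
      ⟨subset_convexHull ℝ _ (by exact_mod_cast hvM),
        fun x hx y hy h => hvx.2 (hsubhull hx) (hsubhull hy) h⟩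
    obtain ⟨B, hB'B, hBM, hBc, hBli, hBe⟩ := pull_extend M v hvM hvxM B'
      (fun b hb => ⟨hB'M hb, edge_restrict hFM hvM (hB'M hb) (hB'e b hb).2⟩) hB'li
    refine ⟨B, fun b hb => ⟨hFM.1 (hBM hb), edge_extend hFM (hBe b hb)⟩, hBli, ?_, ?_⟩
    · intro A hA
      by_cases hAM : A = M
      · subst hAM
        rw [Finset.inter_eq_left.2 hBM, hBc]
      · apply le_antisymm
        · exact card_le_dim (hv A hA) Finset.inter_subset_right
            (hBli.mono (by
              intro x hx
              have hx' : x ∈ B ∩ A := by exact_mod_cast hx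
              exact_mod_cast (Finset.mem_inter.1 hx').1))
        · rw [← hB'card A (Finset.mem_erase.2 ⟨hAM, hA⟩)]
          exact Finset.card_le_card (Finset.inter_subset_inter_right hB'B)
    · intro A hA
      exact hBM.trans (hA M hM)

/-- The box spanned by short multiples of edges is in the hull. -/
theorem box_mem {n : ℕ} {A : Finset (Fin n → ℝ)} {v : Fin n → ℝ} (hv : v ∈ A) {l : ℝ}
    (hl : 0 < l) (B : Finset (Fin n → ℝ)) (hBA : B ⊆ A) (hBl : (B.card : ℝ) ≤ l)
    (u : (Fin n → ℝ) → (Fin n → ℝ)) (k : (Fin n → ℝ) → ℝ)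
    (hu : ∀ b ∈ B, l ≤ k b ∧ b - v = k b • u b)
    (t : (Fin n → ℝ) → ℝ) (ht : ∀ b ∈ B, 0 ≤ t b ∧ t b ≤ 1) :
    v + ∑ b ∈ B, t b • u b ∈ convexHull ℝ (A : Set (Fin n → ℝ)) := by
  classical
  have hs : ∑ b ∈ B, t b / k b ≤ 1 := by
    have h1 : ∀ b ∈ B, t b / k b ≤ 1 / l := by
      intro b hb
      have h2 := (hu b hb).1
      have h3 := ht b hb
      rw [div_le_div_iff₀ (by linarith) hl]
      nlinarith
    calc ∑ b ∈ B, t b / k b ≤ ∑ b ∈ B, 1 / l := Finset.sum_le_sum h1
      _ = B.card / l := by rw [Finset.sum_const, nsmul_eq_mul]; ring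
      _ ≤ 1 := (div_le_one hl).2 hBl
  have he : v + ∑ b ∈ B, t b • u b = (1 - ∑ b ∈ B, t b / k b) • v + ∑ b ∈ B, (t b / k b) • b := by
    have h1 : ∀ b ∈ B, t b • u b = (t b / k b) • b - (t b / k b) • v := by
      intro b hb
      have h2 := (hu b hb).1
      have hk : k b ≠ 0 := by linarith
      rw [← smul_sub, (hu b hb).2, smul_smul, div_mul_cancel₀ _ hk]
    rw [Finset.sum_congr rfl h1, Finset.sum_sub_distrib, ← Finset.sum_smul, sub_smul, one_smul]
    abel
  rw [he]
  have hconv := convex_convexHull ℝ (A : Set (Fin n → ℝ))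
  have hvA : v ∈ convexHull ℝ (A : Set (Fin n → ℝ)) := subset_convexHull ℝ _ (by exact_mod_cast hv)
  -- use the insertion index `none`
  have h := hconv.sum_mem (t := (Finset.univ : Finset (Option B)))
    (w := fun o => o.elim (1 - ∑ b ∈ B, t b / k b) (fun b => t b / k b))
    (z := fun o => o.elim v (fun b => (b : Fin n → ℝ))) ?_ ?_ ?_
  · rw [Fintype.sum_option] at h
    simp only [Option.elim_none, Option.elim_some] at h
    have h3 : ∑ x : B, (t x / k x) • (x : Fin n → ℝ) = ∑ b ∈ B, (t b / k b) • b :=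
      Finset.sum_coe_sort B (fun b => (t b / k b) • b)
    rw [h3] at h
    exact h
  · rintro (_ | b) _
    · simp only [Option.elim_none]; linarith
    · simp only [Option.elim_some]
      have h2 := (hu b b.2).1
      exact div_nonneg (ht b b.2).1 (by linarith)
  · rw [Fintype.sum_option]
    simp only [Option.elim_none, Option.elim_some]
    have h3 : ∑ x : B, t x / k x = ∑ b ∈ B, t b / k b :=
      Finset.sum_coe_sort B (fun b => t b / k b)
    rw [h3]; ring
  · rintro (_ | b) _
    · exact hvA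
    · exact subset_convexHull ℝ _ (by exact_mod_cast hBA b.2)

end MP81308f
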