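import Pool.Agent.Lib.MP_81308f_co.Full.Weights
import Pool.Agent.Lib.MP_81308f_co.Star

/-!
# MP_81308f_co : the 2-faces through an edge span
-/

set_option autoImplicit false

open scoped Pointwise BigOperators

namespace MP81308f

/-- A point of `conv T` on the line of an edge lies on the edge. -/
theorem tf_on_edge {n : ℕ} (K : Set (Fin n → ℝ)) (v w : Fin n → ℝ)
    (_hvw : v ≠ w) (hv : v ∈ K) (hw : w ∈ K) (he : IsExtreme ℝ K (segment ℝ v w))
    (z : Fin n → ℝ) (hz : z ∈ K) (t : ℝ) (hzt : z = v + t • (w - v)) : z ∈ segment ℝ v w := by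
  rcases lt_or_ge t 0 with ht | ht
  · -- `v` is between `z` and `w`
    have h1 : v ∈ openSegment ℝ z w := by
      refine ⟨1 / (1 - t), -t / (1 - t), by apply div_pos <;> linarith,
        by apply div_pos <;> linarith, ?_, ?_⟩
      · rw [← add_div, div_eq_one_iff_eq (by linarith)]
        ring
      · have h2 : (1 - t) ≠ 0 := by linarith
        rw [hzt]
        funext i
        simp only [Pi.add_apply, Pi.smul_apply, Pi.sub_apply, smul_eq_mul]
        field_simp
        ring
    exact he.2 hz hw (left_mem_segment ℝ v w) h1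
  rcases le_or_gt t 1 with ht1 | ht1
  · rw [segment_eq_image']
    exact ⟨t, ⟨ht, ht1⟩, hzt.symm⟩
  · have h1 : w ∈ openSegment ℝ z v := by
      refine ⟨1 / t, (t - 1) / t, by apply div_pos <;> linarith,
        by apply div_pos <;> linarith, ?_, ?_⟩
      · rw [← add_div, div_eq_one_iff_eq (by linarith)]
        ring
      · have h2 : t ≠ 0 := by linarith
        rw [hzt]
        funext i
        simp only [Pi.add_apply, Pi.smul_apply, Pi.sub_apply, smul_eq_mul]
        field_simp
        ring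
    exact he.2 hz hv (right_mem_segment ℝ v w) h1

/-- The preimage of an extreme subset under a linear map is an extreme subset. -/
theorem tf_extreme_preimage {n : ℕ} (K : Set (Fin n → ℝ)) (π : (Fin n → ℝ) →ₗ[ℝ] (Fin n → ℝ))
    (B : Set (Fin n → ℝ)) (h : IsExtreme ℝ (π '' K) B) :
    IsExtreme ℝ K {x | x ∈ K ∧ π x ∈ B} := by
  refine ⟨fun x hx => hx.1, ?_⟩
  intro x₁ hx₁ x₂ hx₂ x hx ho
  refine ⟨hx₁, ?_⟩
  refine h.2 ⟨x₁, hx₁, rfl⟩ ⟨x₂, hx₂, rfl⟩ hx.2 ?_
  obtain ⟨a, b, ha, hb, hab, rfl⟩ := ho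
  exact ⟨a, b, ha, hb, hab, by simp⟩

/-- (TF1) the 2-faces through an edge span. -/
theorem two_faces_span {n : ℕ} (T : Finset (Fin n → ℝ)) (v w : Fin n → ℝ) (hv : v ∈ T)
    (hw : w ∈ T) (he : IsEdge T v w) :
    vectorSpan ℝ (T : Set (Fin n → ℝ)) ≤
      Submodule.span ℝ ({w - v} ∪
        ⋃ A ∈ {A : Finset (Fin n → ℝ) | IsFace T A ∧ v ∈ A ∧ w ∈ A ∧ dim A = 2},
          (vectorSpan ℝ (A : Set (Fin n → ℝ)) : Set (Fin n → ℝ))) := by
  classical
  set K := convexHull ℝ (T : Set (Fin n → ℝ)) with hK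
  set u : Fin n → ℝ := w - v with hu
  have hu0 : u ≠ 0 := sub_ne_zero.2 he.1.symm
  have hvK : v ∈ K := subset_convexHull ℝ _ (by exact_mod_cast hv)
  have hwK : w ∈ K := subset_convexHull ℝ _ (by exact_mod_cast hw)
  -- a functional with `ξ u = 1`
  obtain ⟨i, hi⟩ : ∃ i, u i ≠ 0 := by
    by_contra hcon
    push Not at hcon
    exact hu0 (funext hcon)
  set ξ : (Fin n → ℝ) →ₗ[ℝ] ℝ := (u i)⁻¹ • LinearMap.proj i with hξ
  have hξu : ξ u = 1 := by
    simp [hξ, hi]
  set π : (Fin n → ℝ) →ₗ[ℝ] (Fin n → ℝ) := LinearMap.id - ξ.smulRight u with hπ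
  have hπx : ∀ x, π x = x - ξ x • u := fun x => by simp [hπ]
  have hπu : π u = 0 := by rw [hπx, hξu, one_smul, sub_self]
  have hker : ∀ x, π x = 0 → x = ξ x • u := by
    intro x hx
    rw [hπx] at hx
    exact sub_eq_zero.1 hx
  have hπvw : π w = π v := by
    have : π (w - v) = 0 := hπu
    rw [map_sub] at this
    exact sub_eq_zero.1 this
  set T' : Finset (Fin n → ℝ) := T.image π with hT'
  have hT'K : convexHull ℝ (T' : Set (Fin n → ℝ)) = π '' K := by
    rw [hT', Finset.coe_image, hK]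
    exact (LinearMap.image_convexHull π _).symm
  have hvT' : π v ∈ T' := Finset.mem_image_of_mem _ hv
  have hline : ∀ z ∈ K, π z = π v → z ∈ segment ℝ v w := by
    intro z hz hzv
    have h1 : π (z - v) = 0 := by rw [map_sub, hzv, sub_self]
    have h2 := hker _ h1
    exact tf_on_edge K v w he.1 hvK hwK he.2 z hz (ξ (z - v)) (by rw [← hu, ← h2]; abel)
  have hseg : ∀ z ∈ segment ℝ v w, π z = π v := by
    intro z hz
    rw [segment_eq_image'] at hz
    obtain ⟨t, _, rfl⟩ := hz
    simp only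
    rw [map_add, map_smul, ← hu, hπu, smul_zero, add_zero]
  have hext : π v ∈ (convexHull ℝ (T' : Set (Fin n → ℝ))).extremePoints ℝ := by
    rw [hT'K, mem_extremePoints]
    refine ⟨⟨v, hvK, rfl⟩, ?_⟩
    rintro _ ⟨a, ha, rfl⟩ _ ⟨b, hb, rfl⟩ ⟨s, t, hs, ht, hst, hab⟩
    have hz : s • a + t • b ∈ K := (convex_convexHull ℝ _) ha hb hs.le ht.le hst
    have hzv : s • a + t • b ∈ segment ℝ v w := hline _ hz (by simpa using hab)
    have ha1 := he.2.2 ha hb hzv ⟨s, t, hs, ht, hst, rfl⟩
    have hb1 := he.2.2 hb ha hzv ⟨t, s, ht, hs, by linarith, by abel⟩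
    exact ⟨hseg _ ha1, hseg _ hb1⟩
  have hstar := star_span T' (π v) hvT' hext
  set W := Submodule.span ℝ ({u} ∪
        ⋃ A ∈ {A : Finset (Fin n → ℝ) | IsFace T A ∧ v ∈ A ∧ w ∈ A ∧ dim A = 2},
          (vectorSpan ℝ (A : Set (Fin n → ℝ)) : Set (Fin n → ℝ))) with hW
  have huW : u ∈ W := Submodule.subset_span (Or.inl rfl)
  -- every edge of the projection gives a 2-face
  have hedge : ∀ b ∈ T, IsEdge T' (π v) (π b) → b - v ∈ W := by
    intro b hb hbe
    set X : Set (Fin n → ℝ) := {x | x ∈ K ∧ π x ∈ segment ℝ (π v) (π b)} with hX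
    have hXe : IsExtreme ℝ K X := tf_extreme_preimage K π _ (by rw [← hT'K]; exact hbe.2)
    have hXc : Convex ℝ X := by
      intro x hx y hy s t hs ht hst
      refine ⟨(convex_convexHull ℝ _) hx.1 hy.1 hs ht hst, ?_⟩
      rw [map_add, map_smul, map_smul]
      exact (convex_segment _ _) hx.2 hy.2 hs ht hst
    set A : Finset (Fin n → ℝ) := T.filter (fun p => p ∈ X) with hA
    have hAX : convexHull ℝ (A : Set (Fin n → ℝ)) = X :=
      extreme_eq_hull T X hXe hXc A (fun p => by rw [hA, Finset.mem_filter])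
    have hvA : v ∈ A := Finset.mem_filter.2 ⟨hv, hvK, left_mem_segment ℝ _ _⟩
    have hwA : w ∈ A := Finset.mem_filter.2 ⟨hw, hwK, by rw [hπvw]; exact left_mem_segment ℝ _ _⟩
    have hbA : b ∈ A := Finset.mem_filter.2
      ⟨hb, subset_convexHull ℝ _ (by exact_mod_cast hb), right_mem_segment ℝ _ _⟩
    have hface : IsFace T A :=
      ⟨Finset.filter_subset _ _, ⟨v, hvA⟩, by rw [hAX]; exact hXe⟩
    have hbv : b - v ∈ vectorSpan ℝ (A : Set (Fin n → ℝ)) :=
      vsub_mem_vectorSpan ℝ (by exact_mod_cast hbA) (by exact_mod_cast hvA)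
    have huA : u ∈ vectorSpan ℝ (A : Set (Fin n → ℝ)) :=
      vsub_mem_vectorSpan ℝ (by exact_mod_cast hwA) (by exact_mod_cast hvA)
    have hspan : vectorSpan ℝ (A : Set (Fin n → ℝ)) = Submodule.span ℝ (Set.range ![u, b - v]) := by
      apply le_antisymm
      · rw [vectorSpan_eq_span_vsub_set_right ℝ
          (show v ∈ (A : Set (Fin n → ℝ)) by exact_mod_cast hvA), Submodule.span_le]
        rintro _ ⟨p, hp, rfl⟩
        have hp2 : p ∈ A := by exact_mod_cast hp
        have hpX := (Finset.mem_filter.1 hp2).2.2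
        rw [segment_eq_image'] at hpX
        obtain ⟨t, _, ht⟩ := hpX
        simp only at ht
        have h1 : π (p - v - t • (b - v)) = 0 := by
          rw [map_sub, map_smul, map_sub, map_sub, ← ht]
          abel
        have h2 := hker _ h1
        have h3 : p -ᵥ v = ξ (p - v - t • (b - v)) • u + t • (b - v) := by
          rw [← h2]
          simp
        simp only [SetLike.mem_coe]
        rw [h3]
        exact Submodule.add_mem _ (Submodule.smul_mem _ _ (Submodule.subset_span ⟨0, rfl⟩))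
          (Submodule.smul_mem _ _ (Submodule.subset_span ⟨1, rfl⟩))
      · rw [Submodule.span_le]
        rintro _ ⟨j, rfl⟩
        fin_cases j
        · exact huA
        · exact hbv
    have hli : LinearIndependent ℝ ![u, b - v] := by
      rw [LinearIndependent.pair_iff]
      intro s t hst
      have h1 : π (s • u + t • (b - v)) = 0 := by rw [hst, map_zero]
      rw [map_add, map_smul, map_smul, hπu, smul_zero, zero_add, map_sub] at h1
      have ht : t = 0 := by
        rcases smul_eq_zero.1 h1 with h | h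
        · exact h
        · exact absurd (sub_eq_zero.1 h).symm hbe.1
      rw [ht, zero_smul, add_zero] at hst
      exact ⟨(smul_eq_zero.1 hst).resolve_right hu0, ht⟩
    have hdim : dim A = 2 := by
      unfold dim
      rw [hspan, finrank_span_eq_card hli]
      simp
    refine Submodule.subset_span (Or.inr ?_)
    exact Set.mem_biUnion (show A ∈ {A : Finset (Fin n → ℝ) |
      IsFace T A ∧ v ∈ A ∧ w ∈ A ∧ dim A = 2} from ⟨hface, hvA, hwA, hdim⟩) hbv
  have hmap : vectorSpan ℝ (T' : Set (Fin n → ℝ)) ≤ W.map π := by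
    refine hstar.trans ?_
    rw [Submodule.span_le]
    rintro _ ⟨b', ⟨hb', hbe⟩, rfl⟩
    rw [hT', Finset.mem_image] at hb'
    obtain ⟨b, hb, rfl⟩ := hb'
    exact ⟨b - v, hedge b hb hbe, by rw [map_sub]⟩
  rw [vectorSpan_eq_span_vsub_set_right ℝ
    (show v ∈ (T : Set (Fin n → ℝ)) by exact_mod_cast hv), Submodule.span_le]
  rintro _ ⟨p, hp, rfl⟩
  have hpT : p ∈ T := by exact_mod_cast hp
  have h1 : π p - π v ∈ vectorSpan ℝ (T' : Set (Fin n → ℝ)) :=
    vsub_mem_vectorSpan ℝ (by exact_mod_cast Finset.mem_image_of_mem π hpT)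
      (by exact_mod_cast hvT')
  obtain ⟨y, hy, hye⟩ := hmap h1
  have h2 : π (p - v - y) = 0 := by
    rw [map_sub, map_sub, hye, sub_self]
  have h3 := hker _ h2
  have h4 : p -ᵥ v = y + ξ (p - v - y) • u := by
    rw [← h3]
    simp
  simp only [SetLike.mem_coe]
  rw [h4]
  exact W.add_mem hy (W.smul_mem _ huW)

end MP81308f
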