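import Pool.Agent.Lib.MP_81308f_co.Full.Spec
import Pool.Agent.Lib.MP_81308f_co.Full.TwoFace
import Pool.Agent.Lib.MP_81308f_co.Full.StarAux

/-!
# MP_81308f_co : 2-faces through an edge adapted to a chain of faces
-/

set_option autoImplicit false

open scoped Pointwise BigOperators

namespace MP81308f

/-- A 2-face containing `v, w` is spanned by `w - v` and any other direction. -/
theorem ad_plane {n : ℕ} {Q : Finset (Fin n → ℝ)} {v w g : Fin n → ℝ} (hv : v ∈ Q) (hw : w ∈ Q)
    (hvw : v ≠ w) (hd : dim Q = 2) (hg : g ∈ vectorSpan ℝ (Q : Set (Fin n → ℝ)))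
    (hgn : g ∉ Submodule.span ℝ {w - v}) :
    ∀ x ∈ vectorSpan ℝ (Q : Set (Fin n → ℝ)), ∃ a c : ℝ, x = a • (w - v) + c • g := by
  have hu : w - v ≠ 0 := sub_ne_zero.2 hvw.symm
  have huQ : w - v ∈ vectorSpan ℝ (Q : Set (Fin n → ℝ)) :=
    vsub_mem_vectorSpan ℝ (by exact_mod_cast hw) (by exact_mod_cast hv)
  have hli : LinearIndependent ℝ ![w - v, g] := by
    rw [LinearIndependent.pair_iff' hu]
    intro a ha
    exact hgn (ha ▸ Submodule.smul_mem _ _ (Submodule.mem_span_singleton_self _))
  have hle : Submodule.span ℝ (Set.range ![w - v, g]) ≤ vectorSpan ℝ (Q : Set (Fin n → ℝ)) := by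
    rw [Submodule.span_le]
    rintro _ ⟨j, rfl⟩
    fin_cases j
    · exact huQ
    · exact hg
  have heq : Submodule.span ℝ (Set.range ![w - v, g]) = vectorSpan ℝ (Q : Set (Fin n → ℝ)) := by
    refine Submodule.eq_of_le_of_finrank_eq hle ?_
    rw [finrank_span_eq_card hli]
    unfold dim at hd
    rw [hd]
    simp
  intro x hx
  rw [← heq, Matrix.range_cons, Matrix.range_cons, Matrix.range_empty, Set.union_empty,
    Set.singleton_union, Submodule.mem_span_pair] at hx
  obtain ⟨a, c, h⟩ := hx
  exact ⟨a, c, h.symm⟩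

/-- A plane has a vector outside a line. -/
theorem ad_exists {n : ℕ} (Q : Finset (Fin n → ℝ)) (u : Fin n → ℝ) (hd : dim Q = 2) :
    ∃ g ∈ vectorSpan ℝ (Q : Set (Fin n → ℝ)), g ∉ Submodule.span ℝ {u} := by
  by_contra hcon
  push Not at hcon
  have h1 : Module.finrank ℝ (vectorSpan ℝ (Q : Set (Fin n → ℝ))) ≤
      Module.finrank ℝ (Submodule.span ℝ {u}) := Submodule.finrank_mono hcon
  have h2 : Module.finrank ℝ (Submodule.span ℝ ({u} : Set (Fin n → ℝ))) ≤ 1 := by
    have := finrank_span_le_card (R := ℝ) ({u} : Set (Fin n → ℝ))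
    simpa using this
  unfold dim at hd
  omega

/-- Dividing out a line. -/
theorem ad_finrank {n : ℕ} (V : Submodule ℝ (Fin n → ℝ)) (u : Fin n → ℝ) (hu : u ≠ 0)
    (huV : u ∈ V) :
    Module.finrank ℝ (V.map (Submodule.span ℝ {u}).mkQ) + 1 = Module.finrank ℝ V := by
  have h1 := LinearMap.finrank_range_add_finrank_ker ((Submodule.span ℝ {u}).mkQ.domRestrict V)
  rw [LinearMap.range_domRestrict] at h1
  have hle : Submodule.span ℝ {u} ≤ V := by
    rw [Submodule.span_le]
    rintro _ rfl
    exact huV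
  have h2 : LinearMap.ker ((Submodule.span ℝ {u}).mkQ.domRestrict V)
      = (Submodule.span ℝ {u}).comap V.subtype := by
    ext x
    simp [LinearMap.mem_ker]
  have h3 : Module.finrank ℝ (LinearMap.ker ((Submodule.span ℝ {u}).mkQ.domRestrict V)) = 1 := by
    rw [h2, (Submodule.comapSubtypeEquivOfLe hle).finrank_eq, finrank_span_singleton hu]
  rw [h3] at h1
  exact h1

/-- The adapted set of 2-faces. -/
theorem ad_adapted {n : ℕ} (T : Finset (Fin n → ℝ)) (v w : Fin n → ℝ) (he : IsEdge T v w)
    (g : Finset (Fin n → ℝ) → (Fin n → ℝ))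
    (hg : ∀ Q, dim Q = 2 → g Q ∈ vectorSpan ℝ (Q : Set (Fin n → ℝ)) ∧
      g Q ∉ Submodule.span ℝ {w - v}) :
    ∀ (m : ℕ) (C : Finset (Finset (Fin n → ℝ))), C.card = m → (∀ A ∈ C, IsFace T A) →
    (∀ A ∈ C, ∀ A' ∈ C, A ⊆ A' ∨ A' ⊆ A) → (∀ A ∈ C, v ∈ A ∧ w ∈ A) →
    ∃ 𝒬 : Finset (Finset (Fin n → ℝ)), (∀ Q ∈ 𝒬, IsFace T Q ∧ v ∈ Q ∧ w ∈ Q ∧ dim Q = 2) ∧
      LinearIndepOn ℝ (fun Q => (Submodule.span ℝ {w - v}).mkQ (g Q))
        (𝒬 : Set (Finset (Fin n → ℝ))) ∧
      (∀ A ∈ C, (𝒬.filter (fun Q => Q ⊆ A)).card + 1 = dim A) ∧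
      (∀ A : Finset (Fin n → ℝ), (∀ A' ∈ C, A' ⊆ A) → ∀ Q ∈ 𝒬, Q ⊆ A) := by
  classical
  have hu : w - v ≠ 0 := sub_ne_zero.2 he.1.symm
  set mk := (Submodule.span ℝ {w - v}).mkQ with hmk
  intro m
  induction m with
  | zero =>
    intro C hC _ _ _
    rw [Finset.card_eq_zero] at hC
    subst hC
    refine ⟨∅, by simp, ?_, by simp, by simp⟩
    rw [Finset.coe_empty]
    exact linearIndepOn_empty ℝ _
  | succ m ih =>
    intro C hC hF hch hvw
    have hne : C.Nonempty := by
      rw [← Finset.card_pos, hC]; omega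
    obtain ⟨M, hM, hmax⟩ := C.exists_max_image Finset.card hne
    have hMtop : ∀ A ∈ C, A ⊆ M := by
      intro A hA
      rcases hch A hA M hM with h | h
      · exact h
      · exact (Finset.eq_of_subset_of_card_le h (hmax A hA)).symm.subset
    have hFM := hF M hM
    have hvM := (hvw M hM).1
    have hwM := (hvw M hM).2
    obtain ⟨𝒬', hQ'e, hQ'li, hQ'card, hQ'sub⟩ := ih (C.erase M)
      (by rw [Finset.card_erase_of_mem hM, hC]; rfl)
      (fun A hA => hF A (Finset.mem_of_mem_erase hA))
      (fun A hA A' hA' => hch A (Finset.mem_of_mem_erase hA) A' (Finset.mem_of_mem_erase hA'))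
      (fun A hA => hvw A (Finset.mem_of_mem_erase hA))
    have hQ'M : ∀ Q ∈ 𝒬', Q ⊆ M :=
      hQ'sub M (fun A' hA' => hMtop A' (Finset.mem_of_mem_erase hA'))
    set X : Set (Finset (Fin n → ℝ)) :=
      {Q | IsFace T Q ∧ v ∈ Q ∧ w ∈ Q ∧ dim Q = 2 ∧ Q ⊆ M} with hX
    obtain ⟨b, hbX, hsb, hXb, hbli⟩ := exists_linearIndepOn_extension (K := ℝ) (t := X) hQ'li
      (fun Q hQ => by
        have hQ2 : Q ∈ 𝒬' := by exact_mod_cast hQ
        exact ⟨(hQ'e Q hQ2).1, (hQ'e Q hQ2).2.1, (hQ'e Q hQ2).2.2.1, (hQ'e Q hQ2).2.2.2,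
          hQ'M Q hQ2⟩)
    have hfin : b.Finite := by
      refine (T.powerset.finite_toSet).subset ?_
      intro Q hQ
      exact_mod_cast Finset.mem_powerset.2 (hbX hQ).1.1
    -- the images span
    have hvs : ∀ Q : Finset (Fin n → ℝ), ∀ A : Finset (Fin n → ℝ), Q ⊆ A →
        vectorSpan ℝ (Q : Set (Fin n → ℝ)) ≤ vectorSpan ℝ (A : Set (Fin n → ℝ)) := by
      intro Q A h
      exact vectorSpan_mono ℝ (by exact_mod_cast h)
    have hspan : (vectorSpan ℝ (M : Set (Fin n → ℝ))).map mk
        = Submodule.span ℝ ((fun Q => mk (g Q)) '' b) := by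
      apply le_antisymm
      · have h1 := Submodule.map_mono (f := mk)
          (two_faces_span M v w hvM hwM (edge_restrict hFM hvM hwM he))
        refine h1.trans ?_
        rw [Submodule.map_span, Submodule.span_le]
        rintro _ ⟨x, hx, rfl⟩
        rcases hx with hx | hx
        · rw [Set.mem_singleton_iff] at hx
          rw [hx]
          have : mk (w - v) = 0 := by
            rw [hmk, Submodule.mkQ_apply, Submodule.Quotient.mk_eq_zero]
            exact Submodule.mem_span_singleton_self _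
          rw [this]
          exact Submodule.zero_mem _
        · simp only [Set.mem_iUnion] at hx
          obtain ⟨A, ⟨hAM, hvA, hwA, hdA⟩, hxA⟩ := hx
          have hAX : A ∈ X := ⟨pull_face_trans hFM hAM, hvA, hwA, hdA, hAM.1⟩
          obtain ⟨a, c, hac⟩ := ad_plane hvA hwA he.1 hdA (hg A hdA).1 (hg A hdA).2 x hxA
          have h2 : mk x = c • mk (g A) := by
            rw [hac, map_add, map_smul, map_smul]
            have : mk (w - v) = 0 := by
              rw [hmk, Submodule.mkQ_apply, Submodule.Quotient.mk_eq_zero]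
              exact Submodule.mem_span_singleton_self _
            rw [this, smul_zero, zero_add]
          rw [h2]
          exact Submodule.smul_mem _ _ (hXb ⟨A, hAX, rfl⟩)
      · rw [Submodule.span_le]
        rintro _ ⟨Q, hQ, rfl⟩
        have hQX := hbX hQ
        exact ⟨g Q, hvs Q M hQX.2.2.2.2 (hg Q hQX.2.2.2.1).1, rfl⟩
    have huV : ∀ A ∈ C, w - v ∈ vectorSpan ℝ (A : Set (Fin n → ℝ)) := by
      intro A hA
      exact vsub_mem_vectorSpan ℝ (by exact_mod_cast (hvw A hA).2)
        (by exact_mod_cast (hvw A hA).1)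
    have hcardM : hfin.toFinset.card + 1 = dim M := by
      have hft : Fintype b := hfin.fintype
      have h1 : Module.finrank ℝ (Submodule.span ℝ (Set.range (fun x : b => mk (g x))))
          = Fintype.card b := finrank_span_eq_card hbli
      have h2 : Set.range (fun x : b => mk (g x)) = (fun Q => mk (g Q)) '' b := by
        ext y
        constructor
        · rintro ⟨x, rfl⟩
          exact ⟨x, x.2, rfl⟩
        · rintro ⟨x, hx, rfl⟩
          exact ⟨⟨x, hx⟩, rfl⟩
      rw [h2, ← hspan] at h1
      have h3 := ad_finrank (vectorSpan ℝ (M : Set (Fin n → ℝ))) (w - v) hu (huV M hM)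
      unfold dim
      rw [← h3, ← hmk, h1]
      congr 1
      rw [← Set.toFinset_card b]
      congr 1
      ext x
      simp
    refine ⟨hfin.toFinset, ?_, ?_, ?_, ?_⟩
    · intro Q hQ
      rw [Set.Finite.mem_toFinset] at hQ
      have := hbX hQ
      exact ⟨this.1, this.2.1, this.2.2.1, this.2.2.2.1⟩
    · rw [Set.Finite.coe_toFinset]
      exact hbli
    · intro A hA
      by_cases hAM : A = M
      · subst hAM
        rw [Finset.filter_true_of_mem, hcardM]
        intro Q hQ
        rw [Set.Finite.mem_toFinset] at hQ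
        exact (hbX hQ).2.2.2.2
      · apply le_antisymm
        · -- independence inside `A`
          set 𝒜 := hfin.toFinset.filter (fun Q => Q ⊆ A) with h𝒜
          have hli : LinearIndepOn ℝ (fun Q => mk (g Q)) (𝒜 : Set (Finset (Fin n → ℝ))) :=
            hbli.mono (by
              intro Q hQ
              have hQ2 : Q ∈ 𝒜 := by exact_mod_cast hQ
              rw [h𝒜, Finset.mem_filter, Set.Finite.mem_toFinset] at hQ2
              exact hQ2.1)
          have h1 : Module.finrank ℝ (Submodule.span ℝ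
              (Set.range (fun x : (𝒜 : Set (Finset (Fin n → ℝ))) => mk (g x))))
                = Fintype.card (𝒜 : Set (Finset (Fin n → ℝ))) := finrank_span_eq_card hli
          have h2 : Submodule.span ℝ
              (Set.range (fun x : (𝒜 : Set (Finset (Fin n → ℝ))) => mk (g x))) ≤
              (vectorSpan ℝ (A : Set (Fin n → ℝ))).map mk := by
            rw [Submodule.span_le]
            rintro _ ⟨⟨Q, hQ⟩, rfl⟩
            have hQ2 : Q ∈ 𝒜 := by exact_mod_cast hQ
            rw [h𝒜, Finset.mem_filter, Set.Finite.mem_toFinset] at hQ2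
            exact ⟨g Q, hvs Q A hQ2.2 (hg Q (hbX hQ2.1).2.2.2.1).1, rfl⟩
          have h3 := Submodule.finrank_mono h2
          rw [h1] at h3
          have h4 : Fintype.card (𝒜 : Set (Finset (Fin n → ℝ))) = 𝒜.card := by simp
          rw [h4] at h3
          have h5 := ad_finrank (vectorSpan ℝ (A : Set (Fin n → ℝ))) (w - v) hu (huV A hA)
          unfold dim
          rw [← h5, ← hmk]
          omega
        · rw [← hQ'card A (Finset.mem_erase.2 ⟨hAM, hA⟩)]
          have h6 : (𝒬'.filter (fun Q => Q ⊆ A)) ⊆ (hfin.toFinset.filter (fun Q => Q ⊆ A)) := by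
            refine Finset.filter_subset_filter _ ?_
            intro Q hQ
            rw [Set.Finite.mem_toFinset]
            exact hsb (by exact_mod_cast hQ)
          have := Finset.card_le_card h6
          omega
    · intro A hA Q hQ
      rw [Set.Finite.mem_toFinset] at hQ
      exact (hbX hQ).2.2.2.2.trans (hA M hM)

/-- 2-faces through an edge adapted to a chain. -/
theorem a_Adapt2 : S_Adapt2 := by
  classical
  intro n T hT v hv w hw he C hC hvw
  have hu : w - v ≠ 0 := sub_ne_zero.2 he.1.symm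
  have hex : ∀ Q : Finset (Fin n → ℝ), ∃ g : Fin n → ℝ, dim Q = 2 →
      g ∈ vectorSpan ℝ (Q : Set (Fin n → ℝ)) ∧ g ∉ Submodule.span ℝ {w - v} := by
    intro Q
    by_cases hd : dim Q = 2
    · obtain ⟨g, h1, h2⟩ := ad_exists Q (w - v) hd
      exact ⟨g, fun _ => ⟨h1, h2⟩⟩
    · exact ⟨0, fun h => absurd h hd⟩
  choose g hg using hex
  have hFT : IsFace T T := ⟨subset_rfl, hT.ne, IsExtreme.refl ℝ _⟩
  obtain ⟨𝒬, hQe, hQli, hQcard, -⟩ := ad_adapted T v w he g hg (insert T C).card (insert T C) rfl
    (by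
      intro A hA
      rcases Finset.mem_insert.1 hA with rfl | hA
      · exact hFT
      · exact hC.1 A hA)
    (by
      intro A hA A' hA'
      rcases Finset.mem_insert.1 hA with h | hA1
      · right
        rw [h]
        rcases Finset.mem_insert.1 hA' with h' | hA1'
        · rw [h']
        · exact (hC.1 A' hA1').1
      · rcases Finset.mem_insert.1 hA' with h' | hA1'
        · left
          rw [h']
          exact (hC.1 A hA1).1
        · exact hC.2 A hA1 A' hA1')
    (by
      intro A hA
      rcases Finset.mem_insert.1 hA with rfl | hA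
      · exact ⟨hv, hw⟩
      · exact hvw A hA)
  have hTcard : 𝒬.card = dim T - 1 := by
    have h1 := hQcard T (Finset.mem_insert_self _ _)
    rw [Finset.filter_true_of_mem (fun Q hQ => (hQe Q hQ).1.1)] at h1
    omega
  set e : 𝒬 ≃ Fin (dim T - 1) := 𝒬.equivFinOfCardEq hTcard with hedef
  refine ⟨fun i => (e.symm i : Finset (Fin n → ℝ)), ?_, ?_, ?_⟩
  · intro i
    have := hQe _ (e.symm i).2
    exact ⟨this.1, this.2.2.2, this.2.1, this.2.2.1⟩
  · intro B hB
    refine ⟨Finset.univ.filter (fun i => (e.symm i : Finset (Fin n → ℝ)) ⊆ B), ?_, ?_⟩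
    · have h1 := hQcard B (Finset.mem_insert_of_mem hB)
      have h2 : (Finset.univ.filter (fun i => (e.symm i : Finset (Fin n → ℝ)) ⊆ B)).card
          = (𝒬.filter (fun Q => Q ⊆ B)).card := by
        refine Finset.card_bij (fun i _ => (e.symm i : Finset (Fin n → ℝ))) ?_ ?_ ?_
        · intro i hi
          rw [Finset.mem_filter] at hi ⊢
          exact ⟨(e.symm i).2, hi.2⟩
        · intro i _ j _ hij
          exact e.symm.injective (Subtype.ext hij)
        · intro Q hQ
          rw [Finset.mem_filter] at hQ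
          refine ⟨e ⟨Q, hQ.1⟩, ?_, ?_⟩
          · rw [Finset.mem_filter]
            refine ⟨Finset.mem_univ _, ?_⟩
            rw [Equiv.symm_apply_apply]
            exact hQ.2
          · rw [Equiv.symm_apply_apply]
      rw [h2]
      omega
    · intro i hi
      exact (Finset.mem_filter.1 hi).2
  · intro us hus husn
    set mk := (Submodule.span ℝ {w - v}).mkQ with hmk
    have hmku : mk (w - v) = 0 := by
      rw [hmk, Submodule.mkQ_apply, Submodule.Quotient.mk_eq_zero]
      exact Submodule.mem_span_singleton_self _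
    -- the images of the `us i` are nonzero multiples of those of `g (Q i)`
    have hco : ∀ i, ∃ c : ℝˣ, mk (us i) = c • mk (g (e.symm i : Finset (Fin n → ℝ))) := by
      intro i
      have hQi := hQe _ (e.symm i).2
      have hgi := hg _ hQi.2.2.2
      obtain ⟨a, c, hac⟩ := ad_plane hQi.2.1 hQi.2.2.1 he.1 hQi.2.2.2 hgi.1 hgi.2 (us i) (hus i)
      have hc : c ≠ 0 := by
        rintro rfl
        apply husn i
        rw [hac, zero_smul, add_zero]
        exact Submodule.smul_mem _ _ (Submodule.mem_span_singleton_self _)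
      refine ⟨Units.mk0 c hc, ?_⟩
      rw [hac, map_add, map_smul, map_smul, hmku, smul_zero, zero_add]
      rfl
    choose c hc using hco
    have hli0 : LinearIndependent ℝ (fun i => mk (g (e.symm i : Finset (Fin n → ℝ)))) := by
      have := hQli.linearIndependent
      exact this.comp (fun i => (⟨(e.symm i : Finset (Fin n → ℝ)), by
        exact_mod_cast (e.symm i).2⟩ : (𝒬 : Set (Finset (Fin n → ℝ))))) (by
          intro i j hij
          have h := congrArg Subtype.val hij
          exact e.symm.injective (Subtype.ext h))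
    have hli1 : LinearIndependent ℝ (mk ∘ us) := by
      have h := hli0.units_smul c
      have h2 : mk ∘ us = c • (fun i => mk (g (e.symm i : Finset (Fin n → ℝ)))) :=
        funext fun i => hc i
      rw [h2]
      exact h
    have hli2 : LinearIndependent ℝ us := LinearIndependent.of_comp mk hli1
    rw [linearIndependent_finCons]
    refine ⟨hli2, ?_⟩
    intro hmem
    rw [Submodule.mem_span_range_iff_exists_fun] at hmem
    obtain ⟨d, hd⟩ := hmem
    have h0 : ∑ i, d i • (mk ∘ us) i = 0 := by
      have h1 := congrArg (fun x => mk x) hd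
      simp only [map_sum, map_smul] at h1
      exact h1.trans hmku
    have hd0 := Fintype.linearIndependent_iff.1 hli1 d h0
    apply hu
    rw [← hd]
    refine Finset.sum_eq_zero (fun i _ => ?_)
    rw [hd0 i, zero_smul]

end MP81308f
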