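import Pool.Agent.Lib.MP_81308f_co.Full.Defs

/-!
# MP_81308f_co : the sets `GG` (not centred boxes, convexity)
-/

open scoped Pointwise BigOperators

namespace MP81308f

/-- `G_Γ` is convex. -/
def S_GGconvex : Prop := ∀ (n : ℕ) (Γ P : Set (Fin n → ℝ)) (U : Submodule ℝ (Fin n → ℝ)) (r : ℝ),
  Convex ℝ Γ → Convex ℝ P → Convex ℝ (GG Γ P U r)

/-- A box gives a point of `G_Γ`. -/
def S_GGbox : Prop := ∀ (n d : ℕ) (Γ P : Set (Fin n → ℝ)) (U : Submodule ℝ (Fin n → ℝ)) (r : ℝ)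
  (B : Fin d → Fin n → ℝ), (∀ i, B i ∈ Lat n) → (∀ i, B i ∈ U) → LinearIndependent ℝ B →
  Module.finrank ℝ U = d → ∀ p₁ p₂ : Fin n → ℝ,
  (∀ t : Fin d → ℝ, (∀ i, 0 ≤ t i ∧ t i ≤ 1) → p₁ + ∑ i, t i • B i ∈ Γ) →
  (∀ t : Fin d → ℝ, (∀ i, 0 ≤ t i ∧ t i ≤ 1) → p₂ + ∑ i, t i • B i ∈ r • P) →
  p₁ + p₂ + ∑ i, B i ∈ GG Γ P U r

theorem a_GGconvex : S_GGconvex := fun _ Γ P U r hΓ hP => GG_convex Γ P U r hΓ hP

theorem a_GGbox : S_GGbox := by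
  intro n d Γ P U r B hL hU hli hd p₁ p₂ h1 h2
  have key : ∀ (p : Fin n → ℝ) (t : Fin d → ℝ),
      (p + ∑ i, (1 / 2 : ℝ) • B i) + ∑ i, t i • B i = p + ∑ i, (1 / 2 + t i) • B i := by
    intro p t
    rw [add_assoc, ← Finset.sum_add_distrib]
    simp only [add_smul]
  have hb : ∀ t : Fin d → ℝ, (∀ i, |t i| ≤ 1 / 2) → ∀ i, 0 ≤ 1 / 2 + t i ∧ 1 / 2 + t i ≤ 1 := by
    intro t ht i
    have := abs_le.1 (ht i)
    constructor <;> linarith [this.1, this.2]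
  have h := GG_of_box Γ P U r hd B hL hU hli (p₁ + ∑ i, (1 / 2 : ℝ) • B i)
    (p₂ + ∑ i, (1 / 2 : ℝ) • B i)
    (fun t ht => by rw [key]; exact h1 _ (hb t ht))
    (fun t ht => by rw [key]; exact h2 _ (hb t ht))
  have e : (p₁ + ∑ i, (1 / 2 : ℝ) • B i) + (p₂ + ∑ i, (1 / 2 : ℝ) • B i) = p₁ + p₂ + ∑ i, B i := by
    have : (∑ i, B i) = ∑ i, (1 / 2 : ℝ) • B i + ∑ i, (1 / 2 : ℝ) • B i := by
      rw [← Finset.sum_add_distrib]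
      refine Finset.sum_congr rfl fun i _ => ?_
      rw [← add_smul]; norm_num
    rw [this]; abel
  rwa [e] at h

end MP81308f
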