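import Pool.Agent.Lib.MP_81308f_co.Full.Spec
import Pool.Agent.Lib.MP_81308f_co.Full.TwoFace
import Pool.Agent.Lib.MP_81308f_co.Pull

/-!
# MP_81308f_co : the cone of a 2-face at a vertex
-/

set_option autoImplicit false

open scoped Pointwise BigOperators

namespace MP81308f

/-- A point of `K` in the plane of an edge `[v,w]` and a second point `w'` off the edge:
its coordinate along `w'` is nonnegative. -/
theorem cone2_nonneg {n : ℕ} (K : Set (Fin n → ℝ)) (hK : Convex ℝ K) (v w w' p : Fin n → ℝ)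
    (hv : v ∈ K) (hw : w ∈ K) (hw' : w' ∈ K) (hp : p ∈ K)
    (hli : LinearIndependent ℝ ![w - v, w' - v])
    (he : IsExtreme ℝ K (segment ℝ v w)) (x y : ℝ)
    (hxy : p - v = x • (w - v) + y • (w' - v)) : 0 ≤ y := by
  by_contra hy
  push Not at hy
  have hvw : v ≠ w := by
    intro h
    have := hli.ne_zero 0
    simp [h] at this
  have h1 : 0 < 1 - y := by linarith
  have hz : (1 / (1 - y)) • p + (-y / (1 - y)) • w' ∈ K := by
    refine hK hp hw' (by positivity) (div_nonneg (by linarith) h1.le) ?_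
    rw [← add_div, div_eq_one_iff_eq h1.ne']
    ring
  have hp2 : p = v + (x • (w - v) + y • (w' - v)) := by rw [← hxy]; abel
  have hzt : (1 / (1 - y)) • p + (-y / (1 - y)) • w' = v + (x / (1 - y)) • (w - v) := by
    rw [hp2]
    funext i
    simp only [Pi.add_apply, Pi.smul_apply, Pi.sub_apply, smul_eq_mul]
    field_simp
    ring
  have hzs := tf_on_edge K v w hvw hv hw he _ hz _ hzt
  have hps : p ∈ segment ℝ v w := by
    refine he.2 hp hw' hzs ⟨1 / (1 - y), -y / (1 - y), by positivity,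
      div_pos (by linarith) h1, ?_, rfl⟩
    rw [← add_div, div_eq_one_iff_eq h1.ne']
    ring
  rw [segment_eq_image'] at hps
  obtain ⟨t, _, ht⟩ := hps
  simp only at ht
  have h2 : (x - t) • (w - v) + y • (w' - v) = 0 := by
    have : p - v = t • (w - v) := by rw [← ht]; abel
    rw [this] at hxy
    rw [sub_smul, sub_add_eq_add_sub, ← hxy, sub_self]
  have h3 := (LinearIndependent.pair_iff.1 hli) _ _ h2
  linarith [h3.2]

theorem a_Cone2 : S_Cone2 := by
  classical
  intro n T hT A hA hdim v hv w hw he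
  set K := convexHull ℝ (A : Set (Fin n → ℝ)) with hK
  have hKc : Convex ℝ K := convex_convexHull ℝ _
  have hsub : ∀ x ∈ A, x ∈ K := fun x hx => subset_convexHull ℝ _ (by exact_mod_cast hx)
  have hvK := hsub v hv
  have hwK := hsub w hw
  have hKT : K ⊆ convexHull ℝ (T : Set (Fin n → ℝ)) := hA.2.2.1
  have hrestr : ∀ b ∈ A, IsEdge T v b → IsExtreme ℝ K (segment ℝ v b) := by
    intro b hb hbe
    refine ⟨hKc.segment_subset hvK (hsub b hb), ?_⟩
    intro x₁ hx₁ x₂ hx₂ x hx ho
    exact hbe.2.2 (hKT hx₁) (hKT hx₂) hx ho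
  have hvx : v ∈ K.extremePoints ℝ := by
    have h1 := hT.ext v (hA.1 hv)
    rw [mem_extremePoints] at h1 ⊢
    exact ⟨hvK, fun x₁ hx₁ x₂ hx₂ ho => h1.2 x₁ (hKT hx₁) x₂ (hKT hx₂) ho⟩
  have hstar := star_span A v hv hvx
  -- an edge at `v` not parallel to `w - v`
  obtain ⟨w', hw', hw'e, hw's⟩ : ∃ w' ∈ A, IsEdge A v w' ∧
      w' - v ∉ Submodule.span ℝ {w - v} := by
    by_contra hcon
    push Not at hcon
    have h1 : vectorSpan ℝ (A : Set (Fin n → ℝ)) ≤ Submodule.span ℝ {w - v} := by
      refine hstar.trans ?_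
      rw [Submodule.span_le]
      rintro _ ⟨b, ⟨hb, hbe⟩, rfl⟩
      exact hcon b hb hbe
    have h2 := Submodule.finrank_mono h1
    have h3 : Module.finrank ℝ (Submodule.span ℝ {w - v}) ≤ 1 := by
      have := finrank_span_le_card (R := ℝ) ({w - v} : Set (Fin n → ℝ))
      simpa using this
    unfold dim at hdim
    omega
  have hw'T : IsEdge T v w' := ⟨hw'e.1, hA.2.2.trans hw'e.2⟩
  have hwv : w - v ≠ 0 := sub_ne_zero.2 he.1.symm
  have hli : LinearIndependent ℝ ![w - v, w' - v] := by
    rw [LinearIndependent.pair_iff' hwv]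
    intro a ha
    exact hw's (by rw [← ha]; exact Submodule.smul_mem _ _ (Submodule.mem_span_singleton_self _))
  have hspan : Submodule.span ℝ (Set.range ![w - v, w' - v]) =
      vectorSpan ℝ (A : Set (Fin n → ℝ)) := by
    apply Submodule.eq_of_le_of_finrank_eq
    · rw [Submodule.span_le]
      rintro _ ⟨j, rfl⟩
      fin_cases j
      · exact vsub_mem_vectorSpan ℝ (by exact_mod_cast hw) (by exact_mod_cast hv)
      · exact vsub_mem_vectorSpan ℝ (by exact_mod_cast hw') (by exact_mod_cast hv)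
    · rw [finrank_span_eq_card hli]
      unfold dim at hdim
      rw [hdim]
      simp
  refine ⟨w', hw', hw'T, hli, ?_⟩
  intro p hp
  have hpv : p - v ∈ Submodule.span ℝ (Set.range ![w - v, w' - v]) := by
    rw [hspan]
    exact vsub_mem_vectorSpan ℝ (by exact_mod_cast hp) (by exact_mod_cast hv)
  rw [Submodule.mem_span_range_iff_exists_fun] at hpv
  obtain ⟨c, hc⟩ := hpv
  rw [Fin.sum_univ_two] at hc
  simp only [Matrix.cons_val_zero, Matrix.cons_val_one] at hc
  refine ⟨c 0, c 1, ?_, ?_, hc.symm⟩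
  · have hli' : LinearIndependent ℝ ![w' - v, w - v] := by
      rw [LinearIndependent.pair_iff] at hli ⊢
      intro s t hst
      have := hli t s (by rw [add_comm]; exact hst)
      exact ⟨this.2, this.1⟩
    exact cone2_nonneg K hKc v w' w p hvK (hsub w' hw') hwK (hsub p hp) hli' hw'e.2 (c 1) (c 0)
      (by rw [← hc, add_comm])
  · exact cone2_nonneg K hKc v w w' p hvK hwK (hsub w' hw') (hsub p hp) hli (hrestr w hw he)
      (c 0) (c 1) hc.symm

end MP81308f
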