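import Pool.Agent.Lib.MP_81308f_co.Full.Defs

/-!
# MP_81308f_co : specification of the full answer

Proof: note 1822 of helper86 (and 1821, 1824).  `l = n - 1 ≥ 2`, `P = conv T`, every edge is a
multiple `≥ l` of a lattice vector.  Every point of `(r+1) P` is in some `G_A` (`A` a face) or in
some `(r+1) KH l T v`.  Every `S_x` below is proved in its own file `Full/<Name>.lean`
(theorem `a_x : S_x`, or with the used `S_y` as hypotheses).
-/

open scoped Pointwise BigOperators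

namespace MP81308f

/-! ## Done

* Rounding (helper35, `Round.lean`): `GG_convex`, `GG_decomp`, `GG_of_box`.
* The kQ theorem (helper25, `KQ.lean`): `kq_class`.
* Continuous weights on chains of faces (helper89, `Full/Weights.lean`): `weights`.
* The covering theorem for labels with closed regions (`Full/Cov1.lean`): `sel_cover`.
* Final assembly (helper35, `Full/Final.lean`): `full_main (hKQ : S_KQ) (hReal : S_Real)`.
-/

/-! ## Topology -/

/-- (helper74, CoverV.lean) The covering theorem for faces, from `weights` and `sel_cover`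
(applied to `(1 / ρ) • c`).  `cl` is the class of a vertex, a face `B` is pure if all `cl` on `B`
agree; `T` is not pure.
LABELS `j ∈ J = Finset faces ⊕ classes of the vertices` with continuous weights on `P`:
`μ_k(x) = ∑ w_A(x)` over the pure faces `A` of class `k`, `μ = ∑_k μ_k` (at most one `k` has
`μ_k(x) > 0`: the members of a chain of pure faces have the same class); `G A` (`A ≠ T` not pure):
`w_A`;  `G A` (`A ≠ T` pure): `w_A * max 0 (μ - w_T)`; `G T`: `max 0 (w_T - μ)`;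
`K k`: `min μ_k w_T`.  For every `x ∈ P` some label has positive weight.  The region `R_j` of a
label is the set where its weight is maximal among all labels (closed, covering; in it the weight is
positive).  At `x` let `C` be the proper faces `A` with `x ∈ R_{G A}` (a chain).
* neither `G T` nor a `K k` is present: (H1) with `A = max C`; `q ∈ ρ conv A`, `A ⊆ faceSet P x`;
* some `K k` but not `G T`: a pure face `A₀` of class `k` has `w > 0`, comparable with all members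
  of `C`; take `v ∈ A₀ ∩ min C`; (H2); here `w_T x > 0`, so `T ⊆ faceSet P x`;
* `G T` but no `K k`: no member of `C` is pure (weight of `G T > 0` gives `μ < w_T`); (H3);
* `G T` and `K k`: no member of `C` is pure, some pure `A₀` of class `k` with `w > 0` is below
  all members of `C` (comparable, and a subface of a pure face is pure); (H4) with `v ∈ A₀`. -/
def S_Cover : Prop := ∀ (n : ℕ) (T : Finset (Fin n → ℝ)), VPoly T → ∀ (ρ : ℝ), 0 < ρ →
  ∀ (G : Finset (Fin n → ℝ) → Set (Fin n → ℝ)), (∀ A, IsFace T A → Convex ℝ (G A)) →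
  ∀ (κ : Type) (cl : (Fin n → ℝ) → κ) (K : κ → Set (Fin n → ℝ)), (∀ k, Convex ℝ (K k)) →
  (¬ ∀ v ∈ T, ∀ w ∈ T, cl v = cl w) →
  -- (H1)
  (∀ C, IsChainF T C → T ∉ C → ∀ A ∈ C, (∀ B ∈ C, B ⊆ A) →
    ∃ q ∈ ρ • convexHull ℝ (A : Set (Fin n → ℝ)), ∀ B ∈ C, q ∈ G B) →
  -- (H2)
  (∀ C, IsChainF T C → T ∉ C → ∀ v ∈ T, (∀ B ∈ C, v ∈ B) →
    ∃ q ∈ ρ • convexHull ℝ (T : Set (Fin n → ℝ)), q ∈ K (cl v) ∧ ∀ B ∈ C, q ∈ G B) →
  -- (H3)
  (∀ C, IsChainF T C → T ∉ C → (∀ B ∈ C, ¬ ∀ v ∈ B, ∀ w ∈ B, cl v = cl w) →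
    ∃ q ∈ ρ • convexHull ℝ (T : Set (Fin n → ℝ)), q ∈ G T ∧ ∀ B ∈ C, q ∈ G B) →
  -- (H4)
  (∀ C, IsChainF T C → T ∉ C → (∀ B ∈ C, ¬ ∀ v ∈ B, ∀ w ∈ B, cl v = cl w) →
    ∀ v ∈ T, (∀ B ∈ C, v ∈ B) →
    ∃ q ∈ ρ • convexHull ℝ (T : Set (Fin n → ℝ)), q ∈ G T ∧ q ∈ K (cl v) ∧ ∀ B ∈ C, q ∈ G B) →
  ρ • convexHull ℝ (T : Set (Fin n → ℝ)) ⊆
    (⋃ A ∈ {A : Finset (Fin n → ℝ) | IsFace T A}, G A) ∪ ⋃ v ∈ T, K (cl v)

/-! ## Faces -/

/-- (FaceAff.lean) A face is the intersection of `P` with its affine hull.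
Proof: let `m` be the centroid of `A`; if `x ∈ P`, `x - a ∈ vectorSpan A`, then
`m + ε (m - x) ∈ conv A` for small `ε > 0` (relative interior), and `m` is in the open segment
between this point and `x`; `conv A` is extreme. -/
def S_FaceAff : Prop := ∀ (n : ℕ) (T : Finset (Fin n → ℝ)) (A : Finset (Fin n → ℝ)), IsFace T A →
  ∀ a ∈ A, ∀ x ∈ convexHull ℝ (T : Set (Fin n → ℝ)), x - a ∈ vectorSpan ℝ (A : Set (Fin n → ℝ)) →
  x ∈ convexHull ℝ (A : Set (Fin n → ℝ))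

/-- (DimLt.lean) A proper face has smaller dimension (from `S_FaceAff`; all points of `T` are
extreme, so `T ⊆ conv A` gives `T ⊆ A`). -/
def S_DimLt : Prop := ∀ (n : ℕ) (T : Finset (Fin n → ℝ)), VPoly T → ∀ A B, IsFace T A →
  IsFace T B → A ⊆ B → A ≠ B → dim A < dim B

/-- (helper67, Conn.lean) The graph of a face is connected.
Proof: put `A₁ = A ∩ S`, `A₂ = A \ S`, both nonempty.  Take `b ∈ A₂` and a functional `f` with
`f b > f p` for all other `p ∈ A` (`star_sep`).  Let `a ∈ A₁` maximize `f` on `A₁`.  The tangent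
cone of `conv A` at `a` is generated by the edges at `a` (in the proof of `star_span`), so, as
`f b > f a`, some edge `[a, b']` of `A` has `f b' > f a`; then `b' ∉ S`. -/
def S_Conn : Prop := ∀ (n : ℕ) (T : Finset (Fin n → ℝ)), VPoly T → ∀ A, IsFace T A →
  ∀ (S : Set (Fin n → ℝ)), (∃ v ∈ A, v ∈ S) → (∃ w ∈ A, w ∉ S) →
  ∃ a ∈ A, ∃ b ∈ A, a ∈ S ∧ b ∉ S ∧ IsEdge T a b

/-- (Cone2.lean) The cone of a 2-face at a vertex. -/
def S_Cone2 : Prop := ∀ (n : ℕ) (T : Finset (Fin n → ℝ)), VPoly T → ∀ A, IsFace T A →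
  dim A = 2 → ∀ v ∈ A, ∀ w ∈ A, IsEdge T v w →
  ∃ w' ∈ A, IsEdge T v w' ∧ LinearIndependent ℝ ![w - v, w' - v] ∧
    ∀ p ∈ A, ∃ x y : ℝ, 0 ≤ x ∧ 0 ≤ y ∧ p - v = x • (w - v) + y • (w' - v)

/-- (helper67, Adapt2.lean) 2-faces through an edge adapted to a chain of faces through it.
Proof: project along `w - v` (`π x = x - λ(x) (w - v)`, `λ (w - v) = 1`): `π v` is an extreme point
of `π (conv B)`; by `star_span` its edges span; the preimage (in `B`) of an edge at `π v` is a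
2-face of `B` containing `v, w`.  So the 2-faces of `B` through the edge span `vectorSpan B`.
Then extend step by step along the chain (exchange). -/
def S_Adapt2 : Prop := ∀ (n : ℕ) (T : Finset (Fin n → ℝ)), VPoly T → ∀ v ∈ T, ∀ w ∈ T,
  IsEdge T v w → ∀ C, IsChainF T C → (∀ B ∈ C, v ∈ B ∧ w ∈ B) →
  ∃ Q : Fin (dim T - 1) → Finset (Fin n → ℝ),
    (∀ i, IsFace T (Q i) ∧ dim (Q i) = 2 ∧ v ∈ Q i ∧ w ∈ Q i) ∧
    (∀ B ∈ C, ∃ I : Finset (Fin (dim T - 1)), I.card = dim B - 1 ∧ ∀ i ∈ I, Q i ⊆ B) ∧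
    ∀ us : Fin (dim T - 1) → (Fin n → ℝ),
      (∀ i, us i ∈ vectorSpan ℝ (Q i : Set (Fin n → ℝ))) →
      (∀ i, us i ∉ Submodule.span ℝ {w - v}) →
      LinearIndependent ℝ (Fin.cons (w - v) us : Fin (dim T - 1 + 1) → (Fin n → ℝ))

/-! ## Lattice -/

/-- (helper51, Prim.lean) Primitive vectors. -/
def S_Prim : Prop := ∀ (n : ℕ) (z : Fin n → ℝ), z ∈ Lat n → z ≠ 0 →
  ∃ u ∈ Lat n, ∃ m : ℕ, 0 < m ∧ z = (m : ℝ) • u ∧ ∀ k : ℝ, k • u ∈ Lat n → ∃ j : ℤ, k = j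

/-- (helper86, Par.lean) The two-dimensional lemma (1822 (3)), from `S_Prim`, `S_Cone2`.
`v, w` adjacent vertices of the 2-face `A`, not congruent mod `l`; `u` primitive, `w - v = m u`.
PROOF.  `m ≥ l + 1` (`LongEdges` gives `w - v = k u₀`, `k ≥ l`, `u₀ = j u`, so `m = k j ≥ l`, and
`l ∤ m`).  `w'` from `S_Cone2`, `w' - v = m' u'`, `u'` primitive, `m' ≥ l`.  Coordinates
`v + x u + y u'`.
(a) Some lattice vector `z = x u + y u'` has `y ∉ ℤ`.  Subtracting multiples of `u'`, replacing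
`z` by `u' - z` and subtracting multiples of `u` we get `0 < y ≤ 1/2`, `-1 < x ≤ 0`.  `us = z`,
base point `x₀ = - l x`: the corners `(x₀,0), (x₀+1,0), (0, l y), (1, l y)` are in
`conv (0, (m,0), (0,l))`; the centre `((1+x₀)/2, l y/2)` has sum `≤ (1 + l + l/2)/2 ≤ l`, so it is
in `conv (v, v + l u, v + l u') ⊆ KH l T v`.
(b) Otherwise all lattice vectors of the plane have integral coordinates.  CLAIM `(1, l) ∈ conv A`;
then `us = u'`, base point `0`, centre `(1/2, l/2)`.  If `m' ≥ l + 1`: `1/m + l/m' ≤ 1`.  If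
`m' = l`: let `p` be the other neighbour of `w' = (0,l)` (`S_Cone2` at `w'`), `p - w' = h (d₁, d₂)`,
`h ≥ l`, `d₁ ≥ 1`, `d₂` integers.  `d₂ = 0`: on the segment `[w', p]`.  `d₂ ≥ 1`: the segment from
`p = (h d₁, l + h d₂)` to `w = (m, 0)` has at height `l` the abscissa `≥ m h d₂/(l + h d₂) ≥ m/2 ≥ 1`.
`d₂ ≤ -1`: `l + h d₂ ≥ 0` forces `h = l`, `d₂ = -1`, `p = (l d₁, 0)` is an extreme point on the
line of the edge, so `p = w` and `v, w` are congruent, a contradiction. -/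
def S_Par : Prop := ∀ (n l : ℕ), 2 ≤ l → ∀ (T : Finset (Fin n → ℝ)), VPoly T →
  LongEdges (l : ℝ) T → ∀ A, IsFace T A → dim A = 2 → ∀ v ∈ A, ∀ w ∈ A, IsEdge T v w →
  ¬ Cong n l v w → ∀ u ∈ Lat n, ∀ m : ℕ, w - v = (m : ℝ) • u →
  (∀ k : ℝ, k • u ∈ Lat n → ∃ j : ℤ, k = j) →
  ∃ us ∈ Lat n, us ∈ vectorSpan ℝ (A : Set (Fin n → ℝ)) ∧ us ∉ Submodule.span ℝ {u} ∧
    ∃ x : ℝ, 0 ≤ x ∧
      (∀ s t : ℝ, 0 ≤ s → s ≤ 1 → 0 ≤ t → t ≤ 1 →
        v + (x + s) • u + (t * l) • us ∈ convexHull ℝ (A : Set (Fin n → ℝ))) ∧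
      v + (x + 1 / 2) • u + ((l : ℝ) / 2) • us ∈ KH l T v

/-! ## The two points -/

/-- (helper76, Star.lean -> StarPt.lean) The star point (1822 (2)).
Choose `b_1, …, b_d ∈ A` (`d = dim A ≤ l`) with `IsEdge T v b_i`, the `b_i - v` independent and
exactly `dim B` of them in `B` for every `B ∈ C` (`pull_extend` along the chain).
`b_i - v = k_i u_i`, `k_i ≥ l`, `u_i ∈ Lat`.  `q = (r+1) v + ∑ u_i`.  `GG_of_box` with the `u_i` of
`B`, `p₁ = v`, `p₂ = r v + ∑ (the others)`; `v + ∑ t_i u_i ∈ conv (v, v + l u_i)` for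
`t_i ∈ [0,1]`, since `d ≤ l`; `v + l u_i` is congruent to `v` and in `[v, b_i]`. -/
def S_Star : Prop := ∀ (n l : ℕ), 1 ≤ l → ∀ (T : Finset (Fin n → ℝ)), VPoly T →
  LongEdges (l : ℝ) T → ∀ C, IsChainF T C → ∀ A, IsFace T A → dim A ≤ l → (∀ B ∈ C, B ⊆ A) →
  ∀ v ∈ A, (∀ B ∈ C, v ∈ B) → ∀ r : ℝ, 1 ≤ r →
  ∃ q ∈ (r + 1) • convexHull ℝ (A : Set (Fin n → ℝ)), q ∈ (r + 1) • KH l T v ∧
    ∀ B ∈ C, q ∈ GF T r B

/-- (helper81, EdgePt.lean) The edge point (1822 (4)), from `S_Par`, `S_Adapt2`, `S_FaceAff`,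
`GG_of_box`, `S_Prim`.  `w - v = m u`, `Q_i` from `S_Adapt2` (`i < n - 1 = l`), `us_i, x_i` from
`S_Par` for `Q_i`.  `X = (1/l) ∑ x_i`.  Box: `v + X u + s u + ∑ t_i us_i
= (1/l) ∑ (v + (x_i + s) u + (t_i l) us_i) ∈ P` for `s, t_i ∈ [0,1]`.
`q = (r+1) v + (2X + 1) u + ∑ us_i = (r-1) v + 2 centre`; `centre = (1/l) ∑ centres ∈ KH l T v`.
For `B ∈ C` (and `B = T`) the vectors `u` and `us_i` (`i ∈ I`) form a basis of `vectorSpan B`;
the sub-box is in `conv B` by `S_FaceAff`; `p₁ = v + X u`, `p₂ = r v + X u + ∑_{i ∉ I} us_i`. -/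
def S_Edge : Prop := ∀ (n l : ℕ), 2 ≤ l → n = l + 1 → ∀ (T : Finset (Fin n → ℝ)), VPoly T →
  LongEdges (l : ℝ) T → dim T = n → ∀ v ∈ T, ∀ w ∈ T, IsEdge T v w → ¬ Cong n l v w →
  ∀ C, IsChainF T C → (∀ B ∈ C, v ∈ B ∧ w ∈ B) → ∀ r : ℝ, 1 ≤ r →
  ∃ q ∈ (r + 1) • convexHull ℝ (T : Set (Fin n → ℝ)), q ∈ (r + 1) • KH l T v ∧
    q ∈ GF T r T ∧ ∀ B ∈ C, q ∈ GF T r B

/-! ## Assembly -/

/-- (helper59, RealCov.lean) gives `S_Real` of `Full/Final.lean`; from `S_Cover`, `S_Star`, `S_Edge`, `S_Conn`,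
`GG_convex`, `S_DimLt`.  If all of `T` is congruent, `conv T ⊆ KH l T v`.  Otherwise `S_Cover`
with `ρ = r + 1`, `G = GF T r`, `κ = Set (Fin n → ℝ)`, `cl v = {x | Cong n l v x}`,
`K k = (r+1) • convexHull {x ∈ conv T | x ∈ Lat n ∧ x ∈ k}`.  (H1), (H2): `S_Star`
(proper faces have `dim ≤ n - 1 = l`; (H2) with `C = ∅`: the face `{v}`).  (H3), (H4): the
smallest member `A` of `C` (or `T`) is not pure; `S_Conn` with `S` = the class of `v` gives an
edge `[a,b]` of `A` with `a ≡ v`, `b ≢ v`; `S_Edge` at `a` (`KH l T a = KH l T v`). -/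
def S_RealCov : Prop := ∀ (n l : ℕ), 2 ≤ l → n = l + 1 → ∀ (T : Finset (Fin n → ℝ)), VPoly T →
  LongEdges (l : ℝ) T → dim T = n → ∀ r : ℝ, 1 ≤ r →
  ∀ c ∈ (r + 1) • convexHull ℝ (T : Set (Fin n → ℝ)),
    (∃ A, IsFace T A ∧ c ∈ GF T r A) ∨ ∃ v ∈ T, c ∈ (r + 1) • KH l T v

end MP81308f
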