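import Pool.Agent.Lib.MP_81308f_co.Star
import Pool.Agent.Lib.MP_81308f_co.Full.Spec

open scoped Pointwise BigOperators

namespace MP81308f

/-- The edges at a vertex generate the tangent cone (dual form). -/
theorem star_cone {n : ℕ} (T : Finset (Fin n → ℝ)) (v : Fin n → ℝ) (hv : v ∈ T)
    (hvx : v ∈ (convexHull ℝ (T : Set (Fin n → ℝ))).extremePoints ℝ)
    (k : (Fin n → ℝ) →ₗ[ℝ] ℝ) (hk : ∀ b ∈ T, IsEdge T v b → 0 ≤ k (b - v)) :
    ∀ p ∈ T, 0 ≤ k (p - v) := by
  classical
  set W : Set (Fin n → ℝ) := {x | 0 ≤ k x} with hW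
  have hWconv : Convex ℝ W := convex_halfSpace_ge (LinearMap.isLinear k) 0
  obtain ⟨f, hf⟩ := star_sep T v hvx
  have hfpos : ∀ p ∈ T.erase v, 0 < f (p - v) := by
    intro p hp
    rw [map_sub]
    have := hf p (Finset.mem_of_mem_erase hp) (Finset.ne_of_mem_erase hp)
    linarith
  set ph : (Fin n → ℝ) → (Fin n → ℝ) := fun p => (f (p - v))⁻¹ • (p - v) with hph
  set S : Finset (Fin n → ℝ) := (T.erase v).image ph with hS
  have hfph : ∀ p ∈ T.erase v, f (ph p) = 1 := by
    intro p hp
    rw [hph]
    simp only [map_smul, smul_eq_mul]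
    exact inv_mul_cancel₀ (hfpos p hp).ne'
  have hback : ∀ p ∈ T.erase v, p - v = f (p - v) • ph p := by
    intro p hp
    rw [hph]
    simp only [smul_smul]
    rw [mul_inv_cancel₀ (hfpos p hp).ne', one_smul]
  -- every extreme point of the figure gives an edge
  have hext : ∀ g ∈ (convexHull ℝ (S : Set (Fin n → ℝ))).extremePoints ℝ, g ∈ W := by
    intro g hg
    have hgS : g ∈ S := by exact_mod_cast extremePoints_convexHull_subset hg
    obtain ⟨h, hh⟩ := star_sep S g hg
    have hfg : f g = 1 := by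
      rw [hS, Finset.mem_image] at hgS
      obtain ⟨p, hp, rfl⟩ := hgS
      exact hfph p hp
    have hne : ((T.erase v).filter (fun p => ph p = g)).Nonempty := by
      rw [hS, Finset.mem_image] at hgS
      obtain ⟨p, hp, hpg⟩ := hgS
      exact ⟨p, Finset.mem_filter.2 ⟨hp, hpg⟩⟩
    obtain ⟨b, hb, hbmax⟩ := Finset.exists_max_image _ (fun p => f (p - v)) hne
    rw [Finset.mem_filter] at hb
    obtain ⟨hbT, hbg⟩ := hb
    have hbv : b - v = f (b - v) • g := by
      have := hback b hbT
      rwa [hbg] at this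
    have hedge : IsEdge T v b := by
      refine ⟨(Finset.ne_of_mem_erase hbT).symm, ?_⟩
      refine star_edge T v b hv (Finset.mem_of_mem_erase hbT)
        ((h : (Fin n → ℝ) →ₗ[ℝ] ℝ) - (h g) • (f : (Fin n → ℝ) →ₗ[ℝ] ℝ)) ?_ ?_ ?_
      · intro p hp
        by_cases hpv : p = v
        · subst hpv
          simp
        have hpe : p ∈ T.erase v := Finset.mem_erase.2 ⟨hpv, hp⟩
        rw [hback p hpe]
        simp only [LinearMap.sub_apply, LinearMap.smul_apply, ContinuousLinearMap.coe_coe,
          map_smul, smul_eq_mul, hfph p hpe]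
        have h3 : h g ≤ h (ph p) := by
          by_cases hpg : ph p = g
          · rw [hpg]
          · exact (hh (ph p) (Finset.mem_image_of_mem _ hpe) hpg).le
        have h4 := hfpos p hpe
        nlinarith [mul_nonneg h4.le (sub_nonneg.2 h3)]
      · rw [hbv]
        simp only [LinearMap.sub_apply, LinearMap.smul_apply, ContinuousLinearMap.coe_coe,
          map_smul, smul_eq_mul, hfg]
        ring
      · intro p hp h0
        by_cases hpv : p = v
        · subst hpv
          exact ⟨0, le_refl _, zero_le_one, by simp⟩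
        have hpe : p ∈ T.erase v := Finset.mem_erase.2 ⟨hpv, hp⟩
        have hpg : ph p = g := by
          by_contra hpg
          have h3 := hh (ph p) (Finset.mem_image_of_mem _ hpe) hpg
          have h4 := hfpos p hpe
          rw [hback p hpe] at h0
          simp only [LinearMap.sub_apply, LinearMap.smul_apply, ContinuousLinearMap.coe_coe,
            map_smul, smul_eq_mul, hfph p hpe] at h0
          nlinarith [mul_pos h4 (sub_pos.2 h3)]
        have hle := hbmax p (Finset.mem_filter.2 ⟨hpe, hpg⟩)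
        have hbpos := hfpos b hbT
        refine ⟨f (p - v) / f (b - v), div_nonneg (hfpos p hpe).le hbpos.le,
          (div_le_one hbpos).2 hle, ?_⟩
        have e1 := hback p hpe
        rw [hpg] at e1
        have e2 : (f (p - v) / f (b - v)) • (b - v) = (f (p - v) / f (b - v)) • (f (b - v) • g) :=
          congrArg (fun z => (f (p - v) / f (b - v)) • z) hbv
        rw [e2, smul_smul, div_mul_cancel₀ _ hbpos.ne']
        exact e1
    have hbW : 0 ≤ k (b - v) := hk b (Finset.mem_of_mem_erase hbT) hedge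
    rw [← hbg]
    show 0 ≤ k (ph b)
    rw [hph]
    simp only [map_smul, smul_eq_mul]
    exact mul_nonneg (inv_nonneg.2 (hfpos b hbT).le) hbW
  have hsub : convexHull ℝ (S : Set (Fin n → ℝ)) ⊆ W := by
    have hfin : ((convexHull ℝ (S : Set (Fin n → ℝ))).extremePoints ℝ).Finite :=
      S.finite_toSet.subset extremePoints_convexHull_subset
    have h5 := closure_convexHull_extremePoints
      (S.finite_toSet.isCompact_convexHull ℝ) (convex_convexHull ℝ (S : Set (Fin n → ℝ)))
    rw [(hfin.isClosed_convexHull ℝ).closure_eq] at h5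
    rw [← h5]
    exact convexHull_min (fun g hg => hext g hg) hWconv
  intro p hp
  by_cases hpv : p = v
  · subst hpv
    simp
  have hpe : p ∈ T.erase v := Finset.mem_erase.2 ⟨hpv, hp⟩
  rw [hback p hpe, map_smul, smul_eq_mul]
  exact mul_nonneg (hfpos p hpe).le (hsub (subset_convexHull ℝ _
    (by exact_mod_cast Finset.mem_image_of_mem ph hpe)))

/-- The graph of a face is connected. -/
theorem a_Conn : S_Conn := by
  classical
  rintro n T hT A hA S ⟨v0, hv0A, hv0S⟩ ⟨b, hbA, hbS⟩
  have hextA : ∀ x ∈ A, x ∈ (convexHull ℝ (A : Set (Fin n → ℝ))).extremePoints ℝ := by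
    intro x hx
    have h := hT.ext x (hA.1 hx)
    exact ⟨subset_convexHull ℝ _ (by exact_mod_cast hx),
      fun y hy z hz hyz => h.2 (hA.2.2.subset hy) (hA.2.2.subset hz) hyz⟩
  obtain ⟨h, hh⟩ := star_sep A b (hextA b hbA)
  have hne : (A.filter (fun x => x ∈ S)).Nonempty := ⟨v0, Finset.mem_filter.2 ⟨hv0A, hv0S⟩⟩
  obtain ⟨a, ha, hmin⟩ := Finset.exists_min_image _ (fun x => h x) hne
  obtain ⟨haA, haS⟩ := Finset.mem_filter.1 ha
  have hab : a ≠ b := by
    rintro rfl
    exact hbS haS
  by_contra hcon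
  push Not at hcon
  have hedge : ∀ x ∈ A, IsEdge A a x → 0 ≤ (h : (Fin n → ℝ) →ₗ[ℝ] ℝ) (x - a) := by
    intro x hxA hx
    have hxS : x ∈ S := by
      by_contra hxS
      exact hcon a haA x hxA haS hxS ⟨hx.1, hA.2.2.trans hx.2⟩
    have h1 := hmin x (Finset.mem_filter.2 ⟨hxA, hxS⟩)
    simp only [ContinuousLinearMap.coe_coe, map_sub]
    linarith
  have h2 := star_cone A a haA (hextA a haA) (h : (Fin n → ℝ) →ₗ[ℝ] ℝ) hedge b hbA
  simp only [ContinuousLinearMap.coe_coe, map_sub] at h2
  have h3 := hh a haA hab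
  linarith

end MP81308f
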