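import Pool.Agent.Lib.MP_81308f_co.Full.CoverFaces
import Pool.Agent.Lib.MP_81308f_co.Full.Spec

/-!
# MP_81308f_co : `a_Cover : S_Cover`
-/

open scoped Pointwise BigOperators Topology

namespace MP81308f

/-- A finite chain of nonempty sets, all comparable with the nonempty set `A`, has a common
point with `A`. -/
theorem chain_common {α : Type*} (C : Finset (Finset α)) (A : Finset α) (hA : A.Nonempty)
    (hne : ∀ B ∈ C, B.Nonempty) (hch : ∀ B ∈ C, ∀ B' ∈ C, B ⊆ B' ∨ B' ⊆ B)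
    (hcmp : ∀ B ∈ C, B ⊆ A ∨ A ⊆ B) : ∃ v ∈ A, ∀ B ∈ C, v ∈ B := by
  classical
  rcases C.eq_empty_or_nonempty with rfl | hC
  · obtain ⟨v, hv⟩ := hA
    exact ⟨v, hv, fun B hB => absurd hB (Finset.notMem_empty B)⟩
  · obtain ⟨M, hM, hmin⟩ := Finset.exists_min_image C Finset.card hC
    have hM' : ∀ B ∈ C, M ⊆ B := by
      intro B hB
      rcases hch M hM B hB with h | h
      · exact h
      · rw [Finset.eq_of_subset_of_card_le h (hmin B hB)]
    rcases hcmp M hM with h | h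
    · obtain ⟨v, hv⟩ := hne M hM
      exact ⟨v, h hv, fun B hB => hM' B hB hv⟩
    · obtain ⟨v, hv⟩ := hA
      exact ⟨v, hv, fun B hB => hM' B hB (h hv)⟩

theorem a_Cover : S_Cover := by
  intro n T hTV ρ hρ G hG κ cl K hK _ H1 H2 H3 H4
  classical
  have hT := hTV.ne
  have scale : ∀ {S : Set (Fin n → ℝ)} {q : Fin n → ℝ}, q ∈ ρ • S → ρ⁻¹ • q ∈ S ∧
      ρ • (ρ⁻¹ • q) = q := by
    intro S q hq
    obtain ⟨x, hx, rfl⟩ := Set.mem_smul_set.1 hq
    rw [smul_smul, inv_mul_cancel₀ hρ.ne', one_smul]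
    exact ⟨hx, rfl⟩
  have hconv : ∀ S : Set (Fin n → ℝ), Convex ℝ S → Convex ℝ {x : Fin n → ℝ | ρ • x ∈ S} := by
    intro S hS x hx y hy a b ha hb hab
    show ρ • (a • x + b • y) ∈ S
    have : ρ • (a • x + b • y) = a • (ρ • x) + b • (ρ • y) := by
      rw [smul_add, smul_comm ρ a, smul_comm ρ b]
    rw [this]
    exact hS hx hy ha hb hab
  have hchain : ∀ C : Finset (Finset (Fin n → ℝ)), (∀ A ∈ C, IsCFace T A ∧ A ≠ T) →
      (∀ A ∈ C, ∀ B ∈ C, A ⊆ B ∨ B ⊆ A) → IsChainF T C ∧ T ∉ C := by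
    intro C h1 h2
    exact ⟨⟨fun A hA => (h1 A hA).1.1, h2⟩, fun h => (h1 T h).2 rfl⟩
  intro c hc
  obtain ⟨hx, hcx⟩ := scale hc
  rcases cover_faces T hT (fun A => {x | ρ • x ∈ G A}) (fun A hA => hconv _ (hG A hA.1))
    (fun k => {x | ρ • x ∈ K k}) (fun k => hconv _ (hK k))
    (fun A k => ∀ v ∈ A, cl v = k)
    (fun A A' k _ _ hsub h v hv => h v (hsub hv))
    (fun A k k' hA h h' => by
      obtain ⟨v, hv⟩ := hA.1.2.1
      rw [← h v hv, ← h' v hv])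
    (by
      intro C h1 h2 A hA hmax
      obtain ⟨hC, hTC⟩ := hchain C h1 h2
      obtain ⟨q, hq, hqG⟩ := H1 C hC hTC A hA hmax
      obtain ⟨h3, h4⟩ := scale hq
      refine ⟨_, h3, fun B hB => ?_⟩
      show ρ • (ρ⁻¹ • q) ∈ G B
      rw [h4]
      exact hqG B hB)
    (by
      intro C h1 h2 A k hA hk hcmp
      obtain ⟨hC, hTC⟩ := hchain C h1 h2
      obtain ⟨v, hvA, hvC⟩ := chain_common C A hA.1.2.1 (fun B hB => (h1 B hB).1.1.2.1) h2 hcmp
      obtain ⟨q, hq, hqK, hqG⟩ := H2 C hC hTC v (hA.1.1 hvA) hvC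
      obtain ⟨h3, h4⟩ := scale hq
      refine ⟨_, h3, ?_, fun B hB => ?_⟩
      · show ρ • (ρ⁻¹ • q) ∈ K k
        rw [h4, ← hk v hvA]
        exact hqK
      · show ρ • (ρ⁻¹ • q) ∈ G B
        rw [h4]
        exact hqG B hB)
    (by
      intro C h1 h2 hT' hnp
      obtain ⟨hC, hTC⟩ := hchain C h1 h2
      obtain ⟨q, hq, hqT, hqG⟩ := H3 C hC hTC (fun B hB h => by
        obtain ⟨w, hw⟩ := (h1 B hB).1.1.2.1
        exact hnp B hB (cl w) (fun v hv => h v hv w hw))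
      obtain ⟨h3, h4⟩ := scale hq
      refine ⟨_, h3, ?_, fun B hB => ?_⟩
      · show ρ • (ρ⁻¹ • q) ∈ G T
        rw [h4]
        exact hqT
      · show ρ • (ρ⁻¹ • q) ∈ G B
        rw [h4]
        exact hqG B hB)
    (by
      intro C h1 h2 hT' hnp A k hA _ hk hcmp
      obtain ⟨hC, hTC⟩ := hchain C h1 h2
      obtain ⟨v, hvA, hvC⟩ := chain_common C A hA.1.2.1 (fun B hB => (h1 B hB).1.1.2.1) h2 hcmp
      obtain ⟨q, hq, hqT, hqK, hqG⟩ := H4 C hC hTC (fun B hB h => by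
        obtain ⟨w, hw⟩ := (h1 B hB).1.1.2.1
        exact hnp B hB (cl w) (fun v hv => h v hv w hw)) v (hA.1.1 hvA) hvC
      obtain ⟨h3, h4⟩ := scale hq
      refine ⟨_, h3, ?_, ?_, fun B hB => ?_⟩
      · show ρ • (ρ⁻¹ • q) ∈ G T
        rw [h4]
        exact hqT
      · show ρ • (ρ⁻¹ • q) ∈ K k
        rw [h4, ← hk v hvA]
        exact hqK
      · show ρ • (ρ⁻¹ • q) ∈ G B
        rw [h4]
        exact hqG B hB)
    (ρ⁻¹ • c) hx with ⟨A, hA, hcA⟩ | ⟨A, k, hA, hk, hcK⟩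
  · left
    have hcA' : c ∈ G A := by
      have : ρ • (ρ⁻¹ • c) ∈ G A := hcA
      rwa [hcx] at this
    exact Set.mem_biUnion (show A ∈ {A : Finset (Fin n → ℝ) | IsFace T A} from hA.1) hcA'
  · right
    obtain ⟨v, hv⟩ := hA.1.2.1
    have hcK' : c ∈ K (cl v) := by
      have : ρ • (ρ⁻¹ • c) ∈ K k := hcK
      rw [hcx] at this
      rwa [hk v hv]
    exact Set.mem_biUnion (hA.1.1 hv) hcK'

end MP81308f
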