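import Pool.Agent.Lib.MP_81308f_co.Full.Spec

/-!
# MP_81308f_co : the edge point
-/

open scoped Pointwise BigOperators

namespace MP81308f

theorem ep_avg {n N : ℕ} (hN : 0 < N) {S : Set (Fin n → ℝ)} (hS : Convex ℝ S)
    (y : Fin N → Fin n → ℝ) (hy : ∀ i, y i ∈ S) : ∑ i, (1 / (N : ℝ)) • y i ∈ S := by
  have hN' : (0 : ℝ) < N := by exact_mod_cast hN
  refine hS.sum_mem (fun i _ => by positivity) ?_ (fun i _ => hy i)
  rw [Finset.sum_const, Finset.card_univ, Fintype.card_fin, nsmul_eq_mul]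
  field_simp

theorem ep_sum {n N : ℕ} (hN : 0 < N) (v u : Fin n → ℝ) (x : Fin N → ℝ) (s : ℝ)
    (t : Fin N → ℝ) (us : Fin N → Fin n → ℝ) :
    ∑ i, (1 / (N : ℝ)) • (v + (x i + s) • u + (t i * N) • us i) =
      v + ((∑ i, x i) / N + s) • u + ∑ i, t i • us i := by
  have hN' : (N : ℝ) ≠ 0 := by
    have : (0 : ℝ) < N := by exact_mod_cast hN
    exact ne_of_gt this
  funext k
  simp only [Finset.sum_apply, Pi.add_apply, Pi.smul_apply, smul_eq_mul]
  have h1 : ∀ i, 1 / (N : ℝ) * (v k + (x i + s) * u k + t i * N * us i k) =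
      (1 / (N : ℝ)) * v k + (1 / (N : ℝ)) * u k * x i + (1 / (N : ℝ)) * (s * u k) +
        t i * us i k := by
    intro i
    field_simp
    ring
  rw [Finset.sum_congr rfl (fun i _ => h1 i), Finset.sum_add_distrib, Finset.sum_add_distrib,
    Finset.sum_add_distrib, Finset.sum_const, Finset.sum_const, Finset.card_univ,
    Fintype.card_fin, nsmul_eq_mul, nsmul_eq_mul, ← Finset.mul_sum]
  field_simp
  ring

/-- `GG_of_box` with a corner instead of the centre, for families indexed by a finite type. -/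
theorem ep_box {n : ℕ} {J : Type} [Fintype J] (Γ P : Set (Fin n → ℝ))
    (U : Submodule ℝ (Fin n → ℝ)) (r : ℝ) (B : J → Fin n → ℝ) (hL : ∀ i, B i ∈ Lat n)
    (hU : ∀ i, B i ∈ U) (hli : LinearIndependent ℝ B) (hd : Module.finrank ℝ U = Fintype.card J)
    (p₁ p₂ : Fin n → ℝ)
    (h1 : ∀ t : J → ℝ, (∀ i, 0 ≤ t i ∧ t i ≤ 1) → p₁ + ∑ i, t i • B i ∈ Γ)
    (h2 : ∀ t : J → ℝ, (∀ i, 0 ≤ t i ∧ t i ≤ 1) → p₂ + ∑ i, t i • B i ∈ r • P) :
    p₁ + p₂ + ∑ i, B i ∈ GG Γ P U r := by
  let e := Fintype.equivFin J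
  have hshift : ∀ (p : Fin n → ℝ) (t : Fin (Fintype.card J) → ℝ),
      p + (1 / 2 : ℝ) • ∑ i, B i + ∑ i, t i • (B ∘ e.symm) i =
        p + ∑ j, (t (e j) + 1 / 2) • B j := by
    intro p t
    have h3 : ∑ i, t i • (B ∘ e.symm) i = ∑ j, t (e j) • B j := by
      rw [← Equiv.sum_comp e]
      simp
    rw [h3, Finset.smul_sum, add_assoc, ← Finset.sum_add_distrib]
    congr 1
    refine Finset.sum_congr rfl fun j _ => ?_
    rw [add_smul, add_comm]
  have hb : ∀ (t : Fin (Fintype.card J) → ℝ), (∀ i, |t i| ≤ 1 / 2) →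
      ∀ j, 0 ≤ t (e j) + 1 / 2 ∧ t (e j) + 1 / 2 ≤ 1 := by
    intro t ht j
    have := abs_le.mp (ht (e j))
    constructor <;> linarith [this.1, this.2]
  have h3 := GG_of_box Γ P U r hd (B ∘ e.symm) (fun i => hL _) (fun i => hU _)
    (hli.comp _ e.symm.injective) (p₁ + (1 / 2 : ℝ) • ∑ i, B i) (p₂ + (1 / 2 : ℝ) • ∑ i, B i) (by
      intro t ht
      rw [hshift]
      exact h1 _ (hb t ht)) (by
      intro t ht
      rw [hshift]
      exact h2 _ (hb t ht))
  have h4 : p₁ + p₂ + ∑ i, B i =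
      p₁ + (1 / 2 : ℝ) • ∑ i, B i + (p₂ + (1 / 2 : ℝ) • ∑ i, B i) := by
    module
  rw [h4]
  exact h3

theorem ep_subset {n : ℕ} {l : ℕ} (T : Finset (Fin n → ℝ)) (v : Fin n → ℝ) :
    KH l T v ⊆ convexHull ℝ (T : Set (Fin n → ℝ)) :=
  convexHull_min (fun _ hx => hx.1) (convex_convexHull ℝ _)

/-- A scaled combination. -/
theorem ep_scale {n : ℕ} {S : Set (Fin n → ℝ)} (hS : Convex ℝ S) (a b : ℝ) (ha : 0 ≤ a)
    (hb : 0 < b) (x y : Fin n → ℝ) (hx : x ∈ S) (hy : y ∈ S) : a • x + b • y ∈ (a + b) • S := by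
  have hab : 0 < a + b := by linarith
  refine ⟨(a / (a + b)) • x + (b / (a + b)) • y, hS hx hy (by positivity) (by positivity) ?_, ?_⟩
  · rw [← add_div, div_self hab.ne']
  · show (a + b) • ((a / (a + b)) • x + (b / (a + b)) • y) = _
    rw [smul_add, smul_smul, smul_smul, mul_div_cancel₀ _ hab.ne', mul_div_cancel₀ _ hab.ne']

theorem ep_main (hface : S_FaceAff) {n N m : ℕ} (hN : 0 < N)
    (T : Finset (Fin n → ℝ)) (hT : VPoly T) (v w u : Fin n → ℝ) (hv : v ∈ T) (_hw : w ∈ T)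
    (hm : 0 < m) (hwv : w - v = (m : ℝ) • u) (hu : u ∈ Lat n) (hu0 : u ≠ 0)
    (Q : Fin N → Finset (Fin n → ℝ)) (hQ : ∀ i, Q i ⊆ T)
    (us : Fin N → Fin n → ℝ) (husL : ∀ i, us i ∈ Lat n)
    (husV : ∀ i, us i ∈ vectorSpan ℝ (Q i : Set (Fin n → ℝ)))
    (hind : LinearIndependent ℝ (Fin.cons (w - v) us : Fin (N + 1) → (Fin n → ℝ)))
    (x : Fin N → ℝ)
    (hpar : ∀ i, ∀ s t : ℝ, 0 ≤ s → s ≤ 1 → 0 ≤ t → t ≤ 1 →
      v + (x i + s) • u + (t * N) • us i ∈ convexHull ℝ (Q i : Set (Fin n → ℝ)))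
    (hcen : ∀ i, v + (x i + 1 / 2) • u + ((N : ℝ) / 2) • us i ∈ KH N T v)
    (r : ℝ) (hr : 1 ≤ r) :
    ∃ q ∈ (r + 1) • convexHull ℝ (T : Set (Fin n → ℝ)), q ∈ (r + 1) • KH N T v ∧
      ∀ B, IsFace T B → v ∈ B → w ∈ B →
        (∃ I : Finset (Fin N), I.card = dim B - 1 ∧ ∀ i ∈ I, Q i ⊆ B) → q ∈ GF T r B := by
  classical
  have hm' : (0 : ℝ) < m := by exact_mod_cast hm
  obtain ⟨X, hX⟩ : ∃ X : ℝ, X = (∑ i, x i) / N := ⟨_, rfl⟩
  -- the big box
  have hbig : ∀ (s : ℝ) (t : Fin N → ℝ), 0 ≤ s → s ≤ 1 → (∀ i, 0 ≤ t i ∧ t i ≤ 1) →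
      v + (X + s) • u + ∑ i, t i • us i ∈ convexHull ℝ (T : Set (Fin n → ℝ)) := by
    intro s t hs hs1 ht
    rw [hX, ← ep_sum hN v u x s t us]
    refine ep_avg hN (convex_convexHull ℝ _) _ fun i => ?_
    exact convexHull_mono (Finset.coe_subset.mpr (hQ i)) (hpar i s (t i) hs hs1 (ht i).1 (ht i).2)
  have hvP : v ∈ convexHull ℝ (T : Set (Fin n → ℝ)) := subset_convexHull ℝ _ hv
  have hvK : v ∈ KH N T v := subset_convexHull ℝ _
    ⟨hvP, hT.lat v hv, 0, zero_mem _, by rw [sub_self, smul_zero]⟩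
  obtain ⟨q, hq⟩ : ∃ q : Fin n → ℝ, q = (r + 1) • v + (2 * X + 1) • u + ∑ i, us i := ⟨_, rfl⟩
  have hqK : q ∈ (r + 1) • KH N T v := by
    have hcen' : v + (X + 1 / 2) • u + ∑ i, (1 / 2 : ℝ) • us i ∈ KH N T v := by
      rw [hX, ← ep_sum hN v u x (1 / 2) (fun _ => 1 / 2) us]
      refine ep_avg hN (convex_convexHull ℝ _) _ fun i => ?_
      have h1 : (1 / 2 : ℝ) * N = (N : ℝ) / 2 := by ring
      rw [h1]
      exact hcen i
    have h2 := ep_scale (convex_convexHull ℝ _ : Convex ℝ (KH N T v)) (r - 1) 2 (by linarith)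
      (by norm_num) v _ hvK hcen'
    have h3 : r - 1 + 2 = r + 1 := by ring
    rw [h3] at h2
    have h4 : q = (r - 1) • v + (2 : ℝ) • (v + (X + 1 / 2) • u + ∑ i, (1 / 2 : ℝ) • us i) := by
      rw [hq, ← Finset.smul_sum]
      module
    rw [h4]
    exact h2
  refine ⟨q, Set.smul_set_mono (ep_subset T v) hqK, hqK, ?_⟩
  rintro B hB hvB hwB ⟨I, hIcard, hIQ⟩
  -- independence
  have hli0 : LinearIndependent ℝ (Fin.cons u us : Fin (N + 1) → (Fin n → ℝ)) := by
    rw [linearIndependent_finCons] at hind ⊢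
    refine ⟨hind.1, fun h => hind.2 ?_⟩
    rw [hwv]
    exact Submodule.smul_mem _ _ h
  let f : Option {i // i ∈ I} → (Fin n → ℝ) := fun o => o.elim u fun i => us i.1
  have hlif : LinearIndependent ℝ f := by
    let g : Option {i // i ∈ I} → Fin (N + 1) := fun o => o.elim 0 fun i => i.1.succ
    have hg : Function.Injective g := by
      intro a b hab
      cases a with
      | none =>
        cases b with
        | none => rfl
        | some b => exact absurd hab.symm (Fin.succ_ne_zero _)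
      | some a =>
        cases b with
        | none => exact absurd hab (Fin.succ_ne_zero _)
        | some b =>
          have h1 : a.1.succ = b.1.succ := hab
          have h2 := Fin.succ_injective _ h1
          rw [Subtype.ext h2]
    have h1 := hli0.comp g hg
    have h2 : (Fin.cons u us : Fin (N + 1) → (Fin n → ℝ)) ∘ g = f := by
      funext o
      cases o with
      | none => simp [g, f]
      | some o => simp [g, f]
    rw [← h2]
    exact h1
  -- the vectors are in the direction of the face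
  have hwv0 : w - v ≠ 0 := by
    rw [hwv]
    exact smul_ne_zero hm'.ne' hu0
  have hwvV : w - v ∈ vectorSpan ℝ (B : Set (Fin n → ℝ)) :=
    vsub_mem_vectorSpan ℝ (Finset.mem_coe.mpr hwB) (Finset.mem_coe.mpr hvB)
  have huV : u ∈ vectorSpan ℝ (B : Set (Fin n → ℝ)) := by
    have h1 : u = (m : ℝ)⁻¹ • (w - v) := by
      rw [hwv, smul_smul, inv_mul_cancel₀ hm'.ne', one_smul]
    rw [h1]
    exact Submodule.smul_mem _ _ hwvV
  have husVB : ∀ i ∈ I, us i ∈ vectorSpan ℝ (B : Set (Fin n → ℝ)) := fun i hi =>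
    vectorSpan_mono ℝ (Finset.coe_subset.mpr (hIQ i hi)) (husV i)
  have hdB : 0 < dim B := by
    rw [dim, Module.finrank_pos_iff_exists_ne_zero]
    exact ⟨⟨w - v, hwvV⟩, fun h => hwv0 (congrArg Subtype.val h)⟩
  have hcard : Module.finrank ℝ (vectorSpan ℝ (B : Set (Fin n → ℝ))) =
      Fintype.card (Option {i // i ∈ I}) := by
    rw [Fintype.card_option, Fintype.card_coe, hIcard]
    show dim B = dim B - 1 + 1
    omega
  have hsplit : ∀ (t : {i // i ∈ I} → ℝ) (c : ℝ),
      ∑ i, (if h : i ∈ I then t ⟨i, h⟩ else c) • us i =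
        ∑ i : {i // i ∈ I}, t i • us i.1 + c • ∑ i ∈ Iᶜ, us i := by
    intro t c
    rw [← Finset.sum_add_sum_compl I]
    congr 1
    · rw [← Finset.sum_coe_sort I]
      refine Finset.sum_congr rfl fun i _ => ?_
      rw [dif_pos i.2]
    · rw [Finset.smul_sum]
      refine Finset.sum_congr rfl fun i hi => ?_
      rw [dif_neg (Finset.mem_compl.mp hi)]
  have key := ep_box (convexHull ℝ (B : Set (Fin n → ℝ)))
    (convexHull ℝ (T : Set (Fin n → ℝ))) (vectorSpan ℝ (B : Set (Fin n → ℝ))) r f (by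
      intro o
      cases o with
      | none => exact hu
      | some o => exact husL _) (by
      intro o
      cases o with
      | none => exact huV
      | some o => exact husVB _ o.2) hlif hcard (v + X • u)
    (r • v + X • u + ∑ i ∈ Iᶜ, us i) (by
      intro t ht
      rw [Fintype.sum_option]
      show v + X • u + (t none • u + ∑ i : {i // i ∈ I}, t (some i) • us i.1) ∈ _
      have h1 := hbig (t none) (fun i => if h : i ∈ I then t (some ⟨i, h⟩) else 0)
        (ht none).1 (ht none).2 (by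
          intro i
          by_cases h : i ∈ I
          · simp only [dif_pos h]
            exact ht _
          · simp only [dif_neg h]
            norm_num)
      rw [hsplit (fun i => t (some i)) 0, zero_smul, add_zero] at h1
      have h2 : v + X • u + (t none • u + ∑ i : {i // i ∈ I}, t (some i) • us i.1) =
          v + (X + t none) • u + ∑ i : {i // i ∈ I}, t (some i) • us i.1 := by
        module
      rw [h2]
      refine hface n T B hB v hvB _ h1 ?_
      have h3 : v + (X + t none) • u + ∑ i : {i // i ∈ I}, t (some i) • us i.1 - v =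
          (X + t none) • u + ∑ i : {i // i ∈ I}, t (some i) • us i.1 := by
        module
      rw [h3]
      exact add_mem (Submodule.smul_mem _ _ huV)
        (Submodule.sum_mem _ fun i _ => Submodule.smul_mem _ _ (husVB _ i.2))) (by
      intro t ht
      rw [Fintype.sum_option]
      show r • v + X • u + ∑ i ∈ Iᶜ, us i +
        (t none • u + ∑ i : {i // i ∈ I}, t (some i) • us i.1) ∈ _
      have h1 := hbig (t none) (fun i => if h : i ∈ I then t (some ⟨i, h⟩) else 1)
        (ht none).1 (ht none).2 (by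
          intro i
          by_cases h : i ∈ I
          · simp only [dif_pos h]
            exact ht _
          · simp only [dif_neg h]
            norm_num)
      rw [hsplit (fun i => t (some i)) 1, one_smul] at h1
      have h2 := ep_scale (convex_convexHull ℝ _ :
        Convex ℝ (convexHull ℝ (T : Set (Fin n → ℝ)))) (r - 1) 1 (by linarith)
        (by norm_num) v _ hvP h1
      rw [sub_add_cancel] at h2
      have h3 : r • v + X • u + ∑ i ∈ Iᶜ, us i +
          (t none • u + ∑ i : {i // i ∈ I}, t (some i) • us i.1) =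
          (r - 1) • v + (1 : ℝ) • (v + (X + t none) • u +
            (∑ i : {i // i ∈ I}, t (some i) • us i.1 + ∑ i ∈ Iᶜ, us i)) := by
        module
      rw [h3]
      exact h2)
  have hfin : q = v + X • u + (r • v + X • u + ∑ i ∈ Iᶜ, us i) + ∑ i, f i := by
    rw [Fintype.sum_option]
    show q = v + X • u + (r • v + X • u + ∑ i ∈ Iᶜ, us i) +
      (u + ∑ i : {i // i ∈ I}, us i.1)
    rw [hq, ← Finset.sum_add_sum_compl I, ← Finset.sum_coe_sort I]
    module
  rw [hfin]
  exact key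

/-- The edge point. -/
theorem a_Edge (hpar : S_Par) (hadapt : S_Adapt2) (hface : S_FaceAff) (hprim : S_Prim) :
    S_Edge := by
  intro n l hl hn T hT hLE hdim v hv w hw hvw hcong C hC hvwC r hr
  have hdl : dim T - 1 = l := by omega
  have hwvL : w - v ∈ Lat n := sub_mem (hT.lat w hw) (hT.lat v hv)
  have hwv0 : w - v ≠ 0 := sub_ne_zero.mpr hvw.1.symm
  obtain ⟨u, hu, m, hm, hwv, huk⟩ := hprim n (w - v) hwvL hwv0
  have hm' : (0 : ℝ) < m := by exact_mod_cast hm
  have hu0 : u ≠ 0 := by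
    rintro rfl
    rw [smul_zero] at hwv
    exact hwv0 hwv
  obtain ⟨Q, hQ, hQC, hQi⟩ := hadapt n T hT v hv w hw hvw C hC hvwC
  have hP := fun i => hpar n l hl T hT hLE (Q i) (hQ i).1 (hQ i).2.1 v (hQ i).2.2.1 w
    (hQ i).2.2.2 hvw hcong u hu m hwv huk
  choose us husL husV hus0 x hx hbx hcen using hP
  have hspan : Submodule.span ℝ {w - v} = Submodule.span ℝ {u} := by
    rw [hwv]
    exact Submodule.span_singleton_smul_eq (IsUnit.mk0 _ hm'.ne') u
  have hind := hQi us husV (fun i => by rw [hspan]; exact hus0 i)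
  have hNl : ((dim T - 1 : ℕ) : ℝ) = l := by rw [hdl]
  obtain ⟨q, hq1, hq2, hq3⟩ := ep_main hface (N := dim T - 1) (by omega) T hT v w u hv hw hm
    hwv hu hu0 Q (fun i => (hQ i).1.1) us husL husV hind x
    (fun i s t hs hs1 ht ht1 => by rw [hNl]; exact hbx i s t hs hs1 ht ht1)
    (fun i => by rw [hNl, hdl]; exact hcen i) r hr
  rw [hdl] at hq2
  refine ⟨q, hq1, hq2, ?_, ?_⟩
  · refine hq3 T ⟨Finset.Subset.refl _, hT.ne, IsExtreme.refl ℝ _⟩ hv hw
      ⟨Finset.univ, by rw [Finset.card_univ, Fintype.card_fin], fun i _ => (hQ i).1.1⟩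
  · intro B hB
    exact hq3 B (hC.1 B hB) (hvwC B hB).1 (hvwC B hB).2 (hQC B hB)

end MP81308f
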