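import Pool.Agent.Lib.MP_81308f_co.Full.Spec

/-!
# MP_81308f_co : faces and affine hulls
-/

open scoped Pointwise BigOperators

namespace MP81308f

/-- Elements of the vector span as combinations with weight sum zero. -/
theorem exists_coeff_of_mem_vectorSpan {n : ℕ} (A : Finset (Fin n → ℝ)) (d : Fin n → ℝ)
    (hd : d ∈ vectorSpan ℝ (A : Set (Fin n → ℝ))) :
    ∃ c : (Fin n → ℝ) → ℝ, ∑ v ∈ A, c v = 0 ∧ ∑ v ∈ A, c v • v = d := by
  classical
  rw [vectorSpan_def] at hd
  induction hd using Submodule.span_induction with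
  | mem x hx =>
    obtain ⟨v, hv, w, hw, rfl⟩ := Set.mem_vsub.1 hx
    have hv' : v ∈ A := hv
    have hw' : w ∈ A := hw
    refine ⟨fun y => (if y = v then 1 else 0) - (if y = w then 1 else 0), ?_, ?_⟩
    · rw [Finset.sum_sub_distrib, Finset.sum_ite_eq', Finset.sum_ite_eq', if_pos hv', if_pos hw',
        sub_self]
    · simp only [sub_smul, ite_smul, one_smul, zero_smul]
      rw [Finset.sum_sub_distrib, Finset.sum_ite_eq', Finset.sum_ite_eq', if_pos hv', if_pos hw']
      rfl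
  | zero => exact ⟨fun _ => 0, by simp, by simp⟩
  | add x y _ _ hx hy =>
    obtain ⟨c, h1, h2⟩ := hx
    obtain ⟨c', h1', h2'⟩ := hy
    refine ⟨fun v => c v + c' v, ?_, ?_⟩
    · rw [Finset.sum_add_distrib, h1, h1', add_zero]
    · simp only [add_smul]
      rw [Finset.sum_add_distrib, h2, h2']
  | smul t x _ hx =>
    obtain ⟨c, h1, h2⟩ := hx
    refine ⟨fun v => t * c v, ?_, ?_⟩
    · rw [← Finset.mul_sum, h1, mul_zero]
    · simp only [mul_smul]
      rw [← Finset.smul_sum, h2]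

/-- (FaceAff) A face is the intersection of `P` with its affine hull. -/
theorem face_aff {n : ℕ} (T A : Finset (Fin n → ℝ)) (hA : IsFace T A) (a : Fin n → ℝ)
    (ha : a ∈ A) (x : Fin n → ℝ) (hx : x ∈ convexHull ℝ (T : Set (Fin n → ℝ)))
    (hxa : x - a ∈ vectorSpan ℝ (A : Set (Fin n → ℝ))) :
    x ∈ convexHull ℝ (A : Set (Fin n → ℝ)) := by
  classical
  have hcard : 0 < (A.card : ℝ) := by exact_mod_cast Finset.card_pos.2 ⟨a, ha⟩
  set m : Fin n → ℝ := ∑ v ∈ A, (A.card : ℝ)⁻¹ • v with hm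
  have hsum : ∑ _v ∈ A, (A.card : ℝ)⁻¹ = 1 := by
    rw [Finset.sum_const, nsmul_eq_mul, mul_inv_cancel₀ hcard.ne']
  have hma : m - a = ∑ v ∈ A, (A.card : ℝ)⁻¹ • (v - a) := by
    simp only [smul_sub]
    rw [Finset.sum_sub_distrib, ← Finset.sum_smul, hsum, one_smul]
  have hmv : m - a ∈ vectorSpan ℝ (A : Set (Fin n → ℝ)) := by
    rw [hma]
    exact Submodule.sum_mem _ fun v hv => Submodule.smul_mem _ _
      (vsub_mem_vectorSpan ℝ (Finset.mem_coe.2 hv) (Finset.mem_coe.2 ha))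
  have hd : m - x ∈ vectorSpan ℝ (A : Set (Fin n → ℝ)) := by
    have := Submodule.sub_mem _ hmv hxa
    rwa [sub_sub_sub_cancel_right] at this
  obtain ⟨c, hc0, hc⟩ := exists_coeff_of_mem_vectorSpan A _ hd
  -- a bound for the coefficients
  set M : ℝ := ∑ v ∈ A, |c v| + 1 with hM
  have hMpos : 0 < M := by
    have : 0 ≤ ∑ v ∈ A, |c v| := Finset.sum_nonneg fun v _ => abs_nonneg _
    linarith
  have hcM : ∀ v ∈ A, |c v| ≤ M := by
    intro v hv
    have := Finset.single_le_sum (f := fun v => |c v|) (fun v _ => abs_nonneg _) hv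
    linarith
  set ε : ℝ := (A.card : ℝ)⁻¹ / M with hε
  have hεpos : 0 < ε := by positivity
  have hεM : ε * M = (A.card : ℝ)⁻¹ := by rw [hε, div_mul_cancel₀ _ hMpos.ne']
  set p : Fin n → ℝ := m + ε • (m - x) with hp
  have hpA : p ∈ convexHull ℝ (A : Set (Fin n → ℝ)) := by
    have e : p = ∑ v ∈ A, ((A.card : ℝ)⁻¹ + ε * c v) • v := by
      simp only [add_smul, mul_smul]
      rw [Finset.sum_add_distrib, ← Finset.smul_sum (r := ε), hc]
    rw [e]
    refine (convex_convexHull ℝ _).sum_mem (fun v hv => ?_) ?_ (fun v hv => ?_)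
    · have h1 := hcM v hv
      have h2 : -M ≤ c v := by linarith [neg_abs_le (c v)]
      nlinarith
    · rw [Finset.sum_add_distrib, hsum, ← Finset.mul_sum, hc0, mul_zero, add_zero]
    · exact subset_convexHull ℝ _ (Finset.mem_coe.2 hv)
  have hmA : m ∈ convexHull ℝ (A : Set (Fin n → ℝ)) := by
    rw [hm]
    exact (convex_convexHull ℝ _).sum_mem (fun v _ => by positivity) hsum
      (fun v hv => subset_convexHull ℝ _ (Finset.mem_coe.2 hv))
  refine hA.2.2.2 hx (hA.2.2.1 hpA) hmA ?_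
  have h1 : 0 < 1 + ε := by linarith
  refine ⟨ε / (1 + ε), 1 / (1 + ε), by positivity, by positivity, ?_, ?_⟩
  · rw [← add_div, add_comm, div_self h1.ne']
  · rw [hp, smul_add, smul_smul, smul_sub, ← add_sub_assoc, ← add_smul]
    have h2 : 1 / (1 + ε) + 1 / (1 + ε) * ε = 1 := by field_simp
    have h3 : 1 / (1 + ε) * ε = ε / (1 + ε) := by ring
    rw [h2, h3, one_smul]
    abel

theorem a_FaceAff : S_FaceAff := fun _ T A hA a ha x hx hxa => face_aff T A hA a ha x hx hxa

/-- (DimLt) A proper face has smaller dimension. -/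
theorem a_DimLt : S_DimLt := by
  classical
  intro n T hT A B hA hB hAB hne
  by_contra hcon
  push Not at hcon
  obtain ⟨a, ha⟩ := hA.2.1
  have hle : vectorSpan ℝ (A : Set (Fin n → ℝ)) ≤ vectorSpan ℝ (B : Set (Fin n → ℝ)) :=
    vectorSpan_mono ℝ (Finset.coe_subset.2 hAB)
  have heq : vectorSpan ℝ (A : Set (Fin n → ℝ)) = vectorSpan ℝ (B : Set (Fin n → ℝ)) :=
    Submodule.eq_of_le_of_finrank_le hle hcon
  apply hne
  apply Finset.Subset.antisymm hAB
  intro b hb
  have hbT : b ∈ T := hB.1 hb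
  have hbA : b ∈ convexHull ℝ (A : Set (Fin n → ℝ)) := by
    refine face_aff T A hA a ha b (subset_convexHull ℝ _ hbT) ?_
    rw [heq]
    exact vsub_mem_vectorSpan ℝ (Finset.mem_coe.2 hb) (Finset.mem_coe.2 (hAB ha))
  have hbx : b ∈ (convexHull ℝ (A : Set (Fin n → ℝ))).extremePoints ℝ :=
    inter_extremePoints_subset_extremePoints_of_subset hA.2.2.1 ⟨hbA, hT.ext b hbT⟩
  exact Finset.mem_coe.1 (extremePoints_convexHull_subset hbx)

end MP81308f
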