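import Pool.Agent.Lib.MP_81308f_co.Full.Par2

/-!
# MP_81308f_co : the two-dimensional lemma `S_Par`
-/

open scoped Pointwise BigOperators

namespace MP81308f

/-- The two-dimensional lemma. -/
theorem a_Par (hPrim : S_Prim) (hCone : S_Cone2) : S_Par := by
  intro n l hl T hT hL A hA hd v hv w hw he hnc u hu m hwv hpu
  have hA' := hA.1
  have hvT := hA' hv
  have hwT := hA' hw
  have hl' : (2 : ℝ) ≤ l := by exact_mod_cast hl
  have hwvne : w - v ≠ 0 := sub_ne_zero.2 he.1.symm
  have hm0 : 0 < m := by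
    rcases Nat.eq_zero_or_pos m with h | h
    · exfalso
      apply hwvne
      rw [hwv, h]
      simp
    · exact h
  have hlm : l ≤ m := par_len (by omega) hL hvT hwT he hm0 hwv hpu
  have hm : l + 1 ≤ m := by
    rcases Nat.lt_or_ge l m with h | h
    · exact h
    · exfalso
      have : m = l := le_antisymm h hlm
      subst this
      exact hnc ⟨u, hu, hwv⟩
  have hmR : (l : ℝ) + 1 ≤ m := by exact_mod_cast hm
  have hmpos : (0 : ℝ) < m := by linarith
  obtain ⟨w', hw', he', hindw, hcone⟩ := hCone n T hT A hA hd v hv w hw he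
  have hwT' := hA' hw'
  have hwvne' : w' - v ≠ 0 := sub_ne_zero.2 he'.1.symm
  obtain ⟨u', hu', m', hm0', hwv', hpu'⟩ := hPrim n (w' - v)
    ((Lat n).sub_mem (hT.lat w' hwT') (hT.lat v hvT)) hwvne'
  have hlm' : l ≤ m' := par_len (by omega) hL hvT hwT' he' hm0' hwv' hpu'
  have hmR' : (l : ℝ) ≤ m' := by exact_mod_cast hlm'
  have hmpos' : (0 : ℝ) < m' := by exact_mod_cast hm0'
  have hwe : w = v + (m : ℝ) • u := by rw [← hwv]; abel
  have hwe' : w' = v + (m' : ℝ) • u' := by rw [← hwv']; abel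
  have hind : LinearIndependent ℝ ![u, u'] := by
    rw [LinearIndependent.pair_iff]
    intro s t hst
    have h := (LinearIndependent.pair_iff.1 hindw) (s / m) (t / m') (by
      rw [hwv, hwv', smul_smul, smul_smul, div_mul_cancel₀ _ hmpos.ne',
        div_mul_cancel₀ _ hmpos'.ne']
      exact hst)
    constructor
    · have := h.1
      rwa [div_eq_zero_iff, or_iff_left hmpos.ne'] at this
    · have := h.2
      rwa [div_eq_zero_iff, or_iff_left hmpos'.ne'] at this
  set K := convexHull ℝ (A : Set (Fin n → ℝ)) with hKdef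
  have hK : Convex ℝ K := convex_convexHull ℝ _
  have hvK : v ∈ K := subset_convexHull ℝ _ hv
  have hwK : v + (m : ℝ) • u ∈ K := by rw [← hwe]; exact subset_convexHull ℝ _ hw
  have hwK' : v + (m' : ℝ) • u' ∈ K := by rw [← hwe']; exact subset_convexHull ℝ _ hw'
  have hKT : K ⊆ convexHull ℝ (T : Set (Fin n → ℝ)) := convexHull_mono (by exact_mod_cast hA')
  have huA : u ∈ vectorSpan ℝ (A : Set (Fin n → ℝ)) := by
    have h1 : w - v ∈ vectorSpan ℝ (A : Set (Fin n → ℝ)) :=
      vsub_mem_vectorSpan ℝ (Finset.mem_coe.2 hw) (Finset.mem_coe.2 hv)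
    rw [hwv] at h1
    have := Submodule.smul_mem _ (m : ℝ)⁻¹ h1
    rwa [smul_smul, inv_mul_cancel₀ hmpos.ne', one_smul] at this
  have huA' : u' ∈ vectorSpan ℝ (A : Set (Fin n → ℝ)) := by
    have h1 : w' - v ∈ vectorSpan ℝ (A : Set (Fin n → ℝ)) :=
      vsub_mem_vectorSpan ℝ (Finset.mem_coe.2 hw') (Finset.mem_coe.2 hv)
    rw [hwv'] at h1
    have := Submodule.smul_mem _ (m' : ℝ)⁻¹ h1
    rwa [smul_smul, inv_mul_cancel₀ hmpos'.ne', one_smul] at this
  have hnsp : ∀ a a' : ℝ, a' ≠ 0 → a • u + a' • u' ∉ Submodule.span ℝ {u} := by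
    intro a a' ha' hmem
    obtain ⟨c, hc⟩ := Submodule.mem_span_singleton.1 hmem
    have h := (LinearIndependent.pair_iff.1 hind) (a - c) a' (by
      have : (a - c) • u + a' • u' = (a • u + a' • u') - c • u := by module
      rw [this, hc, sub_self])
    exact ha' h.2
  -- the points of `KH`
  have hKH0 : v ∈ KH l T v :=
    subset_convexHull ℝ _ ⟨hKT hvK, hT.lat v hvT, 0, (Lat n).zero_mem, by simp⟩
  have hKH1 : v + (l : ℝ) • u ∈ KH l T v :=
    par_KH (hT.lat v hvT) (hKT hvK) hu (by linarith) hmpos (hKT hwK)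
  have hKH2 : v + (l : ℝ) • u' ∈ KH l T v :=
    par_KH (hT.lat v hvT) (hKT hvK) hu' hmR' hmpos' (hKT hwK')
  have hKH : ∀ X Y : ℝ, 0 ≤ X → 0 ≤ Y → X + Y ≤ l → v + X • u + Y • u' ∈ KH l T v := by
    intro X Y hX hY hXY
    refine par_mem_triangle (convex_convexHull ℝ _) (by linarith) (by linarith) hKH0 hKH1 hKH2
      hX hY ?_
    rw [← add_div, div_le_one (by linarith)]
    exact hXY
  by_cases hcase : ∃ α α' : ℝ, α • u + α' • u' ∈ Lat n ∧
      ¬ ((∃ j : ℤ, α = j) ∧ ∃ j : ℤ, α' = j)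
  · obtain ⟨α, α', hg, hni⟩ := hcase
    obtain ⟨a, a', ha', haL, e, he0, -, hbox, X, Y, hX, hY, hXY, hc⟩ :=
      par_caseA l hl hu hu' hpu hpu' hmR hmR' hK hvK hwK hwK' hg hni
    refine ⟨a • u + a' • u', haL, Submodule.add_mem _ (Submodule.smul_mem _ _ huA)
      (Submodule.smul_mem _ _ huA'), hnsp a a' ha', e, he0, hbox, ?_⟩
    rw [hc]
    exact hKH X Y hX hY hXY
  · push Not at hcase
    have hB : ∀ α α' : ℝ, α • u + α' • u' ∈ Lat n → (∃ j : ℤ, α = j) ∧ ∃ j : ℤ, α' = j := by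
      intro α α' h
      exact hcase α α' h
    have hq := par_caseC hCone hl hT hL hA hd hv hw hw' he' hnc hm hlm' hwv hwv' hu hind
      hcone hB
    have hbox := par_caseB l (by omega) (by linarith) hmR' hK hvK hwK hwK' hq
    refine ⟨u', hu', huA', ?_, 0, le_rfl, hbox, ?_⟩
    · have := hnsp 0 1 one_ne_zero
      simpa using this
    · have := hKH (0 + 1 / 2) ((l : ℝ) / 2) (by norm_num) (by linarith) (by linarith)
      exact this

end MP81308f
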