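import Pool.Agent.Lib.MP_81308f_co.Full.Spec

/-!
# MP_81308f_co : primitive vectors
-/

namespace MP81308f

theorem prim_zsmul {n : ℕ} (k : ℤ) {u : Fin n → ℝ} (hu : u ∈ Lat n) : (k : ℝ) • u ∈ Lat n := by
  intro i
  obtain ⟨a, ha⟩ := hu i
  exact ⟨k * a, by simp [ha]⟩

theorem a_Prim : S_Prim := by
  intro n w hw h0
  classical
  obtain ⟨i, hi⟩ : ∃ i, w i ≠ 0 := by
    by_contra h
    push Not at h
    exact h0 (funext h)
  obtain ⟨a, ha⟩ := hw i
  have ha0 : (a : ℝ) ≠ 0 := ha ▸ hi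
  -- the subgroup of ℤ of those k with (k / a) • w ∈ Lat
  let H : AddSubgroup ℤ :=
    { carrier := {k | ((k : ℝ) / a) • w ∈ Lat n}
      zero_mem' := by simp [(Lat n).zero_mem]
      add_mem' := by
        intro x y hx hy
        have := (Lat n).add_mem hx hy
        have e : (((x + y : ℤ) : ℝ) / a) • w = ((x : ℝ) / a) • w + ((y : ℝ) / a) • w := by
          rw [← add_smul]; congr 1; push_cast; ring
        show (((x + y : ℤ) : ℝ) / a) • w ∈ Lat n
        rw [e]; exact this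
      neg_mem' := by
        intro x hx
        have := (Lat n).neg_mem hx
        have e : (((-x : ℤ) : ℝ) / a) • w = -(((x : ℝ) / a) • w) := by
          rw [← neg_smul]; congr 1; push_cast; ring
        show (((-x : ℤ) : ℝ) / a) • w ∈ Lat n
        rw [e]; exact this }
  obtain ⟨d, hd⟩ := Int.subgroup_cyclic H
  have hH : ∀ k : ℤ, ((k : ℝ) / a) • w ∈ Lat n ↔ ∃ z : ℤ, k = z * d := by
    intro k
    have : k ∈ H ↔ ∃ z : ℤ, k = z * d := by
      rw [hd, AddSubgroup.mem_closure_singleton]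
      constructor
      · rintro ⟨z, hz⟩; exact ⟨z, by rw [← hz]; simp⟩
      · rintro ⟨z, hz⟩; exact ⟨z, by rw [hz]; simp⟩
    exact this
  obtain ⟨z, hz⟩ := (hH a).1 (by rw [div_self ha0, one_smul]; exact hw)
  have hz' : (a : ℝ) = z * d := by exact_mod_cast hz
  have hd0 : (d : ℝ) ≠ 0 := by rintro h; rw [h, mul_zero] at hz'; exact ha0 hz'
  have hz0 : (z : ℝ) ≠ 0 := by rintro h; rw [h, zero_mul] at hz'; exact ha0 hz'
  set u0 : Fin n → ℝ := ((d : ℝ) / a) • w with hu0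
  have hu0L : u0 ∈ Lat n := (hH d).2 ⟨1, by simp⟩
  have hwu : w = (z : ℝ) • u0 := by
    rw [hu0, smul_smul, hz']
    rw [show (z : ℝ) * (d / (z * d)) = 1 by field_simp, one_smul]
  have hprim : ∀ t : ℝ, t • u0 ∈ Lat n → ∃ k : ℤ, t = k := by
    intro t ht
    obtain ⟨k, hk⟩ := ht i
    have hk' : t * d = k := by
      rw [← hk, hu0]
      simp only [Pi.smul_apply, smul_eq_mul, ha]
      field_simp
    have : ((k : ℝ) / a) • w = t • u0 := by
      rw [hu0, smul_smul, ← hk', mul_div_assoc]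
    obtain ⟨z', hz'⟩ := (hH k).1 (this ▸ ht)
    refine ⟨z', ?_⟩
    have : t * d = z' * d := by rw [hk', hz']; push_cast; ring
    exact mul_right_cancel₀ hd0 this
  have hzne : z ≠ 0 := by rintro h; exact hz0 (by rw [h]; simp)
  rcases lt_or_gt_of_ne hzne with hneg | hpos
  · refine ⟨-u0, (Lat n).neg_mem hu0L, (-z).toNat, by omega, ?_, ?_⟩
    · have e : (((-z).toNat : ℕ) : ℝ) = -(z : ℝ) := by
        have : (((-z).toNat : ℕ) : ℤ) = -z := Int.toNat_of_nonneg (by omega)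
        have h2 : ((((-z).toNat : ℕ) : ℤ) : ℝ) = ((-z : ℤ) : ℝ) := by rw [this]
        push_cast at h2; exact h2
      rw [e, smul_neg, neg_smul, neg_neg]; exact hwu
    · intro t ht
      obtain ⟨k, hk⟩ := hprim (-t) (by rw [neg_smul, ← smul_neg]; exact ht)
      exact ⟨-k, by push_cast; linarith⟩
  · refine ⟨u0, hu0L, z.toNat, by omega, ?_, hprim⟩
    have e : ((z.toNat : ℕ) : ℝ) = (z : ℝ) := by
      have : ((z.toNat : ℕ) : ℤ) = z := Int.toNat_of_nonneg (by omega)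
      have h2 : (((z.toNat : ℕ) : ℤ) : ℝ) = ((z : ℤ) : ℝ) := by rw [this]
      push_cast at h2; exact h2
    rw [e]; exact hwu

/-- An edge vector `w = m u` (`u` primitive) of a long edge has `m ≥ l`. -/
theorem prim_len {n l : ℕ} (hl : 1 ≤ l) (w u : Fin n → ℝ) (m : ℕ) (hm : 1 ≤ m)
    (hu : ∀ t : ℝ, t • u ∈ Lat n → ∃ k : ℤ, t = k)
    (hwu : w = (m : ℝ) • u) (hlong : ∃ k : ℝ, (l : ℝ) ≤ k ∧ ∃ x ∈ Lat n, w = k • x) : l ≤ m := by
  obtain ⟨k, hk, x, hx, hwx⟩ := hlong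
  have hk0 : (0 : ℝ) < k := lt_of_lt_of_le (by exact_mod_cast hl) hk
  have hxu : x = ((m : ℝ) / k) • u := by
    rw [div_eq_inv_mul, ← smul_smul, ← hwu, hwx, smul_smul, inv_mul_cancel₀ hk0.ne', one_smul]
  obtain ⟨j, hj⟩ := hu _ (hxu ▸ hx)
  have hmpos : (0 : ℝ) < m := by exact_mod_cast hm
  have hjpos : (0 : ℝ) < (j : ℝ) := by rw [← hj]; positivity
  have hj1 : (1 : ℝ) ≤ j := by exact_mod_cast (by exact_mod_cast hjpos : (0 : ℤ) < j)
  have : (m : ℝ) = j * k := by rw [← hj]; field_simp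
  have : (l : ℝ) ≤ m := by rw [this]; nlinarith
  exact_mod_cast this

/-- If moreover the end points are not congruent mod `l`, then `m ≥ l + 1`. -/
theorem prim_len_succ {n l : ℕ} (hl : 1 ≤ l) (v w u : Fin n → ℝ) (m : ℕ) (hm : 1 ≤ m)
    (huL : u ∈ Lat n) (hu : ∀ t : ℝ, t • u ∈ Lat n → ∃ k : ℤ, t = k)
    (hwu : w - v = (m : ℝ) • u) (hlong : ∃ k : ℝ, (l : ℝ) ≤ k ∧ ∃ x ∈ Lat n, w - v = k • x)
    (hc : ¬ Cong n l v w) : l + 1 ≤ m ∧ ¬ l ∣ m := by
  have h1 := prim_len hl (w - v) u m hm hu hwu hlong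
  have h2 : ¬ l ∣ m := by
    rintro ⟨q, hq⟩
    refine hc ⟨(q : ℝ) • u, by simpa using prim_zsmul (q : ℤ) huL, ?_⟩
    rw [hwu, hq, smul_smul]
    push_cast; ring_nf
  refine ⟨?_, h2⟩
  rcases h1.lt_or_eq with h | h
  · omega
  · exact absurd (h ▸ dvd_refl l) h2

/-- The index lemma: either all lattice vectors of the plane of `u, u'` are integral
combinations, or there is one of height in `(0, 1/2]` with `-1 < x ≤ 0`. -/
theorem prim_plane {n : ℕ} (u u' : Fin n → ℝ) (huL : u ∈ Lat n)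
    (hu : ∀ t : ℝ, t • u ∈ Lat n → ∃ k : ℤ, t = k) (hu' : u' ∈ Lat n) :
    (∀ a b : ℝ, a • u + b • u' ∈ Lat n → (∃ k : ℤ, a = k) ∧ ∃ k : ℤ, b = k) ∨
      ∃ x y : ℝ, -1 < x ∧ x ≤ 0 ∧ 0 < y ∧ y ≤ 1 / 2 ∧ x • u + y • u' ∈ Lat n := by
  by_cases H : ∀ a b : ℝ, a • u + b • u' ∈ Lat n → (∃ k : ℤ, a = k) ∧ ∃ k : ℤ, b = k
  · exact Or.inl H
  right
  push Not at H
  obtain ⟨a, b, hab, h⟩ := H
  -- b is not an integer
  have hb : ∀ k : ℤ, b ≠ k := by
    intro k hk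
    have h1 : a • u ∈ Lat n := by
      have := (Lat n).sub_mem hab (prim_zsmul k hu')
      rwa [hk, add_sub_cancel_right] at this
    obtain ⟨j, hj⟩ := hu a h1
    exact h ⟨j, hj⟩ k hk
  -- reduce b
  have hfr : 0 < Int.fract b := by
    rcases (Int.fract_nonneg b).lt_or_eq with h | h
    · exact h
    · exact absurd (by have := Int.floor_add_fract b; linarith) (hb ⌊b⌋)
  have key : ∃ a' b' : ℝ, 0 < b' ∧ b' ≤ 1 / 2 ∧ a' • u + b' • u' ∈ Lat n := by
    rcases le_total (Int.fract b) (1 / 2) with h2 | h2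
    · refine ⟨a, Int.fract b, hfr, h2, ?_⟩
      have := (Lat n).sub_mem hab (prim_zsmul ⌊b⌋ hu')
      have e : a • u + Int.fract b • u' = a • u + b • u' - ((⌊b⌋ : ℤ) : ℝ) • u' := by
        rw [Int.fract, sub_smul]; abel
      rw [e]; exact this
    · refine ⟨-a, 1 - Int.fract b, by linarith [Int.fract_lt_one b], by linarith, ?_⟩
      have := (Lat n).sub_mem (prim_zsmul (⌊b⌋ + 1) hu') hab
      have e : (-a) • u + (1 - Int.fract b) • u' = ((⌊b⌋ + 1 : ℤ) : ℝ) • u' - (a • u + b • u') := by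
        rw [Int.fract]; push_cast; module
      rw [e]; exact this
  obtain ⟨a', b', hb0, hb2, hab'⟩ := key
  refine ⟨-Int.fract (-a'), b', by linarith [Int.fract_lt_one (-a')],
    by linarith [Int.fract_nonneg (-a')], hb0, hb2, ?_⟩
  have := (Lat n).add_mem hab' (prim_zsmul ⌊-a'⌋ huL)
  have e : (-Int.fract (-a')) • u + b' • u' = a' • u + b' • u' + ((⌊-a'⌋ : ℤ) : ℝ) • u := by
    rw [Int.fract]; module
  rw [e]; exact this

end MP81308f
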