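import Pool.Agent.Lib.MP_81308f_co.Full.Spec
import Pool.Agent.Lib.MP_81308f_co.Full.Box

/-!
# MP_81308f_co : the case distinction (5) of note 1822
-/

open scoped Pointwise BigOperators

namespace MP81308f

private lemma RC_refl {n : ℕ} (l : ℕ) (v : Fin n → ℝ) : Cong n l v v :=
  ⟨0, (Lat n).zero_mem, by simp⟩

private lemma RC_symm {n l : ℕ} {v w : Fin n → ℝ} (h : Cong n l v w) : Cong n l w v := by
  obtain ⟨u, hu, h1⟩ := h
  exact ⟨-u, (Lat n).neg_mem hu, by rw [smul_neg, ← h1]; abel⟩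

private lemma RC_trans {n l : ℕ} {v w x : Fin n → ℝ} (h : Cong n l v w) (h' : Cong n l w x) :
    Cong n l v x := by
  obtain ⟨u, hu, h1⟩ := h
  obtain ⟨u', hu', h2⟩ := h'
  refine ⟨u + u', (Lat n).add_mem hu hu', ?_⟩
  rw [smul_add, ← h1, ← h2]
  abel

private lemma RC_cl {n l : ℕ} {v w : Fin n → ℝ} :
    ({x | Cong n l v x} : Set (Fin n → ℝ)) = {x | Cong n l w x} ↔ Cong n l v w := by
  constructor
  · intro h
    have h1 : w ∈ ({x | Cong n l w x} : Set (Fin n → ℝ)) := RC_refl l w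
    rw [← h] at h1
    exact h1
  · intro h
    ext x
    exact ⟨fun hx => RC_trans (RC_symm h) hx, fun hx => RC_trans h hx⟩

private lemma RC_min {n : ℕ} {T : Finset (Fin n → ℝ)} {C : Finset (Finset (Fin n → ℝ))}
    (hC : IsChainF T C) (hne : C.Nonempty) : ∃ A ∈ C, ∀ B ∈ C, A ⊆ B := by
  obtain ⟨A, hA, hmin⟩ := C.exists_min_image (fun B => B.card) hne
  refine ⟨A, hA, fun B hB => ?_⟩
  rcases hC.2 A hA B hB with h | h
  · exact h
  · rw [Finset.eq_of_subset_of_card_le h (hmin B hB)]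

private lemma RC_max {n : ℕ} {T : Finset (Fin n → ℝ)} {C : Finset (Finset (Fin n → ℝ))}
    (hC : IsChainF T C) (hne : C.Nonempty) : ∃ A ∈ C, ∀ B ∈ C, B ⊆ A := by
  obtain ⟨A, hA, hmax⟩ := C.exists_max_image (fun B => B.card) hne
  refine ⟨A, hA, fun B hB => ?_⟩
  rcases hC.2 A hA B hB with h | h
  · rw [Finset.eq_of_subset_of_card_le h (hmax B hB)]
  · exact h

private lemma RC_faceT {n : ℕ} {T : Finset (Fin n → ℝ)} (hV : VPoly T) : IsFace T T :=
  ⟨Finset.Subset.refl _, hV.ne, IsExtreme.rfl⟩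

/-- the smallest member of a chain (or `T`) -/
private lemma RC_bot {n : ℕ} {T : Finset (Fin n → ℝ)} (hV : VPoly T)
    {C : Finset (Finset (Fin n → ℝ))} (hC : IsChainF T C) {p : Finset (Fin n → ℝ) → Prop}
    (hT : p T) (hp : ∀ B ∈ C, p B) : ∃ A, IsFace T A ∧ p A ∧ ∀ B ∈ C, A ⊆ B := by
  by_cases hne : C.Nonempty
  · obtain ⟨A, hA, hmin⟩ := RC_min hC hne
    exact ⟨A, hC.1 A hA, hp A hA, hmin⟩
  · rw [Finset.not_nonempty_iff_eq_empty] at hne
    refine ⟨T, RC_faceT hV, hT, fun B hB => ?_⟩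
    rw [hne] at hB
    exact absurd hB (Finset.notMem_empty B)

theorem a_RealCov (hCov : S_Cover) (hStar : S_Star) (hEdge : S_Edge) (hConn : S_Conn)
    (hGG : S_GGconvex) (hDim : S_DimLt) : S_RealCov := by
  intro n l hl hn T hV hLong hdT r hr c hc
  by_cases hpure : ∀ v ∈ T, ∀ w ∈ T,
      ({x | Cong n l v x} : Set (Fin n → ℝ)) = {x | Cong n l w x}
  · right
    obtain ⟨v, hv⟩ := hV.ne
    refine ⟨v, hv, ?_⟩
    have hsub : convexHull ℝ (T : Set (Fin n → ℝ)) ⊆ KH l T v := by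
      refine convexHull_mono fun x hx => ?_
      exact ⟨subset_convexHull ℝ _ hx, hV.lat x hx, RC_cl.mp (hpure v hv x hx)⟩
    exact Set.smul_set_mono hsub hc
  -- a proper face has dimension at most `l`
  have hdim : ∀ A, IsFace T A → A ≠ T → dim A ≤ l := by
    intro A hA hne
    have := hDim n T hV A T hA (RC_faceT hV) hA.1 hne
    omega
  have hvK : ∀ v ∈ T, v ∈ KH l T v := by
    intro v hv
    exact subset_convexHull ℝ _ ⟨subset_convexHull ℝ _ hv, hV.lat v hv, RC_refl l v⟩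
  -- the edge point
  have hedge : ∀ C, IsChainF T C → ∀ A, IsFace T A → (∀ B ∈ C, A ⊆ B) → ∀ v : Fin n → ℝ,
      (∃ a ∈ A, Cong n l v a) → (∃ w ∈ A, ¬ Cong n l v w) →
      ∃ q ∈ (r + 1) • convexHull ℝ (T : Set (Fin n → ℝ)), q ∈ GF T r T ∧
        q ∈ (r + 1) • convexHull ℝ {x | x ∈ convexHull ℝ (T : Set (Fin n → ℝ)) ∧ x ∈ Lat n ∧
          x ∈ ({x | Cong n l v x} : Set (Fin n → ℝ))} ∧ ∀ B ∈ C, q ∈ GF T r B := by
    intro C hC A hA hAB v hva hvw
    obtain ⟨a, ha, b, hb, haS, hbS, hab⟩ := hConn n T hV A hA {x | Cong n l v x} hva hvw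
    have hnot : ¬ Cong n l a b := fun h => hbS (RC_trans haS h)
    obtain ⟨q, hq1, hq2, hq3, hq4⟩ := hEdge n l hl hn T hV hLong hdT a (hA.1 ha) b (hA.1 hb) hab
      hnot C hC (fun B hB => ⟨hAB B hB ha, hAB B hB hb⟩) r hr
    refine ⟨q, hq1, hq3, ?_, hq4⟩
    have hcl : ({x | Cong n l v x} : Set (Fin n → ℝ)) = {x | Cong n l a x} := RC_cl.mpr haS
    rw [hcl]
    exact hq2
  have key := hCov n T hV (r + 1) (by linarith) (GF T r)
    (fun A _ => hGG n _ _ _ r (convex_convexHull ℝ _) (convex_convexHull ℝ _))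
    (Set (Fin n → ℝ)) (fun v => {x | Cong n l v x})
    (fun k => (r + 1) • convexHull ℝ {x | x ∈ convexHull ℝ (T : Set (Fin n → ℝ)) ∧ x ∈ Lat n ∧
      x ∈ k})
    (fun k => (convex_convexHull ℝ _).smul _) hpure ?_ ?_ ?_ ?_ hc
  · rcases key with h | h
    · left
      simp only [Set.mem_iUnion, Set.mem_setOf_eq] at h
      obtain ⟨A, hA, hcA⟩ := h
      exact ⟨A, hA, hcA⟩
    · right
      simp only [Set.mem_iUnion] at h
      obtain ⟨v, hv, hcv⟩ := h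
      exact ⟨v, hv, hcv⟩
  · -- (H1)
    intro C hC hTC A hA hmax
    have hAT : A ≠ T := fun h => hTC (h ▸ hA)
    obtain ⟨A₀, hA₀, hmin⟩ := RC_min hC ⟨A, hA⟩
    obtain ⟨v, hv⟩ := (hC.1 A₀ hA₀).2.1
    obtain ⟨q, hq1, _, hq3⟩ := hStar n l (by omega) T hV hLong C hC A (hC.1 A hA)
      (hdim A (hC.1 A hA) hAT) hmax v (hmin A hA hv) (fun B hB => hmin B hB hv) r hr
    exact ⟨q, hq1, hq3⟩
  · -- (H2)
    intro C hC hTC v hv hvB
    by_cases hne : C.Nonempty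
    · obtain ⟨A, hA, hmax⟩ := RC_max hC hne
      have hAT : A ≠ T := fun h => hTC (h ▸ hA)
      obtain ⟨q, hq1, hq2, hq3⟩ := hStar n l (by omega) T hV hLong C hC A (hC.1 A hA)
        (hdim A (hC.1 A hA) hAT) hmax v (hvB A hA) hvB r hr
      refine ⟨q, ?_, hq2, hq3⟩
      exact Set.smul_set_mono (convexHull_mono (by exact_mod_cast (hC.1 A hA).1)) hq1
    · rw [Finset.not_nonempty_iff_eq_empty] at hne
      refine ⟨(r + 1) • v, Set.smul_mem_smul_set (subset_convexHull ℝ _ hv),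
        Set.smul_mem_smul_set (hvK v hv), fun B hB => ?_⟩
      rw [hne] at hB
      exact absurd hB (Finset.notMem_empty B)
  · -- (H3)
    intro C hC hTC hnp
    obtain ⟨A, hA, hAnp, hAB⟩ := RC_bot hV hC
      (p := fun B => ¬ ∀ v ∈ B, ∀ w ∈ B,
        ({x | Cong n l v x} : Set (Fin n → ℝ)) = {x | Cong n l w x}) hpure hnp
    push_neg at hAnp
    obtain ⟨v, hv, w, hw, hvw⟩ := hAnp
    obtain ⟨q, hq1, hq2, _, hq4⟩ := hedge C hC A hA hAB v ⟨v, hv, RC_refl l v⟩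
      ⟨w, hw, fun h => hvw (RC_cl.mpr h)⟩
    exact ⟨q, hq1, hq2, hq4⟩
  · -- (H4)
    intro C hC hTC hnp v hv hvB
    obtain ⟨A, hA, ⟨hAnp, hvA⟩, hAB⟩ := RC_bot hV hC
      (p := fun B => (¬ ∀ v ∈ B, ∀ w ∈ B,
        ({x | Cong n l v x} : Set (Fin n → ℝ)) = {x | Cong n l w x}) ∧ v ∈ B) ⟨hpure, hv⟩
      (fun B hB => ⟨hnp B hB, hvB B hB⟩)
    refine hedge C hC A hA hAB v ⟨v, hvA, RC_refl l v⟩ ?_
    by_contra hcon
    push_neg at hcon
    exact hAnp fun x hx y hy => RC_cl.mpr (RC_trans (RC_symm (hcon x hx)) (hcon y hy))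

end MP81308f
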