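import Pool.Agent.Lib.MP_81308f_co.Full.Spec
import Pool.Agent.Lib.MP_81308f_co.Full.StarAux

open scoped Pointwise BigOperators

namespace MP81308f

theorem smul_add_mem {n : ℕ} {K : Set (Fin n → ℝ)} (hK : Convex ℝ K) {r : ℝ} (hr : 0 ≤ r)
    {v x : Fin n → ℝ} (hv : v ∈ K) (hx : x ∈ K) : r • v + x ∈ (r + 1) • K := by
  rw [hK.add_smul hr zero_le_one, one_smul]
  exact Set.add_mem_add (Set.smul_mem_smul_set hv) hx

/-- A point of `GG` from a single box (centred form). -/
theorem star_GG_of_box {n d : ℕ} (Γ P : Set (Fin n → ℝ)) (U : Submodule ℝ (Fin n → ℝ)) (r : ℝ)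
    (hd : Module.finrank ℝ U = d) (B : Fin d → Fin n → ℝ) (hL : ∀ i, B i ∈ Lat n)
    (hU : ∀ i, B i ∈ U) (hli : LinearIndependent ℝ B) (y1 y2 : Fin n → ℝ)
    (h1 : ∀ t : Fin d → ℝ, (∀ i, |t i| ≤ 1 / 2) → y1 + ∑ i, t i • B i ∈ Γ)
    (h2 : ∀ t : Fin d → ℝ, (∀ i, |t i| ≤ 1 / 2) → y2 + ∑ i, t i • B i ∈ r • P) :
    y1 + y2 ∈ GG Γ P U r := by
  exact GG_of_box Γ P U r hd B hL hU hli y1 y2 h1 h2

/-- The star point of a chain of proper faces at a common vertex. -/
theorem star_point {n : ℕ} (T : Finset (Fin n → ℝ)) (l : ℝ) (hl : 0 < l) (hLE : LongEdges l T)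
    (r : ℝ) (hr : 1 ≤ r) (v : Fin n → ℝ) (hv : v ∈ T)
    (hvx : v ∈ (convexHull ℝ (T : Set (Fin n → ℝ))).extremePoints ℝ)
    (C : Finset (Finset (Fin n → ℝ))) (hC : ∀ A ∈ C, IsFace T A)
    (hch : ∀ A ∈ C, ∀ A' ∈ C, A ⊆ A' ∨ A' ⊆ A) (hvC : ∀ A ∈ C, v ∈ A)
    (hdim : ∀ A ∈ C, (dim A : ℝ) ≤ l) :
    ∃ q : Fin n → ℝ,
      (∀ A ∈ C, q ∈ GG (convexHull ℝ (A : Set (Fin n → ℝ))) (convexHull ℝ (T : Set (Fin n → ℝ)))
        (vectorSpan ℝ (A : Set (Fin n → ℝ))) r) ∧
      (∀ A : Finset (Fin n → ℝ), v ∈ A → (∀ A' ∈ C, A' ⊆ A) →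
        q ∈ (r + 1) • convexHull ℝ (A : Set (Fin n → ℝ))) ∧
      (∀ K : Set (Fin n → ℝ), Convex ℝ K →
        (∀ u ∈ Lat n, v + l • u ∈ convexHull ℝ (T : Set (Fin n → ℝ)) → v + l • u ∈ K) →
        q ∈ (r + 1) • K) := by
  classical
  obtain ⟨B, hBe, hBli, hBcard, hBsub⟩ := adapted T v hvx C.card C rfl hC hch hvC
  -- the primitive vectors
  have hex : ∀ b : Fin n → ℝ, ∃ k : ℝ, ∃ u : Fin n → ℝ, b ∈ B →
      l ≤ k ∧ u ∈ Lat n ∧ b - v = k • u := by
    intro b
    by_cases hb : b ∈ B
    · obtain ⟨k, hk, u, hu, hbu⟩ := hLE v hv b (hBe b hb).1 (hBe b hb).2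
      exact ⟨k, u, fun _ => ⟨hk, hu, hbu⟩⟩
    · exact ⟨0, 0, fun h => absurd h hb⟩
  choose k u hku using hex
  have hu : ∀ b ∈ B, l ≤ k b ∧ b - v = k b • u b := fun b hb => ⟨(hku b hb).1, (hku b hb).2.2⟩
  have huL : ∀ b ∈ B, u b ∈ Lat n := fun b hb => (hku b hb).2.1
  -- the number of edges
  have hBl : (B.card : ℝ) ≤ l := by
    rcases C.eq_empty_or_nonempty with hCe | hne
    · have hB0 : B = ∅ := by
        apply Finset.subset_empty.1
        apply hBsub ∅
        intro A' hA'
        rw [hCe] at hA'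
        exact absurd hA' (Finset.notMem_empty _)
      rw [hB0, Finset.card_empty, Nat.cast_zero]
      exact hl.le
    · obtain ⟨M, hM, hmax⟩ := C.exists_max_image Finset.card hne
      have hMtop : ∀ A ∈ C, A ⊆ M := by
        intro A hA
        rcases hch A hA M hM with h | h
        · exact h
        · exact (Finset.eq_of_subset_of_card_le h (hmax A hA)).symm.subset
      have h1 := hBcard M hM
      rw [Finset.inter_eq_left.2 (hBsub M hMtop)] at h1
      rw [h1]
      exact hdim M hM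
  have hPconv := convex_convexHull ℝ (T : Set (Fin n → ℝ))
  have hvP : v ∈ convexHull ℝ (T : Set (Fin n → ℝ)) := subset_convexHull ℝ _ (by exact_mod_cast hv)
  have hBT : B ⊆ T := fun b hb => (hBe b hb).1
  have hlik : ∀ b ∈ B, 0 < k b := fun b hb => lt_of_lt_of_le hl (hu b hb).1
  refine ⟨r • v + (v + ∑ b ∈ B, u b), ?_, ?_, ?_⟩
  · intro A hA
    have hcard := hBcard A hA
    let e := (B ∩ A).equivFinOfCardEq hcard
    have hfr : Module.finrank ℝ (vectorSpan ℝ (A : Set (Fin n → ℝ))) = dim A := rfl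
    -- sums over `Fin (dim A)`
    have hsum : ∀ t : Fin (dim A) → ℝ, ∃ t' : (Fin n → ℝ) → ℝ,
        (∀ b ∈ B ∩ A, ∃ i, t' b = t i) ∧
        ∑ i, t i • u ((e.symm i : (B ∩ A : Finset (Fin n → ℝ))) : Fin n → ℝ)
          = ∑ b ∈ B ∩ A, t' b • u b := by
      intro t
      refine ⟨fun b => if h : b ∈ B ∩ A then t (e ⟨b, h⟩) else 0, ?_, ?_⟩
      · intro b hb
        exact ⟨e ⟨b, hb⟩, by simp only [dif_pos hb]⟩
      · rw [← Finset.sum_coe_sort (B ∩ A)
          (fun b => (if h : b ∈ B ∩ A then t (e ⟨b, h⟩) else 0) • u b)]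
        rw [← e.symm.sum_comp]
        refine Finset.sum_congr rfl fun i _ => ?_
        rw [dif_pos (e.symm i).2]
        simp
    have hsplit : ∑ b ∈ B, u b = ∑ b ∈ B \ A, u b + ∑ b ∈ B ∩ A, u b := by
      rw [← Finset.sum_sdiff (Finset.inter_subset_left : B ∩ A ⊆ B)]
      congr 2
      ext x
      simp only [Finset.mem_sdiff, Finset.mem_inter, not_and]
      constructor
      · rintro ⟨h1, h2⟩; exact ⟨h1, h2 h1⟩
      · rintro ⟨h1, h2⟩; exact ⟨h1, fun _ => h2⟩
    have hkey := star_GG_of_box (convexHull ℝ (A : Set (Fin n → ℝ))) (convexHull ℝ (T : Set (Fin n → ℝ)))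
      (vectorSpan ℝ (A : Set (Fin n → ℝ))) r hfr
      (fun i => u ((e.symm i : (B ∩ A : Finset (Fin n → ℝ))) : Fin n → ℝ)) ?_ ?_ ?_
      (v + (1 / 2 : ℝ) • ∑ b ∈ B ∩ A, u b)
      (r • v + (1 / 2 : ℝ) • ∑ b ∈ B ∩ A, u b + ∑ b ∈ B \ A, u b) ?_ ?_
    · have he : (v + (1 / 2 : ℝ) • ∑ b ∈ B ∩ A, u b) +
          (r • v + (1 / 2 : ℝ) • ∑ b ∈ B ∩ A, u b + ∑ b ∈ B \ A, u b) =
          r • v + (v + ∑ b ∈ B, u b) := by
        rw [hsplit]
        module
      rw [he] at hkey
      exact hkey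
    · intro i
      exact huL _ (Finset.mem_inter.1 (e.symm i).2).1
    · intro i
      obtain ⟨h1, h2⟩ := Finset.mem_inter.1 (e.symm i).2
      have h3 := (hu _ h1).2
      have h4 := (hlik _ h1).ne'
      have h5 : u ((e.symm i : (B ∩ A : Finset (Fin n → ℝ))) : Fin n → ℝ) =
          (k ((e.symm i : (B ∩ A : Finset (Fin n → ℝ))) : Fin n → ℝ))⁻¹ •
            (((e.symm i : (B ∩ A : Finset (Fin n → ℝ))) : Fin n → ℝ) - v) := by
        rw [h3, smul_smul, inv_mul_cancel₀ h4, one_smul]
      rw [h5]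
      exact Submodule.smul_mem _ _ (vsub_mem_vectorSpan ℝ (by exact_mod_cast h2)
        (by exact_mod_cast hvC A hA))
    · -- independence
      have h1 : LinearIndependent ℝ (fun x : (B : Set (Fin n → ℝ)) => (x : Fin n → ℝ) - v) := hBli
      have h2 : LinearIndependent ℝ (fun i : Fin (dim A) =>
          ((e.symm i : (B ∩ A : Finset (Fin n → ℝ))) : Fin n → ℝ) - v) := by
        have h3 := h1.comp (fun i : Fin (dim A) => (⟨((e.symm i : (B ∩ A : Finset (Fin n → ℝ))) :
          Fin n → ℝ), by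
            have := (Finset.mem_inter.1 (e.symm i).2).1
            exact_mod_cast this⟩ : (B : Set (Fin n → ℝ)))) (by
              intro i j hij
              have h4 := congrArg Subtype.val hij
              simp only at h4
              exact e.symm.injective (Subtype.ext h4))
        exact h3
      have h3 : (fun i : Fin (dim A) => u ((e.symm i : (B ∩ A : Finset (Fin n → ℝ))) :
          Fin n → ℝ)) = (fun i => (Units.mk0 (k ((e.symm i : (B ∩ A : Finset (Fin n → ℝ))) :
            Fin n → ℝ)) (hlik _ (Finset.mem_inter.1 (e.symm i).2).1).ne')⁻¹) •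
          (fun i : Fin (dim A) =>
          ((e.symm i : (B ∩ A : Finset (Fin n → ℝ))) : Fin n → ℝ) - v) := by
        funext i
        have h5 := (hu _ (Finset.mem_inter.1 (e.symm i).2).1).2
        have h6 := (hlik _ (Finset.mem_inter.1 (e.symm i).2).1).ne'
        simp only [Pi.smul_apply']
        rw [h5, Units.smul_def, Units.val_inv_eq_inv_val, Units.val_mk0, smul_smul,
          inv_mul_cancel₀ h6, one_smul]
      rw [h3]
      exact h2.units_smul _
    · intro t ht
      obtain ⟨t', ht', hs⟩ := hsum t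
      rw [hs, Finset.smul_sum, add_assoc, ← Finset.sum_add_distrib]
      have h1 : ∑ b ∈ B ∩ A, ((1 / 2 : ℝ) • u b + t' b • u b) =
          ∑ b ∈ B ∩ A, (1 / 2 + t' b) • u b :=
        Finset.sum_congr rfl fun b _ => by rw [add_smul]
      rw [h1]
      refine box_mem (hvC A hA) hl (B ∩ A) Finset.inter_subset_right ?_ u k
        (fun b hb => hu b (Finset.mem_inter.1 hb).1) _ ?_
      · refine le_trans ?_ hBl
        exact_mod_cast Finset.card_le_card Finset.inter_subset_left
      · intro b hb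
        obtain ⟨i, hi⟩ := ht' b hb
        have h2 := abs_le.1 (ht i)
        rw [hi]
        constructor <;> linarith [h2.1, h2.2]
    · intro t ht
      obtain ⟨t', ht', hs⟩ := hsum t
      rw [hs]
      have h1 : r • v + (1 / 2 : ℝ) • ∑ b ∈ B ∩ A, u b + ∑ b ∈ B \ A, u b +
          ∑ b ∈ B ∩ A, t' b • u b = (r - 1) • v +
          (v + ∑ b ∈ B, (if b ∈ A then 1 / 2 + t' b else 1) • u b) := by
        have h2 : ∑ b ∈ B, (if b ∈ A then 1 / 2 + t' b else 1) • u b =
            ∑ b ∈ B \ A, u b + ∑ b ∈ B ∩ A, (1 / 2 + t' b) • u b := by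
          rw [← Finset.sum_sdiff (Finset.inter_subset_left : B ∩ A ⊆ B)]
          have h3 : B \ (B ∩ A) = B \ A := by
            ext x
            simp only [Finset.mem_sdiff, Finset.mem_inter, not_and]
            constructor
            · rintro ⟨h1, h2⟩; exact ⟨h1, h2 h1⟩
            · rintro ⟨h1, h2⟩; exact ⟨h1, fun _ => h2⟩
          rw [h3]
          congr 1
          · refine Finset.sum_congr rfl fun b hb => ?_
            rw [if_neg (Finset.mem_sdiff.1 hb).2, one_smul]
          · refine Finset.sum_congr rfl fun b hb => ?_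
            rw [if_pos (Finset.mem_inter.1 hb).2]
        rw [h2]
        simp only [add_smul, Finset.sum_add_distrib, ← Finset.smul_sum]
        module
      rw [h1]
      have h4 : v + ∑ b ∈ B, (if b ∈ A then 1 / 2 + t' b else 1) • u b ∈
          convexHull ℝ (T : Set (Fin n → ℝ)) := by
        refine box_mem hv hl B hBT hBl u k hu _ ?_
        intro b hb
        split_ifs with hbA
        · obtain ⟨i, hi⟩ := ht' b (Finset.mem_inter.2 ⟨hb, hbA⟩)
          have h2 := abs_le.1 (ht i)
          rw [hi]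
          constructor <;> linarith [h2.1, h2.2]
        · exact ⟨zero_le_one, le_rfl⟩
      have h5 := smul_add_mem hPconv (show 0 ≤ r - 1 by linarith) hvP h4
      rwa [sub_add_cancel] at h5
  · intro A hvA hAC
    refine smul_add_mem (convex_convexHull ℝ _) (by linarith)
      (subset_convexHull ℝ _ (by exact_mod_cast hvA)) ?_
    have h := box_mem hvA hl B (hBsub A hAC) hBl u k hu (fun _ => 1) (fun _ _ => ⟨zero_le_one, le_rfl⟩)
    simpa using h
  · intro K hK hKu
    have hvK : v ∈ K := by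
      have := hKu 0 (Lat n).zero_mem (by simpa using hvP)
      simpa using this
    refine smul_add_mem hK (by linarith) hvK ?_
    -- `v + ∑ u b` is a convex combination of `v` and the points `v + l u b`
    have hb : ∀ b ∈ B, v + l • u b ∈ K := by
      intro b hb
      apply hKu _ (huL b hb)
      have h1 := (hu b hb).1
      have h2 := (hu b hb).2
      have h3 := hlik b hb
      have h4 : v + l • u b = (1 - l / k b) • v + (l / k b) • b := by
        have h5 : l • u b = (l / k b) • (b - v) := by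
          rw [h2, smul_smul, div_mul_cancel₀ _ h3.ne']
        rw [h5]; module
      rw [h4]
      exact hPconv hvP (subset_convexHull ℝ _ (by exact_mod_cast hBT hb))
        (by rw [sub_nonneg, div_le_one h3]; exact h1) (by positivity) (by ring)
    have h1 : v + ∑ b ∈ B, u b = (1 - (B.card : ℝ) / l) • v + ∑ b ∈ B, (1 / l) • (v + l • u b) := by
      simp only [smul_add, Finset.sum_add_distrib, smul_smul, one_div, inv_mul_cancel₀ hl.ne',
        one_smul, Finset.sum_const]
      rw [← Nat.cast_smul_eq_nsmul ℝ, smul_smul, sub_smul, one_smul]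
      have : (B.card : ℝ) / l = (B.card : ℝ) * l⁻¹ := by ring
      rw [this]
      abel
    rw [h1]
    have h2 := hK.sum_mem (t := (Finset.univ : Finset (Option B)))
      (w := fun o => o.elim (1 - (B.card : ℝ) / l) (fun _ => 1 / l))
      (z := fun o => o.elim v (fun b => v + l • u (b : Fin n → ℝ))) ?_ ?_ ?_
    · rw [Fintype.sum_option] at h2
      simp only [Option.elim_none, Option.elim_some] at h2
      have h3 : ∑ x : B, (1 / l) • (v + l • u (x : Fin n → ℝ)) =
          ∑ b ∈ B, (1 / l) • (v + l • u b) :=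
        Finset.sum_coe_sort B (fun b => (1 / l) • (v + l • u b))
      rw [h3] at h2
      exact h2
    · rintro (_ | b) _
      · simp only [Option.elim_none]
        have := (div_le_one hl).2 hBl
        linarith
      · simp only [Option.elim_some]; positivity
    · rw [Fintype.sum_option]
      simp only [Option.elim_none, Option.elim_some, Finset.sum_const, Finset.card_univ,
        Fintype.card_coe, nsmul_eq_mul]
      field_simp
      ring
    · rintro (_ | b) _
      · exact hvK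
      · exact hb b b.2

theorem a_Star : S_Star := by
  intro n l hl T hT hLE C hC A hA hdimA hCA v hvA hvC r hr
  have hl0 : (0 : ℝ) < l := by exact_mod_cast hl
  have hvT : v ∈ T := hA.1 hvA
  have hdim : ∀ B ∈ C, (dim B : ℝ) ≤ l := by
    intro B hB
    have h1 : dim B ≤ dim A := by
      unfold dim
      exact Submodule.finrank_mono (vectorSpan_mono ℝ (by exact_mod_cast hCA B hB))
    exact_mod_cast h1.trans hdimA
  obtain ⟨q, hq1, hq2, hq3⟩ := star_point T l hl0 hLE r hr v hvT (hT.ext v hvT) C hC.1 hC.2 hvC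
    hdim
  refine ⟨q, hq2 A hvA hCA, ?_, hq1⟩
  refine hq3 _ (convex_convexHull ℝ _) ?_
  intro u hu huP
  refine subset_convexHull ℝ _ ⟨huP, ?_, u, hu, by simp⟩
  refine (Lat n).add_mem (hT.lat v hvT) ?_
  intro i
  obtain ⟨k, hk⟩ := hu i
  refine ⟨l * k, ?_⟩
  simp [hk]

end MP81308f
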