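import Pool.Agent.Lib.MP_81308f_co.Full.Final
import Pool.Agent.Lib.MP_81308f_co.Full.Box
import Pool.Agent.Lib.MP_81308f_co.Full.RealCov
import Pool.Agent.Lib.MP_81308f_co.Full.CoverV
import Pool.Agent.Lib.MP_81308f_co.Full.StarPt
import Pool.Agent.Lib.MP_81308f_co.Full.EdgePt
import Pool.Agent.Lib.MP_81308f_co.Full.Par
import Pool.Agent.Lib.MP_81308f_co.Full.Prim
import Pool.Agent.Lib.MP_81308f_co.Full.Cone2
import Pool.Agent.Lib.MP_81308f_co.Full.Conn
import Pool.Agent.Lib.MP_81308f_co.Full.Adapt2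
import Pool.Agent.Lib.MP_81308f_co.Full.FaceAff
import Pool.Agent.Lib.MP_81308f_co.KQ

/-!
# MP_81308f_co : the covering theorem without hypotheses, and the main theorem
-/

open scoped Pointwise BigOperators

namespace MP81308f

/-- The edge point. -/
theorem all_Edge : S_Edge := a_Edge (a_Par a_Prim a_Cone2) a_Adapt2 a_FaceAff a_Prim

/-- The real covering theorem. -/
theorem all_RealCov : S_RealCov := a_RealCov a_Cover a_Star all_Edge a_Conn a_GGconvex a_DimLt

theorem all_Real : S_Real := by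
  intro n l hn hl T hT hTL hText hd hLE _ r hr x hx
  have hr1 : (1 : ℝ) ≤ r := by exact_mod_cast hr
  rcases all_RealCov n l hl hn T ⟨hT, hTL, hText⟩ hLE hd (r : ℝ) hr1 (((r : ℝ) + 1) • x)
      (Set.smul_mem_smul_set hx) with ⟨A, hA, hc⟩ | ⟨v, hv, hc⟩
  · exact Or.inl ⟨A, hA, hc⟩
  · refine Or.inr ⟨v, hv, ?_⟩
    have h0 : ((r : ℝ) + 1) ≠ 0 := by positivity
    exact (Set.smul_mem_smul_set_iff₀ h0 _ _).1 hc

theorem all_KQ : S_KQ := fun _ _ hl T hT hc r hr c hcL hcK =>
  kq_class hl T (fun _ hv => hT hv) hc r hr c hcL hcK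

/-- Every lattice polytope in `ℝⁿ` all of whose edges have lattice length at least `n - 1` is
integrally closed. -/
theorem all_main {n : ℕ} (P : Set (Fin n → ℝ)) (hP : IsLatticePolytope P)
    (hL : n - 1 ≤ latticeLength P) : IsIntegrallyClosed P :=
  full_main all_KQ all_Real P hP hL

end MP81308f
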