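import Pool.Agent.Lib.MP_81308f_co.Full.Weights

/-!
# MP_81308f_co : covering from labels (selection)
-/

open scoped Pointwise BigOperators Topology

namespace MP81308f

theorem faceSet_self {n : ℕ} (K : Set (Fin n → ℝ)) (x : Fin n → ℝ) (hx : x ∈ K) :
    x ∈ faceSet K x := ⟨hx, 1, one_pos, le_rfl, x, hx, by simp⟩

theorem faceSet_trans {n : ℕ} (K : Set (Fin n → ℝ)) (hK : Convex ℝ K) (x₀ x : Fin n → ℝ)
    (h : x₀ ∈ faceSet K x) : faceSet K x₀ ⊆ faceSet K x := by
  rintro p ⟨hp, δ', h0', h1', y', hy', e'⟩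
  obtain ⟨_, δ, h0, h1, y, hy, e⟩ := h
  refine ⟨hp, δ * δ', by positivity, by nlinarith, ?_⟩
  rcases eq_or_lt_of_le (show δ * δ' ≤ 1 by nlinarith) with hd | hd
  · refine ⟨y, hy, ?_⟩
    have h2 : δ = 1 := by nlinarith
    have h3 : δ' = 1 := by nlinarith
    rw [e, e', h2, h3]
    simp
  · have hpos : 0 < 1 - δ * δ' := by linarith
    refine ⟨(δ * (1 - δ') / (1 - δ * δ')) • y' + ((1 - δ) / (1 - δ * δ')) • y, ?_, ?_⟩
    · refine hK hy' hy (div_nonneg (mul_nonneg h0.le (by linarith)) hpos.le)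
        (div_nonneg (by linarith) hpos.le) ?_
      rw [← add_div, div_eq_one_iff_eq hpos.ne']
      ring
    · rw [e, e', smul_add, smul_add, smul_smul, smul_smul, smul_smul, smul_smul,
        mul_div_cancel₀ _ hpos.ne', mul_div_cancel₀ _ hpos.ne', add_assoc]

/-- Points of the minimal face of `x`: one can move a little beyond `x`. -/
theorem faceSet_beyond {n : ℕ} (K : Set (Fin n → ℝ)) (x p : Fin n → ℝ)
    (hx : x ∈ K) (h : p ∈ faceSet K x) : ∃ ε : ℝ, 0 < ε ∧ x + ε • (x - p) ∈ K := by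
  obtain ⟨_, δ, h0, h1, y, hy, e⟩ := h
  rcases eq_or_lt_of_le h1 with h | h
  · refine ⟨1, one_pos, ?_⟩
    have : x = p := by rw [e, h]; simp
    rw [this, sub_self, smul_zero, add_zero, ← this]
    exact hx
  · have hpos : 0 < 1 - δ := by linarith
    refine ⟨δ / (1 - δ), by positivity, ?_⟩
    have : x + (δ / (1 - δ)) • (x - p) = y := by
      have e2 : x - p = (1 - δ) • (y - p) := by
        rw [e, smul_sub, sub_smul, sub_smul, one_smul, one_smul]
        abel
      rw [e2, smul_smul, div_mul_cancel₀ _ hpos.ne', e, smul_sub, sub_smul, one_smul]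
      abel
    rw [this]
    exact hy

/-- The minimal face is lower semicontinuous on a polytope. -/
theorem faceSet_nhds {n : ℕ} (T : Finset (Fin n → ℝ)) (x₀ : Fin n → ℝ) :
    ∀ᶠ x in 𝓝 x₀, x ∈ convexHull ℝ (T : Set (Fin n → ℝ)) →
      faceSet (convexHull ℝ (T : Set (Fin n → ℝ))) x₀ ⊆
        faceSet (convexHull ℝ (T : Set (Fin n → ℝ))) x := by
  classical
  set K := convexHull ℝ (T : Set (Fin n → ℝ)) with hKdef
  have hK : Convex ℝ K := convex_convexHull ℝ _
  set N : Finset (Finset (Fin n → ℝ)) := (cfaces T).filter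
    (fun G => x₀ ∉ convexHull ℝ (G : Set (Fin n → ℝ))) with hN
  have hev : ∀ᶠ x in 𝓝 x₀, ∀ G ∈ N, x ∉ convexHull ℝ (G : Set (Fin n → ℝ)) := by
    rw [Filter.eventually_all_finset]
    intro G hG
    have hc : IsClosed (convexHull ℝ (G : Set (Fin n → ℝ))) :=
      G.finite_toSet.isClosed_convexHull ℝ
    exact hc.isOpen_compl.mem_nhds (Finset.mem_filter.1 hG).2
  filter_upwards [hev] with x hx hxK
  set D : Finset (Fin n → ℝ) := T.filter (fun v => v ∈ faceSet K x) with hD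
  have hDh : convexHull ℝ (D : Set (Fin n → ℝ)) = faceSet K x :=
    extreme_eq_hull T _ (face_extreme K hK x) (face_convex K hK x) D
      (fun v => by rw [hD, Finset.mem_filter])
  have hxD : x ∈ convexHull ℝ (D : Set (Fin n → ℝ)) := by
    rw [hDh]; exact faceSet_self K x hxK
  have hDc : IsCFace T D := by
    refine ⟨⟨Finset.filter_subset _ _, ?_, ?_⟩, ?_⟩
    · exact Finset.coe_nonempty.1 (convexHull_nonempty_iff.1 ⟨x, hxD⟩)
    · rw [hDh]; exact face_extreme K hK x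
    · intro v hv hvc
      rw [hDh] at hvc
      exact Finset.mem_filter.2 ⟨hv, hvc⟩
  by_contra hcon
  have h0 : x₀ ∉ convexHull ℝ (D : Set (Fin n → ℝ)) := by
    intro h
    rw [hDh] at h
    exact hcon (faceSet_trans K hK x₀ x h)
  exact hx D (Finset.mem_filter.2 ⟨(mem_cfaces T D).2 hDc, h0⟩) hxD

/-- The surjectivity statement (from Brouwer's theorem) used below. -/
def SurjStatement (n : ℕ) : Prop :=
  ∀ K : Set (Fin n → ℝ), Convex ℝ K → IsCompact K → ∀ F : (Fin n → ℝ) → (Fin n → ℝ),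
    ContinuousOn F K → Set.MapsTo F K K →
    (∀ x ∈ K, ∃ ε : ℝ, 0 < ε ∧ x + ε • (x - F x) ∈ K) → K ⊆ F '' K

/-- (SEL) a covering theorem for labelled polytopes. -/
theorem sel_cover_of_surj {n : ℕ} (hsurj : SurjStatement n) (T : Finset (Fin n → ℝ))
    {J : Type*} [Finite J] (R C : J → Set (Fin n → ℝ)) (hR : ∀ j, IsClosed (R j))
    (hC : ∀ j, Convex ℝ (C j))
    (hcov : ∀ x ∈ convexHull ℝ (T : Set (Fin n → ℝ)), ∃ j, x ∈ R j)
    (hne : ∀ x ∈ convexHull ℝ (T : Set (Fin n → ℝ)),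
      ∃ c ∈ faceSet (convexHull ℝ (T : Set (Fin n → ℝ))) x, ∀ j, x ∈ R j → c ∈ C j) :
    convexHull ℝ (T : Set (Fin n → ℝ)) ⊆ ⋃ j, C j := by
  classical
  cases nonempty_fintype J
  set K := convexHull ℝ (T : Set (Fin n → ℝ)) with hKdef
  have hK : Convex ℝ K := convex_convexHull ℝ _
  have hcomp : IsCompact K := T.finite_toSet.isCompact_convexHull ℝ
  obtain ⟨g, hg⟩ := exists_continuous_forall_mem_convex_of_local_const (X := K)
    (t := fun x => {c | c ∈ faceSet K x ∧ ∀ j, (x : Fin n → ℝ) ∈ R j → c ∈ C j})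
    (fun x => by
      intro a ha b hb s t hs ht hst
      exact ⟨face_convex K hK x ha.1 hb.1 hs ht hst,
        fun j hj => hC j (ha.2 j hj) (hb.2 j hj) hs ht hst⟩)
    (fun x => by
      obtain ⟨c, hc, hcj⟩ := hne x x.2
      refine ⟨c, ?_⟩
      have h1 : ∀ᶠ y in 𝓝 (x : Fin n → ℝ), y ∈ K → faceSet K x ⊆ faceSet K y :=
        faceSet_nhds T x
      have h2 : ∀ᶠ y in 𝓝 (x : Fin n → ℝ), ∀ j, y ∈ R j → (x : Fin n → ℝ) ∈ R j := by
        rw [Filter.eventually_all]
        intro j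
        by_cases hxj : (x : Fin n → ℝ) ∈ R j
        · exact Filter.Eventually.of_forall fun _ _ => hxj
        · filter_upwards [(hR j).isOpen_compl.mem_nhds hxj] with y hy hyj
          exact absurd hyj hy
      have h3 : ∀ᶠ y : K in 𝓝 x, ((y : Fin n → ℝ) ∈ K → faceSet K x ⊆ faceSet K y) ∧
          ∀ j, (y : Fin n → ℝ) ∈ R j → (x : Fin n → ℝ) ∈ R j :=
        continuous_subtype_val.continuousAt.eventually (h1.and h2)
      filter_upwards [h3] with y hy
      exact ⟨hy.1 y.2 hc, fun j hj => hcj j (hy.2 j hj)⟩)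
  set F : (Fin n → ℝ) → (Fin n → ℝ) := fun x => if h : x ∈ K then g ⟨x, h⟩ else x with hF
  have hFx : ∀ x (h : x ∈ K), F x = g ⟨x, h⟩ := fun x h => by rw [hF]; exact dif_pos h
  have hFc : ContinuousOn F K := by
    rw [continuousOn_iff_continuous_domRestrict]
    have : K.domRestrict F = g := by
      funext x
      rw [Set.domRestrict_apply, hFx x x.2]
    rw [this]
    exact g.continuous
  have hmaps : Set.MapsTo F K K := by
    intro x hx
    rw [hFx x hx]
    exact (hg ⟨x, hx⟩).1.1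
  have hbey : ∀ x ∈ K, ∃ ε : ℝ, 0 < ε ∧ x + ε • (x - F x) ∈ K := by
    intro x hx
    refine faceSet_beyond K x (F x) hx ?_
    rw [hFx x hx]
    exact (hg ⟨x, hx⟩).1
  intro c hc
  obtain ⟨x, hx, hxc⟩ := hsurj K hK hcomp F hFc hmaps hbey hc
  obtain ⟨j, hj⟩ := hcov x hx
  rw [Set.mem_iUnion]
  refine ⟨j, ?_⟩
  rw [← hxc, hFx x hx]
  exact (hg ⟨x, hx⟩).2 j hj

end MP81308f
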