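import Pool.Agent.Lib.MP_81308f_co.Full.Surj
import Pool.Agent.Lib.MP_81308f_co.Full.SelCover

/-!
# MP_81308f_co : THEOREM 1 (covering by labels), unconditional
-/

set_option autoImplicit false

namespace MP81308f

theorem surjStatement (n : ℕ) : SurjStatement n :=
  fun K hK hKc F hF _ h => surj K hKc hK F hF h

/-- THEOREM 1: a polytope covered by closed regions `R j`; every region has a convex set `C j`; the
convex sets of the regions containing `x` have a common point in the minimal face of `x`. Then the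
polytope is covered by the `C j`. -/
theorem sel_cover {n : ℕ} (T : Finset (Fin n → ℝ))
    {J : Type*} [Finite J] (R C : J → Set (Fin n → ℝ)) (hR : ∀ j, IsClosed (R j))
    (hC : ∀ j, Convex ℝ (C j))
    (hcov : ∀ x ∈ convexHull ℝ (T : Set (Fin n → ℝ)), ∃ j, x ∈ R j)
    (hne : ∀ x ∈ convexHull ℝ (T : Set (Fin n → ℝ)),
      ∃ c ∈ faceSet (convexHull ℝ (T : Set (Fin n → ℝ))) x, ∀ j, x ∈ R j → c ∈ C j) :
    convexHull ℝ (T : Set (Fin n → ℝ)) ⊆ ⋃ j, C j :=
  sel_cover_of_surj (surjStatement n) T R C hR hC hcov hne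

end MP81308f
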