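import Mathlib

/-!
# The abstract covering theorem (topological part of the proof of Q1)

Weights of the sets `S` of nearly active functions (helper7's product form), regions, selection
of a continuous face preserving map (partition of unity) and the covering statement.
-/

set_option autoImplicit false

open Set Topology

namespace MP81308f.Full

section Select

variable {E : Type*} [AddCommGroup E] [Module ℝ E] [TopologicalSpace E] [ContinuousAdd E]
  [ContinuousSMul ℝ E]

/-- Selection for finitely many (closed region, convex label) pairs. -/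
theorem select {X : Type*} [TopologicalSpace X] [NormalSpace X] [ParacompactSpace X]
    {J : Type*} [Finite J] (R : J → Set X) (hR : ∀ j, IsClosed (R j)) (C : J → Set E)
    (hC : ∀ j, Convex ℝ (C j)) (h : ∀ x, ∃ c, ∀ j, x ∈ R j → c ∈ C j) :
    ∃ F : C(X, E), ∀ x j, x ∈ R j → F x ∈ C j := by
  obtain ⟨F, hF⟩ := exists_continuous_forall_mem_convex_of_local_const
    (t := fun x : X => {y : E | ∀ j, x ∈ R j → y ∈ C j}) (by
      intro x y hy z hz a b ha hb hab j hj
      exact hC j (hy j hj) (hz j hj) ha hb hab) (by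
      intro x
      obtain ⟨c, hc⟩ := h x
      refine ⟨c, ?_⟩
      have h1 : ∀ᶠ y in 𝓝 x, ∀ j, y ∈ R j → x ∈ R j := by
        rw [Filter.eventually_all]
        intro j
        by_cases hj : x ∈ R j
        · exact Filter.Eventually.of_forall fun _ _ => hj
        · filter_upwards [(hR j).isOpen_compl.mem_nhds hj] with y hy hy'
          exact absurd hy' hy
      filter_upwards [h1] with y hy j hj
      exact hc j (hy j hj))
  exact ⟨F, fun x j hj => hF x j hj⟩

end Select

variable {E : Type*} [NormedAddCommGroup E] [NormedSpace ℝ E]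
variable {ι : Type*} [Fintype ι] [DecidableEq ι]

/-- The face of `P` cut out by the functions in `S`. -/
def face (P : Set E) (φ : ι → E → ℝ) (S : Finset ι) : Set E := {x | x ∈ P ∧ ∀ i ∈ S, φ i x = 0}

/-- Weight of the set `S` of nearly active functions. -/
noncomputable def wt (φ : ι → E → ℝ) (S : Finset ι) (x : E) : ℝ :=
  ∏ i ∈ Sᶜ, (φ i x * ∏ j ∈ S, max (φ i x - φ j x) 0)

theorem wt_nonneg {φ : ι → E → ℝ} {x : E} (hx : ∀ i, 0 ≤ φ i x) (S : Finset ι) :
    0 ≤ wt φ S x :=
  Finset.prod_nonneg fun i _ => mul_nonneg (hx i) (Finset.prod_nonneg fun _ _ => le_max_right _ _)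

theorem wt_pos {φ : ι → E → ℝ} {x : E} (hx : ∀ i, 0 ≤ φ i x) {S : Finset ι}
    (h : 0 < wt φ S x) {i : ι} (hi : i ∉ S) : 0 < φ i x ∧ ∀ j ∈ S, φ j x < φ i x := by
  have h1 := (Finset.prod_ne_zero_iff.1 h.ne') i (Finset.mem_compl.2 hi)
  rw [mul_ne_zero_iff, Finset.prod_ne_zero_iff] at h1
  refine ⟨lt_of_le_of_ne (hx i) (Ne.symm h1.1), fun j hj => ?_⟩
  have h2 := h1.2 j hj
  by_contra h3
  push Not at h3
  exact h2 (max_eq_right (by linarith))

theorem wt_chain {φ : ι → E → ℝ} {x : E} (hx : ∀ i, 0 ≤ φ i x) {S T : Finset ι}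
    (hS : 0 < wt φ S x) (hT : 0 < wt φ T x) : S ⊆ T ∨ T ⊆ S := by
  by_contra h
  push Not at h
  obtain ⟨h1, h2⟩ := h
  obtain ⟨i, hiS, hiT⟩ := Finset.not_subset.1 h1
  obtain ⟨j, hjT, hjS⟩ := Finset.not_subset.1 h2
  have h3 := (wt_pos hx hS hjS).2 i hiS
  have h4 := (wt_pos hx hT hiT).2 j hjT
  exact lt_asymm h3 h4

theorem wt_self {φ : ι → E → ℝ} {x : E} (hx : ∀ i, 0 ≤ φ i x) [∀ i, Decidable (φ i x = 0)] :
    0 < wt φ (Finset.univ.filter fun i => φ i x = 0) x := by
  refine Finset.prod_pos fun i hi => ?_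
  rw [Finset.mem_compl, Finset.mem_filter] at hi
  have h0 : φ i x ≠ 0 := fun h => hi ⟨Finset.mem_univ _, h⟩
  have h1 : 0 < φ i x := lt_of_le_of_ne (hx i) (Ne.symm h0)
  refine mul_pos h1 (Finset.prod_pos fun j hj => ?_)
  rw [Finset.mem_filter] at hj
  rw [hj.2, sub_zero]
  exact lt_max_of_lt_left h1

theorem continuous_wt {φ : ι → E → ℝ} (hφ : ∀ i, Continuous (φ i)) (S : Finset ι) :
    Continuous (wt φ S) :=
  continuous_finset_prod _ fun i _ => (hφ i).mul
    (continuous_finset_prod _ fun j _ => ((hφ i).sub (hφ j)).max continuous_const)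

/-- **Abstract covering theorem.** -/
theorem cover {cl : Type*} (P : Set E) (hPc : Convex ℝ P) (hPk : IsCompact P)
    (φ : ι → E → ℝ) (hφc : ∀ i, Continuous (φ i)) (hφa : ∀ i, Convex ℝ {x | φ i x = 0})
    (hφ : ∀ i, ∀ x ∈ P, 0 ≤ φ i x)
    (hsurj : ∀ F : E → E, ContinuousOn F P → MapsTo F P P →
      (∀ x ∈ P, ∀ i, φ i x = 0 → φ i (F x) = 0) → P ⊆ F '' P)
    (V : Finset ι → Set E) (hV : ∀ S, Convex ℝ (V S))
    (K : cl → Set E) (hK : ∀ k, Convex ℝ (K k))
    (pure : Finset ι → cl → Prop)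
    (pure_mono : ∀ S T k, pure S k → S ⊆ T → (face P φ T).Nonempty → pure T k)
    (pure_uniq : ∀ S k k', (face P φ S).Nonempty → pure S k → pure S k' → k = k')
    (H1 : ∀ C : Finset (Finset ι), (∀ S ∈ C, S.Nonempty ∧ (face P φ S).Nonempty) →
      (∀ S ∈ C, ∀ T ∈ C, S ⊆ T ∨ T ⊆ S) → ∀ S₀ ∈ C, (∀ S ∈ C, S₀ ⊆ S) →
      ∃ y ∈ face P φ S₀, ∀ S ∈ C, y ∈ V S)
    (H2 : ∀ C : Finset (Finset ι), (∀ S ∈ C, S.Nonempty ∧ (face P φ S).Nonempty) →
      (∀ S ∈ C, ∀ T ∈ C, S ⊆ T ∨ T ⊆ S) → ∀ A k, (face P φ A).Nonempty → pure A k →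
      (∀ S ∈ C, S ⊆ A ∨ A ⊆ S) → ∃ y ∈ P, y ∈ K k ∧ ∀ S ∈ C, y ∈ V S)
    (H3 : ∀ C : Finset (Finset ι), (∀ S ∈ C, S.Nonempty ∧ (face P φ S).Nonempty) →
      (∀ S ∈ C, ∀ T ∈ C, S ⊆ T ∨ T ⊆ S) → (∀ S ∈ C, ∀ k, ¬ pure S k) →
      ∃ y ∈ P, y ∈ V ∅ ∧ ∀ S ∈ C, y ∈ V S)
    (H4 : ∀ C : Finset (Finset ι), (∀ S ∈ C, S.Nonempty ∧ (face P φ S).Nonempty) →
      (∀ S ∈ C, ∀ T ∈ C, S ⊆ T ∨ T ⊆ S) → (∀ S ∈ C, ∀ k, ¬ pure S k) →
      ∀ A k, (face P φ A).Nonempty → pure A k → (∀ S ∈ C, S ⊆ A ∨ A ⊆ S) →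
      ∃ y ∈ P, y ∈ V ∅ ∧ y ∈ K k ∧ ∀ S ∈ C, y ∈ V S)
    (c : E) (hc : c ∈ P) :
    (∃ S, (face P φ S).Nonempty ∧ c ∈ V S) ∨
      ∃ A k, (face P φ A).Nonempty ∧ pure A k ∧ c ∈ K k := by
  classical
  -- index sets with non-empty face, positive weights
  let Re : Finset ι → Prop := fun S => (face P φ S).Nonempty
  -- regions
  let R : Finset ι → Set E := fun S => {x | Re S ∧ ∀ T, Re T → wt φ T x ≤ wt φ S x}
  have hRcl : ∀ S, IsClosed (R S) := by
    intro S
    have : R S = {x | Re S} ∩ ⋂ T, {x | Re T → wt φ T x ≤ wt φ S x} := by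
      ext x; simp [R]
    rw [this]
    refine IsClosed.inter isClosed_const (isClosed_iInter fun T => ?_)
    by_cases hT : Re T
    · simp only [hT, true_imp_iff]
      exact isClosed_le (continuous_wt hφc T) (continuous_wt hφc S)
    · simp [hT]
  -- every point of `P` lies in a region, all of whose weights are positive
  have hpos : ∀ x ∈ P, ∀ S, x ∈ R S → 0 < wt φ S x := by
    intro x hx S hS
    have h0 : ∀ i, 0 ≤ φ i x := fun i => hφ i x hx
    have h1 : Re (Finset.univ.filter fun i => φ i x = 0) :=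
      ⟨x, hx, fun i hi => (Finset.mem_filter.1 hi).2⟩
    exact (wt_self h0).trans_le (hS.2 _ h1)
  have hex : ∀ x ∈ P, ∃ S, x ∈ R S := by
    intro x hx
    have h1 : Re (Finset.univ.filter fun i => φ i x = 0) :=
      ⟨x, hx, fun i hi => (Finset.mem_filter.1 hi).2⟩
    obtain ⟨S, hS, hmax⟩ := Finset.exists_max_image
      (Finset.univ.filter fun S : Finset ι => Re S) (fun S => wt φ S x)
      ⟨_, Finset.mem_filter.2 ⟨Finset.mem_univ _, h1⟩⟩
    exact ⟨S, (Finset.mem_filter.1 hS).2, fun T hT =>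
      hmax T (Finset.mem_filter.2 ⟨Finset.mem_univ _, hT⟩)⟩
  -- the chain of a point
  let Ch : E → Finset (Finset ι) := fun x =>
    Finset.univ.filter fun S : Finset ι => S.Nonempty ∧ x ∈ R S
  have hCh1 : ∀ x, ∀ S ∈ Ch x, S.Nonempty ∧ (face P φ S).Nonempty := by
    intro x S hS
    obtain ⟨h1, h2⟩ := (Finset.mem_filter.1 hS).2
    exact ⟨h1, h2.1⟩
  have hCh2 : ∀ x ∈ P, ∀ S ∈ Ch x, ∀ T ∈ Ch x, S ⊆ T ∨ T ⊆ S := by
    intro x hx S hS T hT
    have h0 : ∀ i, 0 ≤ φ i x := fun i => hφ i x hx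
    exact wt_chain h0 (hpos x hx S (Finset.mem_filter.1 hS).2.2)
      (hpos x hx T (Finset.mem_filter.1 hT).2.2)
  -- the two kinds of conditions on the central region
  let A0 : Set E := {x | ∀ A, Re A → (∃ k, pure A k) → 2 * wt φ A x ≤ wt φ ∅ x}
  let B : Finset ι → Set E := fun A => {x | Re A ∧ wt φ ∅ x ≤ 2 * wt φ A x}
  have hA0cl : IsClosed A0 := by
    have : A0 = ⋂ A, {x | Re A → (∃ k, pure A k) → 2 * wt φ A x ≤ wt φ ∅ x} := by
      ext x; simp [A0]
    rw [this]
    refine isClosed_iInter fun A => ?_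
    by_cases h1 : Re A
    · by_cases h2 : ∃ k, pure A k
      · simp only [h1, h2, true_imp_iff]
        exact isClosed_le (continuous_const.mul (continuous_wt hφc A)) (continuous_wt hφc ∅)
      · simp [h2]
    · simp [h1]
  have hBcl : ∀ A, IsClosed (B A) := by
    intro A
    have : B A = {x | Re A} ∩ {x | wt φ ∅ x ≤ 2 * wt φ A x} := by
      ext x; simp [B]
    rw [this]
    exact IsClosed.inter isClosed_const
      (isClosed_le (continuous_wt hφc ∅) (continuous_const.mul (continuous_wt hφc A)))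
  -- the family of pairs
  let J := Unit ⊕ ι ⊕ Finset ι ⊕ Unit ⊕ Finset ι
  let RR : J → Set P := fun j => Subtype.val ⁻¹' (match j with
    | Sum.inl _ => univ
    | Sum.inr (Sum.inl i) => {x | φ i x = 0}
    | Sum.inr (Sum.inr (Sum.inl S)) => {x | S.Nonempty ∧ x ∈ R S}
    | Sum.inr (Sum.inr (Sum.inr (Sum.inl _))) => R ∅ ∩ A0
    | Sum.inr (Sum.inr (Sum.inr (Sum.inr A))) => R ∅ ∩ B A)
  let CC : J → Set E := fun j => match j with
    | Sum.inl _ => P
    | Sum.inr (Sum.inl i) => {x | φ i x = 0}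
    | Sum.inr (Sum.inr (Sum.inl S)) => V S
    | Sum.inr (Sum.inr (Sum.inr (Sum.inl _))) => V ∅
    | Sum.inr (Sum.inr (Sum.inr (Sum.inr A))) => {y | ∀ k, pure A k → y ∈ K k}
  haveI : CompactSpace P := isCompact_iff_compactSpace.1 hPk
  obtain ⟨F, hF⟩ := select (E := E) (X := P) RR (by
      intro j
      refine IsClosed.preimage continuous_subtype_val ?_
      rcases j with _ | i | S | _ | A
      · exact isClosed_univ
      · exact isClosed_eq (hφc i) continuous_const
      · have : {x | S.Nonempty ∧ x ∈ R S} = {x | S.Nonempty} ∩ R S := by ext x; simp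
        show IsClosed {x | S.Nonempty ∧ x ∈ R S}
        rw [this]
        exact isClosed_const.inter (hRcl S)
      · exact (hRcl ∅).inter hA0cl
      · exact (hRcl ∅).inter (hBcl A)) CC (by
      intro j
      rcases j with _ | i | S | _ | A
      · exact hPc
      · exact hφa i
      · exact hV S
      · exact hV ∅
      · intro x hx y hy a b ha hb hab k hk
        exact hK k (hx k hk) (hy k hk) ha hb hab) (by
      rintro ⟨x, hx⟩
      have h0 : ∀ i, 0 ≤ φ i x := fun i => hφ i x hx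
      by_cases hc0 : x ∈ R ∅
      · have hw0 : 0 < wt φ ∅ x := hpos x hx ∅ hc0
        have hφpos : ∀ i, φ i x ≠ 0 := fun i =>
          ((wt_pos h0 hw0 (Finset.notMem_empty i)).1).ne'
        have hwmax : ∀ S ∈ Ch x, wt φ S x = wt φ ∅ x := by
          intro S hS
          obtain ⟨_, h2⟩ := (Finset.mem_filter.1 hS).2
          exact le_antisymm (hc0.2 S h2.1) (h2.2 ∅ hc0.1)
        -- comparable pure sets
        have hcmp : ∀ A, wt φ ∅ x ≤ 2 * wt φ A x → ∀ S ∈ Ch x, S ⊆ A ∨ A ⊆ S := by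
          intro A hA S hS
          have hA' : 0 < wt φ A x := by linarith
          exact wt_chain h0 (hpos x hx S (Finset.mem_filter.1 hS).2.2) hA'
        have huniq : ∀ A A' k k', Re A → Re A' → wt φ ∅ x ≤ 2 * wt φ A x →
            wt φ ∅ x ≤ 2 * wt φ A' x → pure A k → pure A' k' → k = k' := by
          intro A A' k k' hA hA' hw hw' hp hp'
          have h1 : 0 < wt φ A x := by linarith
          have h2 : 0 < wt φ A' x := by linarith
          rcases wt_chain h0 h1 h2 with h | h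
          · exact pure_uniq A' k k' hA' (pure_mono A A' k hp h hA') hp'
          · exact pure_uniq A k k' hA hp (pure_mono A' A k' hp' h hA)
        by_cases hA : x ∈ A0
        · have hnp : ∀ S ∈ Ch x, ∀ k, ¬ pure S k := by
            intro S hS k hk
            have h1 := hA S (hCh1 x S hS).2 ⟨k, hk⟩
            rw [hwmax S hS] at h1
            linarith
          by_cases hB : ∃ A k, Re A ∧ wt φ ∅ x ≤ 2 * wt φ A x ∧ pure A k
          · obtain ⟨A, k, hA1, hA2, hA3⟩ := hB
            obtain ⟨y, hyP, hy1, hy2, hy3⟩ := H4 (Ch x) (hCh1 x) (hCh2 x hx) hnp A k hA1 hA3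
              (hcmp A hA2)
            refine ⟨y, fun j hj => ?_⟩
            rcases j with _ | i | S | _ | A'
            · exact hyP
            · exact absurd hj (hφpos i)
            · exact hy3 S (Finset.mem_filter.2 ⟨Finset.mem_univ _, hj⟩)
            · exact hy1
            · intro k' hk'
              have h2 : Re A' ∧ wt φ ∅ x ≤ 2 * wt φ A' x := hj.2
              rw [huniq A' A k' k h2.1 hA1 h2.2 hA2 hk' hA3]
              exact hy2
          · push Not at hB
            obtain ⟨y, hyP, hy1, hy3⟩ := H3 (Ch x) (hCh1 x) (hCh2 x hx) hnp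
            refine ⟨y, fun j hj => ?_⟩
            rcases j with _ | i | S | _ | A'
            · exact hyP
            · exact absurd hj (hφpos i)
            · exact hy3 S (Finset.mem_filter.2 ⟨Finset.mem_univ _, hj⟩)
            · exact hy1
            · intro k' hk'
              have h2 : Re A' ∧ wt φ ∅ x ≤ 2 * wt φ A' x := hj.2
              exact absurd hk' (hB A' k' h2.1 h2.2)
        · have hA' : ∃ A k, Re A ∧ pure A k ∧ wt φ ∅ x < 2 * wt φ A x := by
            by_contra hcon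
            push Not at hcon
            exact hA fun A hA1 ⟨k, hk⟩ => hcon A k hA1 hk
          obtain ⟨A, k, hA1, hA3, hA2⟩ := hA'
          obtain ⟨y, hyP, hy2, hy3⟩ := H2 (Ch x) (hCh1 x) (hCh2 x hx) A k hA1 hA3
              (hcmp A hA2.le)
          refine ⟨y, fun j hj => ?_⟩
          rcases j with _ | i | S | _ | A'
          · exact hyP
          · exact absurd hj (hφpos i)
          · exact hy3 S (Finset.mem_filter.2 ⟨Finset.mem_univ _, hj⟩)
          · exact absurd hj.2 hA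
          · intro k' hk'
            have h2 : Re A' ∧ wt φ ∅ x ≤ 2 * wt φ A' x := hj.2
            rw [huniq A' A k' k h2.1 hA1 h2.2 hA2.le hk' hA3]
            exact hy2
      · obtain ⟨S, hS⟩ := hex x hx
        have hSne : S.Nonempty := by
          rw [Finset.nonempty_iff_ne_empty]
          rintro rfl
          exact hc0 hS
        obtain ⟨S₀, hS₀, hmin⟩ := Finset.exists_min_image (Ch x) Finset.card
          ⟨S, Finset.mem_filter.2 ⟨Finset.mem_univ _, hSne, hS⟩⟩
        have hmin' : ∀ T ∈ Ch x, S₀ ⊆ T := by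
          intro T hT
          rcases hCh2 x hx S₀ hS₀ T hT with h | h
          · exact h
          · rw [Finset.eq_of_subset_of_card_le h (hmin T hT)]
        obtain ⟨y, hy1, hy2⟩ := H1 (Ch x) (hCh1 x) (hCh2 x hx) S₀ hS₀ hmin'
        refine ⟨y, fun j hj => ?_⟩
        rcases j with _ | i | S | _ | A'
        · exact hy1.1
        · have h3 : i ∈ S₀ := by
            by_contra hi
            have h4 := (wt_pos h0 (hpos x hx S₀ (Finset.mem_filter.1 hS₀).2.2) hi).1
            exact h4.ne' hj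
          exact hy1.2 i h3
        · exact hy2 S (Finset.mem_filter.2 ⟨Finset.mem_univ _, hj⟩)
        · exact absurd hj.1 hc0
        · exact absurd hj.1 hc0)
  -- surjectivity
  let G : E → E := fun x => if h : x ∈ P then F ⟨x, h⟩ else x
  have hGF : ∀ x (h : x ∈ P), G x = F ⟨x, h⟩ := fun x h => dif_pos h
  have hGc : ContinuousOn G P := by
    rw [continuousOn_iff_continuous_restrict]
    have : P.domRestrict G = F := by
      ext x
      exact hGF x x.2
    rw [this]
    exact F.continuous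
  have hGm : MapsTo G P P := by
    intro x hx
    rw [hGF x hx]
    exact hF ⟨x, hx⟩ (Sum.inl ()) trivial
  have hGf : ∀ x ∈ P, ∀ i, φ i x = 0 → φ i (G x) = 0 := by
    intro x hx i hi
    rw [hGF x hx]
    exact hF ⟨x, hx⟩ (Sum.inr (Sum.inl i)) hi
  obtain ⟨x, hx, rfl⟩ := hsurj G hGc hGm hGf hc
  rw [hGF x hx]
  obtain ⟨S, hS⟩ := hex x hx
  by_cases hSne : S.Nonempty
  · exact Or.inl ⟨S, hS.1, hF ⟨x, hx⟩ (Sum.inr (Sum.inr (Sum.inl S))) ⟨hSne, hS⟩⟩
  · rw [Finset.not_nonempty_iff_eq_empty] at hSne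
    subst hSne
    by_cases hA : x ∈ A0
    · exact Or.inl ⟨∅, hS.1, hF ⟨x, hx⟩ (Sum.inr (Sum.inr (Sum.inr (Sum.inl ())))) ⟨hS, hA⟩⟩
    · have hA' : ∃ A k, Re A ∧ pure A k ∧ wt φ ∅ x < 2 * wt φ A x := by
        by_contra hcon
        push Not at hcon
        exact hA fun A hA1 ⟨k, hk⟩ => hcon A k hA1 hk
      obtain ⟨A, k, hA1, hA3, hA2⟩ := hA'
      exact Or.inr ⟨A, k, hA1, hA3,
        hF ⟨x, hx⟩ (Sum.inr (Sum.inr (Sum.inr (Sum.inr A)))) ⟨hS, hA1, hA2.le⟩ k hA3⟩

end MP81308f.Full
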