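import Pool.Agent.Lib.MP_81308f_co.Full.Cov1

/-!
# MP_81308f_co : S_Cover, the abstract covering theorem for faces (V-representation)
-/

open scoped Pointwise BigOperators Topology

namespace MP81308f

/-- **Abstract covering theorem** (faces are the sets `G ⊆ T` with `IsCFace T G`; labels `V G`
for the faces, `V T` for the polytope itself, and `K k` for the classes). -/
theorem cover_faces {n : ℕ} (T : Finset (Fin n → ℝ)) (hT : T.Nonempty) {cl : Type*}
    (V : Finset (Fin n → ℝ) → Set (Fin n → ℝ)) (hV : ∀ G, IsCFace T G → Convex ℝ (V G))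
    (K : cl → Set (Fin n → ℝ)) (hK : ∀ k, Convex ℝ (K k))
    (pure : Finset (Fin n → ℝ) → cl → Prop)
    (pure_mono : ∀ G G' k, IsCFace T G → IsCFace T G' → G' ⊆ G → pure G k → pure G' k)
    (pure_uniq : ∀ G k k', IsCFace T G → pure G k → pure G k' → k = k')
    (H1 : ∀ C : Finset (Finset (Fin n → ℝ)), (∀ G ∈ C, IsCFace T G ∧ G ≠ T) →
      (∀ G ∈ C, ∀ G' ∈ C, G ⊆ G' ∨ G' ⊆ G) → ∀ G₁ ∈ C, (∀ G ∈ C, G ⊆ G₁) →
      ∃ y ∈ convexHull ℝ (G₁ : Set (Fin n → ℝ)), ∀ G ∈ C, y ∈ V G)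
    (H2 : ∀ C : Finset (Finset (Fin n → ℝ)), (∀ G ∈ C, IsCFace T G ∧ G ≠ T) →
      (∀ G ∈ C, ∀ G' ∈ C, G ⊆ G' ∨ G' ⊆ G) → ∀ A k, IsCFace T A → pure A k →
      (∀ G ∈ C, G ⊆ A ∨ A ⊆ G) →
      ∃ y ∈ convexHull ℝ (T : Set (Fin n → ℝ)), y ∈ K k ∧ ∀ G ∈ C, y ∈ V G)
    (H3 : ∀ C : Finset (Finset (Fin n → ℝ)), (∀ G ∈ C, IsCFace T G ∧ G ≠ T) →
      (∀ G ∈ C, ∀ G' ∈ C, G ⊆ G' ∨ G' ⊆ G) → (∀ k, ¬ pure T k) →
      (∀ G ∈ C, ∀ k, ¬ pure G k) →
      ∃ y ∈ convexHull ℝ (T : Set (Fin n → ℝ)), y ∈ V T ∧ ∀ G ∈ C, y ∈ V G)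
    (H4 : ∀ C : Finset (Finset (Fin n → ℝ)), (∀ G ∈ C, IsCFace T G ∧ G ≠ T) →
      (∀ G ∈ C, ∀ G' ∈ C, G ⊆ G' ∨ G' ⊆ G) → (∀ k, ¬ pure T k) →
      (∀ G ∈ C, ∀ k, ¬ pure G k) →
      ∀ A k, IsCFace T A → A ≠ T → pure A k → (∀ G ∈ C, G ⊆ A ∨ A ⊆ G) →
      ∃ y ∈ convexHull ℝ (T : Set (Fin n → ℝ)), y ∈ V T ∧ y ∈ K k ∧ ∀ G ∈ C, y ∈ V G)
    (c : Fin n → ℝ) (hc : c ∈ convexHull ℝ (T : Set (Fin n → ℝ))) :
    (∃ G, IsCFace T G ∧ c ∈ V G) ∨ ∃ A k, IsCFace T A ∧ pure A k ∧ c ∈ K k := by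
  classical
  obtain ⟨w, hwc, hw0, hwf, hwch, hwex⟩ := weights T hT
  set P := convexHull ℝ (T : Set (Fin n → ℝ)) with hP
  have hTT : IsCFace T T := by
    refine ⟨⟨Finset.Subset.refl _, hT, ?_⟩, fun v hv _ => hv⟩
    exact ⟨Set.Subset.rfl, fun x hx y hy z hz hzs => hx⟩
  -- maximal weight regions
  let R : Finset (Fin n → ℝ) → Set (Fin n → ℝ) := fun G => {x | ∀ G' ∈ cfaces T, w G' x ≤ w G x}
  have hRcl : ∀ G, IsClosed (R G) := by
    intro G
    have : R G = ⋂ G' ∈ cfaces T, {x | w G' x ≤ w G x} := by ext x; simp [R]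
    rw [this]
    exact isClosed_biInter fun G' _ => isClosed_le (hwc G') (hwc G)
  have hpos : ∀ x ∈ P, ∀ G, x ∈ R G → 0 < w G x := by
    intro x hx G hG
    obtain ⟨G', hG'⟩ := hwex x hx
    exact hG'.trans_le (hG G' ((mem_cfaces T G').2 (hwf G' x hx hG').1))
  have hex : ∀ x ∈ P, ∃ G ∈ cfaces T, x ∈ R G := by
    intro x hx
    obtain ⟨G, hG, hmax⟩ := Finset.exists_max_image (cfaces T) (fun G => w G x)
      ⟨T, (mem_cfaces T T).2 hTT⟩
    exact ⟨G, hG, fun G' hG' => hmax G' hG'⟩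
  -- the chain of a point
  let Ch : (Fin n → ℝ) → Finset (Finset (Fin n → ℝ)) := fun x =>
    (cfaces T).filter fun G => G ≠ T ∧ x ∈ R G
  have hCh1 : ∀ x, ∀ G ∈ Ch x, IsCFace T G ∧ G ≠ T := by
    intro x G hG
    obtain ⟨h1, h2, _⟩ := Finset.mem_filter.1 hG
    exact ⟨(mem_cfaces T G).1 h1, h2⟩
  have hCh2 : ∀ x ∈ P, ∀ G ∈ Ch x, ∀ G' ∈ Ch x, G ⊆ G' ∨ G' ⊆ G := by
    intro x hx G hG G' hG'
    exact hwch G G' x hx (hpos x hx G (Finset.mem_filter.1 hG).2.2)
      (hpos x hx G' (Finset.mem_filter.1 hG').2.2)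
  let A0 : Set (Fin n → ℝ) := {x | ∀ A ∈ cfaces T, (∃ k, pure A k) → 2 * w A x ≤ w T x}
  let B : Finset (Fin n → ℝ) → Set (Fin n → ℝ) := fun A => {x | w T x ≤ 2 * w A x}
  have hA0cl : IsClosed A0 := by
    have : A0 = ⋂ A ∈ cfaces T, {x | (∃ k, pure A k) → 2 * w A x ≤ w T x} := by
      ext x; simp [A0]
    rw [this]
    refine isClosed_biInter fun A _ => ?_
    by_cases h2 : ∃ k, pure A k
    · simp only [h2, true_imp_iff]
      exact isClosed_le (continuous_const.mul (hwc A)) (hwc T)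
    · simp [h2]
  have hBcl : ∀ A, IsClosed (B A) := fun A =>
    isClosed_le (hwc T) (continuous_const.mul (hwc A))
  -- the family of pairs
  let J := {G // G ∈ cfaces T} ⊕ Unit ⊕ {G // G ∈ cfaces T}
  let RR : J → Set (Fin n → ℝ) := fun j => match j with
    | Sum.inl G => {x | G.1 ≠ T} ∩ R G.1
    | Sum.inr (Sum.inl _) => R T ∩ A0
    | Sum.inr (Sum.inr A) => {x | ∃ k, pure A.1 k} ∩ (R T ∩ B A.1)
  let CC : J → Set (Fin n → ℝ) := fun j => match j with
    | Sum.inl G => V G.1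
    | Sum.inr (Sum.inl _) => V T
    | Sum.inr (Sum.inr A) => {y | (∃ k, pure A.1 k) ∧ ∀ k, pure A.1 k → y ∈ K k}
  have key := sel_cover T RR CC (by
      rintro (G | _ | A)
      · exact IsClosed.inter isClosed_const (hRcl G.1)
      · exact (hRcl T).inter hA0cl
      · exact IsClosed.inter isClosed_const ((hRcl T).inter (hBcl A.1))) (by
      rintro (G | _ | A)
      · exact hV G.1 ((mem_cfaces T G.1).1 G.2)
      · exact hV T hTT
      · intro x hx y hy a b ha hb hab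
        exact ⟨hx.1, fun k hk => hK k (hx.2 k hk) (hy.2 k hk) ha hb hab⟩) (by
      intro x hx
      obtain ⟨G, hG, hGR⟩ := hex x hx
      by_cases hGT : G = T
      · subst hGT
        by_cases hA : x ∈ A0
        · exact ⟨Sum.inr (Sum.inl ()), hGR, hA⟩
        · have : ∃ A, ∃ _ : A ∈ cfaces G, (∃ k, pure A k) ∧ w G x < 2 * w A x := by
            by_contra hcon
            push Not at hcon
            exact hA fun A hA1 hk => hcon A hA1 hk
          obtain ⟨A, hA1, hA2, hA3⟩ := this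
          exact ⟨Sum.inr (Sum.inr ⟨A, hA1⟩), hA2, hGR, hA3.le⟩
      · exact ⟨Sum.inl ⟨G, hG⟩, hGT, hGR⟩) (by
      intro x hx
      by_cases hc0 : x ∈ R T
      · have hwT : 0 < w T x := hpos x hx T hc0
        have hfs : P ⊆ faceSet P x := (hwf T x hx hwT).2
        have hwmax : ∀ G ∈ Ch x, w G x = w T x := by
          intro G hG
          obtain ⟨h1, _, h2⟩ := Finset.mem_filter.1 hG
          exact le_antisymm (hc0 G h1) (h2 T ((mem_cfaces T T).2 hTT))
        have hcmp : ∀ A, w T x ≤ 2 * w A x → ∀ G ∈ Ch x, G ⊆ A ∨ A ⊆ G := by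
          intro A hA G hG
          exact hwch G A x hx (hpos x hx G (Finset.mem_filter.1 hG).2.2) (by linarith)
        have huniq : ∀ A A' k k', A ∈ cfaces T → A' ∈ cfaces T → w T x ≤ 2 * w A x →
            w T x ≤ 2 * w A' x → pure A k → pure A' k' → k = k' := by
          intro A A' k k' hA hA' hw hw' hp hp'
          have h1 : 0 < w A x := by linarith
          have h2 : 0 < w A' x := by linarith
          have h3 := (mem_cfaces T A).1 hA
          have h4 := (mem_cfaces T A').1 hA'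
          rcases hwch A A' x hx h1 h2 with h | h
          · exact pure_uniq A k k' h3 hp (pure_mono A' A k' h4 h3 h hp')
          · exact pure_uniq A' k k' h4 (pure_mono A A' k h3 h4 h hp) hp'
        by_cases hA : x ∈ A0
        · have hnp : ∀ G ∈ Ch x, ∀ k, ¬ pure G k := by
            intro G hG k hk
            have h1 := hA G (Finset.mem_filter.1 hG).1 ⟨k, hk⟩
            rw [hwmax G hG] at h1
            linarith
          have hnT : ∀ k, ¬ pure T k := by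
            intro k hk
            have h1 := hA T ((mem_cfaces T T).2 hTT) ⟨k, hk⟩
            linarith
          by_cases hB : ∃ A k, A ∈ cfaces T ∧ w T x ≤ 2 * w A x ∧ pure A k
          · obtain ⟨A, k, hA1, hA2, hA3⟩ := hB
            have hAT : A ≠ T := by
              rintro rfl
              exact hnT k hA3
            obtain ⟨y, hyP, hy1, hy2, hy3⟩ := H4 (Ch x) (hCh1 x) (hCh2 x hx) hnT hnp A k
              ((mem_cfaces T A).1 hA1) hAT hA3 (hcmp A hA2)
            refine ⟨y, hfs hyP, ?_⟩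
            rintro (G | _ | A') hj
            · exact hy3 G.1 (Finset.mem_filter.2 ⟨G.2, hj⟩)
            · exact hy1
            · refine ⟨hj.1, fun k' hk' => ?_⟩
              rw [huniq A'.1 A k' k A'.2 hA1 hj.2.2 hA2 hk' hA3]
              exact hy2
          · push Not at hB
            obtain ⟨y, hyP, hy1, hy3⟩ := H3 (Ch x) (hCh1 x) (hCh2 x hx) hnT hnp
            refine ⟨y, hfs hyP, ?_⟩
            rintro (G | _ | A') hj
            · exact hy3 G.1 (Finset.mem_filter.2 ⟨G.2, hj⟩)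
            · exact hy1
            · refine ⟨hj.1, fun k' hk' => ?_⟩
              exact absurd hk' (hB A'.1 k' A'.2 hj.2.2)
        · have hA' : ∃ A k, A ∈ cfaces T ∧ pure A k ∧ w T x < 2 * w A x := by
            by_contra hcon
            push Not at hcon
            exact hA fun A hA1 ⟨k, hk⟩ => hcon A k hA1 hk
          obtain ⟨A, k, hA1, hA3, hA2⟩ := hA'
          obtain ⟨y, hyP, hy2, hy3⟩ := H2 (Ch x) (hCh1 x) (hCh2 x hx) A k
            ((mem_cfaces T A).1 hA1) hA3 (hcmp A hA2.le)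
          refine ⟨y, hfs hyP, ?_⟩
          rintro (G | _ | A') hj
          · exact hy3 G.1 (Finset.mem_filter.2 ⟨G.2, hj⟩)
          · exact absurd hj.2 hA
          · refine ⟨hj.1, fun k' hk' => ?_⟩
            rw [huniq A'.1 A k' k A'.2 hA1 hj.2.2 hA2.le hk' hA3]
            exact hy2
      · obtain ⟨G, hG, hGR⟩ := hex x hx
        have hGT : G ≠ T := by
          rintro rfl
          exact hc0 hGR
        obtain ⟨G₁, hG₁, hmax⟩ := Finset.exists_max_image (Ch x) Finset.card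
          ⟨G, Finset.mem_filter.2 ⟨hG, hGT, hGR⟩⟩
        have hmax' : ∀ G' ∈ Ch x, G' ⊆ G₁ := by
          intro G' hG'
          rcases hCh2 x hx G' hG' G₁ hG₁ with h | h
          · exact h
          · rw [← Finset.eq_of_subset_of_card_le h (hmax G' hG')]
        obtain ⟨y, hy1, hy2⟩ := H1 (Ch x) (hCh1 x) (hCh2 x hx) G₁ hG₁ hmax'
        refine ⟨y, (hwf G₁ x hx (hpos x hx G₁ (Finset.mem_filter.1 hG₁).2.2)).2 hy1, ?_⟩
        rintro (G' | _ | A') hj
        · exact hy2 G'.1 (Finset.mem_filter.2 ⟨G'.2, hj⟩)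
        · exact absurd hj.1 hc0
        · exact absurd hj.2.1 hc0)
  obtain ⟨j, hj⟩ := Set.mem_iUnion.1 (key hc)
  rcases j with G | _ | A
  · exact Or.inl ⟨G.1, (mem_cfaces T G.1).1 G.2, hj⟩
  · exact Or.inl ⟨T, hTT, hj⟩
  · obtain ⟨k, hk⟩ := hj.1
    exact Or.inr ⟨A.1, k, (mem_cfaces T A.1).1 A.2, hk, hj.2 k hk⟩

end MP81308f
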