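import Pool.Agent.Lib.MP_81308f_co.Defs
import Pool.Agent.Lib.MP_81308f_co.Face
import Pool.Agent.Lib.MP_81308f_co.Round

/-!
# MP_81308f_co : definitions for the full answer (every edge has lattice length `≥ n - 1`)

`Zon`, `RB`, `GG` are in `Round.lean`.
-/

open scoped Pointwise BigOperators

namespace MP81308f

/-- Congruence modulo `l` of two points. -/
def Cong (n l : ℕ) (v w : Fin n → ℝ) : Prop := ∃ u ∈ Lat n, w - v = (l : ℝ) • u

/-- The class hull of `v`: the hull of all lattice points of `conv T` congruent to `v`. -/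
def KH {n : ℕ} (l : ℕ) (T : Finset (Fin n → ℝ)) (v : Fin n → ℝ) : Set (Fin n → ℝ) :=
  convexHull ℝ {x | x ∈ convexHull ℝ (T : Set (Fin n → ℝ)) ∧ x ∈ Lat n ∧ Cong n l v x}

/-- Standing assumptions: `T` is the set of vertices of a lattice polytope. -/
structure VPoly {n : ℕ} (T : Finset (Fin n → ℝ)) : Prop where
  ne : T.Nonempty
  lat : ∀ v ∈ T, v ∈ Lat n
  ext : ∀ v ∈ T, v ∈ (convexHull ℝ (T : Set (Fin n → ℝ))).extremePoints ℝ

/-- A finite chain of faces of `conv T`. -/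
def IsChainF {n : ℕ} (T : Finset (Fin n → ℝ)) (C : Finset (Finset (Fin n → ℝ))) : Prop :=
  (∀ A ∈ C, IsFace T A) ∧ ∀ A ∈ C, ∀ B ∈ C, A ⊆ B ∨ B ⊆ A

/-- `G_A` for a face `A` of `conv T`. -/
def GF {n : ℕ} (T : Finset (Fin n → ℝ)) (r : ℝ) (A : Finset (Fin n → ℝ)) :
    Set (Fin n → ℝ) :=
  GG (convexHull ℝ (A : Set (Fin n → ℝ))) (convexHull ℝ (T : Set (Fin n → ℝ)))
    (vectorSpan ℝ (A : Set (Fin n → ℝ))) r

end MP81308f
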