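import Pool.Agent.Lib.MP_81308f_co.Final
import Pool.Agent.Lib.MP_81308f_co.Round

/-!
# Final assembly: from the two main inputs to integral closedness
-/

open scoped Pointwise BigOperators

namespace MP81308f

/-- The class hull of `v` modulo `l` in `conv T`. -/
def KHull {n : ℕ} (l : ℕ) (T : Finset (Fin n → ℝ)) (v : Fin n → ℝ) : Set (Fin n → ℝ) :=
  convexHull ℝ {y | y ∈ convexHull ℝ (T : Set (Fin n → ℝ)) ∧ y ∈ Lat n ∧
    ∃ u ∈ Lat n, y - v = (l : ℝ) • u}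

/-- Statement of the theorem on multiples (`KQ.kq_class`). -/
def S_KQ : Prop := ∀ (n l : ℕ), n ≤ l + 1 → ∀ (T : Set (Fin n → ℝ)),
  T ⊆ (Lat n : Set (Fin n → ℝ)) →
  (∀ v ∈ T, ∀ w ∈ T, ∃ u ∈ Lat n, w - v = (l : ℝ) • u) → ∀ (r : ℕ), 1 ≤ r → ∀ c ∈ Lat n,
  c ∈ ((r : ℝ) + 1) • convexHull ℝ T →
  ∃ z ∈ Lat n, z ∈ convexHull ℝ T ∧ c - z ∈ (r : ℝ) • convexHull ℝ T

/-- Statement of the covering theorem for full-dimensional polytopes. -/
def S_Real : Prop := ∀ (n l : ℕ), n = l + 1 → 2 ≤ l → ∀ (T : Finset (Fin n → ℝ)), T.Nonempty →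
  (∀ v ∈ T, v ∈ Lat n) →
  (∀ v ∈ T, v ∈ (convexHull ℝ (T : Set (Fin n → ℝ))).extremePoints ℝ) →
  dim T = n → LongEdges (l : ℝ) T →
  ¬ (∀ v ∈ T, ∀ w ∈ T, ∃ u ∈ Lat n, w - v = (l : ℝ) • u) →
  ∀ (r : ℕ), 1 ≤ r → ∀ x ∈ convexHull ℝ (T : Set (Fin n → ℝ)),
    (∃ A, IsFace T A ∧ ((r : ℝ) + 1) • x ∈ GG (convexHull ℝ (A : Set (Fin n → ℝ)))
      (convexHull ℝ (T : Set (Fin n → ℝ))) (vectorSpan ℝ (A : Set (Fin n → ℝ))) r) ∨
    (∃ v ∈ T, x ∈ KHull l T v)

/-- Every lattice point of a multiple splits off a lattice point. -/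
def Splits {n : ℕ} (P : Set (Fin n → ℝ)) : Prop :=
  ∀ r : ℕ, 1 ≤ r → ∀ c ∈ Lat n, c ∈ ((r : ℝ) + 1) • P →
    ∃ z ∈ Lat n, z ∈ P ∧ c - z ∈ (r : ℝ) • P

theorem splits_closed {n : ℕ} {P : Set (Fin n → ℝ)} (hP : Convex ℝ P) (h : Splits P) :
    IsIntegrallyClosed P := by
  intro r hr
  have hr1 : (1 : ℝ) ≤ r := by exact_mod_cast hr
  apply Set.Subset.antisymm
  · rintro _ ⟨x, ⟨hx, hxL⟩, y, ⟨hy, hyL⟩, rfl⟩
    refine ⟨?_, (Lat n).add_mem hxL hyL⟩
    rw [add_comm (r : ℝ) 1, hP.add_smul (by norm_num) (by linarith), one_smul]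
    exact Set.add_mem_add hx hy
  · rintro c ⟨hc, hcL⟩
    obtain ⟨z, hz, hzP, hcz⟩ := h r hr c hcL hc
    exact Set.mem_add.2 ⟨z, ⟨hzP, hz⟩, c - z, ⟨hcz, (Lat n).sub_mem hcL hz⟩, by simp⟩

theorem full_longEdges {n l : ℕ} (S : Finset (Fin n → ℝ)) (hS : ∀ v ∈ S, v ∈ latticePts n)
    (hL : l ≤ latticeLength (convexHull ℝ (S : Set (Fin n → ℝ)))) (hl : 1 ≤ l) :
    LongEdges (l : ℝ) S := by
  intro a ha b hb hab
  have h1 : latticeLength (convexHull ℝ (S : Set (Fin n → ℝ))) ≤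
      (segment ℝ a b ∩ latticePts n).ncard - 1 :=
    Nat.sInf_le ⟨segment ℝ a b, ⟨a, b, hab.1, rfl, hab.2⟩, rfl⟩
  have h2 : l + 1 ≤ (segment ℝ a b ∩ (Lat n : Set (Fin n → ℝ))).ncard := by
    have h3 : (segment ℝ a b ∩ latticePts n) = (segment ℝ a b ∩ (Lat n : Set (Fin n → ℝ))) := rfl
    rw [h3] at h1
    omega
  exact seg_long a b (hS a ha) (hS b hb) hab.1 l h2

theorem full_vertices {n : ℕ} (S : Finset (Fin n → ℝ)) (hS : S.Nonempty) :
    ∃ T ⊆ S, T.Nonempty ∧ convexHull ℝ (T : Set (Fin n → ℝ)) = convexHull ℝ (S : Set (Fin n → ℝ)) ∧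
      ∀ v ∈ T, v ∈ (convexHull ℝ (T : Set (Fin n → ℝ))).extremePoints ℝ := by
  classical
  set P := convexHull ℝ (S : Set (Fin n → ℝ)) with hP
  have hcomp : IsCompact P := S.finite_toSet.isCompact_convexHull (𝕜 := ℝ)
  have hconv : Convex ℝ P := convex_convexHull ℝ _
  set T := S.filter (fun v => v ∈ P.extremePoints ℝ) with hT
  have hTe : (T : Set (Fin n → ℝ)) = P.extremePoints ℝ := by
    ext v
    rw [hT, Finset.coe_filter, Set.mem_ofPred_eq]
    constructor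
    · exact fun h => h.2
    · intro h
      exact ⟨extremePoints_convexHull_subset h, h⟩
  have hTP : convexHull ℝ (T : Set (Fin n → ℝ)) = P := by
    have h1 := closure_convexHull_extremePoints hcomp hconv
    rw [← hTe, (T.finite_toSet.isClosed_convexHull (𝕜 := ℝ)).closure_eq] at h1
    exact h1
  refine ⟨T, Finset.filter_subset _ _, ?_, hTP, ?_⟩
  · have : (convexHull ℝ (T : Set (Fin n → ℝ))).Nonempty := by
      rw [hTP]
      exact convexHull_nonempty_iff.2 (Finset.coe_nonempty.2 hS)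
    exact Finset.coe_nonempty.1 (convexHull_nonempty_iff.1 this)
  · intro v hv
    rw [hTP]
    exact (Finset.mem_filter.1 hv).2

/-- The low-dimensional case, from the theorem for edges of length at least the dimension. -/
theorem full_low {n : ℕ} (l : ℕ) (hl : 1 ≤ l) (T : Finset (Fin n → ℝ)) (hT : T.Nonempty)
    (hTL : ∀ v ∈ T, v ∈ Lat n) (hE : LongEdges (l : ℝ) T) (hd : dim T ≤ l) :
    Splits (convexHull ℝ (T : Set (Fin n → ℝ))) := by
  intro r hr c hcL hc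
  set P := convexHull ℝ (T : Set (Fin n → ℝ)) with hPdef
  have hconv : Convex ℝ P := convex_convexHull ℝ _
  have hr1 : (1 : ℝ) ≤ r := by exact_mod_cast hr
  have hl1 : (1 : ℝ) ≤ l := by exact_mod_cast hl
  have hdl : (dim T : ℝ) ≤ l := by exact_mod_cast hd
  obtain ⟨x, hx, rfl⟩ := hc
  obtain ⟨z, hz, hzP, hz2⟩ := main_real (l : ℝ) (by linarith) T hT hTL hE hdl 2
    (by norm_num) (by
      have : (dim T : ℝ) / l ≤ 1 := (div_le_one (by linarith)).2 hdl
      linarith) ((2 : ℝ) • x) (Set.smul_mem_smul_set hx)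
  have h21 : ((2 : ℝ) - 1) = 1 := by norm_num
  rw [h21, one_smul] at hz2
  refine ⟨z, hz, hzP, ?_⟩
  have hsplit : ((r : ℝ) + 1) • x - z = ((2 : ℝ) • x - z) + ((r : ℝ) - 1) • x := by
    have : ((r : ℝ) + 1) • x = (2 : ℝ) • x + ((r : ℝ) - 1) • x := by
      rw [← add_smul]; congr 1; ring
    rw [this]; abel
  show ((r : ℝ) + 1) • x - z ∈ (r : ℝ) • P
  rw [hsplit]
  have hr2 : (r : ℝ) = 1 + (r - 1) := by ring
  rw [hr2, hconv.add_smul (by norm_num) (by linarith), one_smul]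
  have : (1 : ℝ) + (r - 1) - 1 = r - 1 := by ring
  rw [this]
  exact Set.add_mem_add hz2 (Set.smul_mem_smul_set hx)

theorem khull_subset {n : ℕ} (l : ℕ) (T : Finset (Fin n → ℝ)) (v : Fin n → ℝ) :
    KHull l T v ⊆ convexHull ℝ (T : Set (Fin n → ℝ)) :=
  convexHull_min (fun _ hy => hy.1) (convex_convexHull ℝ _)

theorem full_main (hKQ : S_KQ) (hReal : S_Real) {n : ℕ} (P : Set (Fin n → ℝ))
    (hP : IsLatticePolytope P) (hL : n - 1 ≤ latticeLength P) : IsIntegrallyClosed P := by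
  obtain ⟨S, hSne, hS, rfl⟩ := hP
  obtain ⟨T, hTS, hTne, hTP, hText⟩ := full_vertices S hSne
  rw [← hTP] at hL ⊢
  have hTL : ∀ v ∈ T, v ∈ Lat n := fun v hv => hS v (hTS hv)
  refine splits_closed (convex_convexHull ℝ _) ?_
  rcases Nat.lt_or_ge n 3 with hn | hn
  · -- `n ≤ 2`
    intro r hr c hcL hc
    refine hKQ n 1 (by omega) (T : Set (Fin n → ℝ)) (fun v hv => hTL v hv) ?_ r hr c hcL hc
    intro v hv w hw
    exact ⟨w - v, (Lat n).sub_mem (hTL w hw) (hTL v hv), by simp⟩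
  · obtain ⟨l, rfl⟩ : ∃ l, n = l + 1 := ⟨n - 1, by omega⟩
    have hl2 : 2 ≤ l := by omega
    have hLE : LongEdges (l : ℝ) T :=
      full_longEdges T (fun v hv => hTL v hv) (by simpa using hL) (by omega)
    by_cases hcong : ∀ v ∈ T, ∀ w ∈ T, ∃ u ∈ Lat (l + 1), w - v = (l : ℝ) • u
    · intro r hr c hcL hc
      exact hKQ (l + 1) l le_rfl (T : Set (Fin (l + 1) → ℝ)) (fun v hv => hTL v hv) hcong
        r hr c hcL hc
    · by_cases hd : dim T ≤ l
      · exact full_low l (by omega) T hTne hTL hLE hd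
      · have hdim : dim T = l + 1 := by
          have : dim T ≤ l + 1 := by
            unfold dim
            have := Submodule.finrank_le (vectorSpan ℝ (T : Set (Fin (l + 1) → ℝ)))
            simpa using this
          omega
        intro r hr c hcL hc
        obtain ⟨x, hx, rfl⟩ := hc
        rcases hReal (l + 1) l rfl hl2 T hTne hTL hText hdim hLE hcong r hr x hx with
          ⟨A, hA, hG⟩ | ⟨v, hv, hxv⟩
        · obtain ⟨z0, hz0⟩ := hA.2.1
          obtain ⟨z, hz, hzA, -, hcz⟩ := GG_decomp _ _ _ _ z0 (hTL z0 (hA.1 hz0))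
            (fun y hy => by
              have h1 : y ∈ affineSpan ℝ (A : Set (Fin (l + 1) → ℝ)) :=
                convexHull_subset_affineSpan _ hy
              have h2 : z0 ∈ affineSpan ℝ (A : Set (Fin (l + 1) → ℝ)) :=
                subset_affineSpan ℝ _ (Finset.mem_coe.2 hz0)
              have h3 := AffineSubspace.vsub_mem_direction h1 h2
              rwa [direction_affineSpan] at h3) _ hG hcL
          exact ⟨z, hz, convexHull_mono (Finset.coe_subset.2 hA.1) hzA, hcz⟩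
        · obtain ⟨z, hz, hzK, hcz⟩ := hKQ (l + 1) l le_rfl
            {y | y ∈ convexHull ℝ (T : Set (Fin (l + 1) → ℝ)) ∧ y ∈ Lat (l + 1) ∧
              ∃ u ∈ Lat (l + 1), y - v = (l : ℝ) • u} (fun y hy => hy.2.1)
            (by
              rintro y ⟨-, -, u, hu, huy⟩ y' ⟨-, -, u', hu', huy'⟩
              refine ⟨u' - u, (Lat (l + 1)).sub_mem hu' hu, ?_⟩
              rw [smul_sub, ← huy, ← huy']
              abel) r hr (((r : ℝ) + 1) • x) hcL (Set.smul_mem_smul_set hxv)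
          exact ⟨z, hz, khull_subset l T v hzK, Set.smul_set_mono (khull_subset l T v) hcz⟩

end MP81308f
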