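import Pool.Agent.Lib.MP_81308f_co.Defs

/-!
# MP_81308f_co : the planar lemma, coordinate part
-/

open scoped Pointwise BigOperators

namespace MP81308f

/-- a convex set containing `v`, `v + m u`, `v + m' u'` contains the points `v + X u + Y u'` with
`X, Y ≥ 0` and `X/m + Y/m' ≤ 1`. -/
theorem par_mem_triangle {n : ℕ} {K : Set (Fin n → ℝ)} (hK : Convex ℝ K) {v u u' : Fin n → ℝ}
    {m m' : ℝ} (hm : 0 < m) (hm' : 0 < m') (hv : v ∈ K) (hw : v + m • u ∈ K)
    (hw' : v + m' • u' ∈ K) {X Y : ℝ} (hX : 0 ≤ X) (hY : 0 ≤ Y) (hXY : X / m + Y / m' ≤ 1) :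
    v + X • u + Y • u' ∈ K := by
  have h1 : 0 ≤ X / m := by positivity
  have h2 : 0 ≤ Y / m' := by positivity
  have h := hK.sum_mem (t := (Finset.univ : Finset (Fin 3)))
    (w := ![1 - X / m - Y / m', X / m, Y / m']) (z := ![v, v + m • u, v + m' • u'])
    (by
      intro i _
      fin_cases i
      · simp only [Fin.zero_eta, Matrix.cons_val_zero]; linarith
      · simpa using h1
      · simpa using h2)
    (by simp only [Fin.sum_univ_three, Matrix.cons_val]; ring)
    (by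
      intro i _
      fin_cases i
      · simpa using hv
      · simpa using hw
      · simpa using hw')
  have h3 : ∑ i : Fin 3, (![1 - X / m - Y / m', X / m, Y / m'] i) •
      (![v, v + m • u, v + m' • u'] i) = v + X • u + Y • u' := by
    simp only [Fin.sum_univ_three, Matrix.cons_val_zero, Matrix.cons_val_one,
      Matrix.cons_val_two, Matrix.head_cons, Matrix.tail_cons, Matrix.cons_val]
    match_scalars <;> field_simp <;> ring
  rw [← h3]
  exact h

/-- Case A: a lattice vector of the plane which is not an integral combination of `u`, `u'`. -/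
theorem par_caseA {n : ℕ} (l : ℕ) (hl : 2 ≤ l) {u u' : Fin n → ℝ}
    (hu : u ∈ Lat n) (hu' : u' ∈ Lat n)
    (hpu : ∀ t : ℝ, t • u ∈ Lat n → ∃ j : ℤ, t = j)
    (hpu' : ∀ t : ℝ, t • u' ∈ Lat n → ∃ j : ℤ, t = j)
    {m m' : ℝ} (hm : (l : ℝ) + 1 ≤ m) (hm' : (l : ℝ) ≤ m')
    {K : Set (Fin n → ℝ)} (hK : Convex ℝ K) {v : Fin n → ℝ} (hv : v ∈ K)
    (hw : v + m • u ∈ K) (hw' : v + m' • u' ∈ K)
    {α α' : ℝ} (hg : α • u + α' • u' ∈ Lat n)
    (hni : ¬ ((∃ j : ℤ, α = j) ∧ ∃ j : ℤ, α' = j)) :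
    ∃ a a' : ℝ, a' ≠ 0 ∧ a • u + a' • u' ∈ Lat n ∧ ∃ e : ℝ, 0 ≤ e ∧ e + 1 ≤ m ∧
      (∀ s t : ℝ, 0 ≤ s → s ≤ 1 → 0 ≤ t → t ≤ 1 →
        v + (e + s) • u + (t * l) • (a • u + a' • u') ∈ K) ∧
      ∃ X Y : ℝ, 0 ≤ X ∧ 0 ≤ Y ∧ X + Y ≤ l ∧
        v + (e + 1 / 2) • u + ((l : ℝ) / 2) • (a • u + a' • u') = v + X • u + Y • u' := by
  have hl' : (2 : ℝ) ≤ l := by exact_mod_cast hl
  have hz : ∀ (k : ℤ) (x : Fin n → ℝ), x ∈ Lat n → (k : ℝ) • x ∈ Lat n := by
    intro k x hx
    have := (Lat n).zsmul_mem hx k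
    rwa [← Int.cast_smul_eq_zsmul ℝ] at this
  -- fractional parts
  obtain ⟨b, b', hb0, hb1, hb0', hb1', hbL⟩ : ∃ b b' : ℝ, 0 < b ∧ b < 1 ∧ 0 < b' ∧ b' < 1 ∧
      b • u + b' • u' ∈ Lat n := by
    have hL : Int.fract α • u + Int.fract α' • u' ∈ Lat n := by
      have h1 := (Lat n).sub_mem hg ((Lat n).add_mem (hz ⌊α⌋ u hu) (hz ⌊α'⌋ u' hu'))
      have h2 : α • u + α' • u' - ((⌊α⌋ : ℝ) • u + (⌊α'⌋ : ℝ) • u') =
          Int.fract α • u + Int.fract α' • u' := by
        unfold Int.fract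
        module
      rwa [h2] at h1
    have hne : Int.fract α ≠ 0 ∨ Int.fract α' ≠ 0 := by
      by_contra hcon
      push Not at hcon
      apply hni
      refine ⟨⟨⌊α⌋, ?_⟩, ⟨⌊α'⌋, ?_⟩⟩
      · have := Int.fract_add_floor α
        linarith [hcon.1]
      · have := Int.fract_add_floor α'
        linarith [hcon.2]
    have hfr : ∀ x : ℝ, (∃ j : ℤ, Int.fract x = j) → Int.fract x = 0 := by
      rintro x ⟨j, hj⟩
      have h0 := Int.fract_nonneg x
      have h1 := Int.fract_lt_one x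
      rw [hj] at h0 h1 ⊢
      have h0' : 0 ≤ j := by exact_mod_cast h0
      have h1' : j < 1 := by exact_mod_cast h1
      have : j = 0 := by omega
      rw [this]
      simp
    have h1 : Int.fract α ≠ 0 := by
      intro h0
      rcases hne with h | h
      · exact h h0
      · rw [h0, zero_smul, zero_add] at hL
        exact h (hfr _ (hpu' _ hL))
    have h2 : Int.fract α' ≠ 0 := by
      intro h0
      rcases hne with h | h
      · rw [h0, zero_smul, add_zero] at hL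
        exact h (hfr _ (hpu _ hL))
      · exact h h0
    exact ⟨Int.fract α, Int.fract α', lt_of_le_of_ne (Int.fract_nonneg _) (Ne.symm h1),
      Int.fract_lt_one _, lt_of_le_of_ne (Int.fract_nonneg _) (Ne.symm h2),
      Int.fract_lt_one _, hL⟩
  -- one may assume `b' ≤ 1/2`
  obtain ⟨b, b', hb0, hb1, hb0', hb1', hbL⟩ : ∃ b b' : ℝ, 0 < b ∧ b < 1 ∧ 0 < b' ∧ b' ≤ 1 / 2 ∧
      b • u + b' • u' ∈ Lat n := by
    rcases le_or_gt b' (1 / 2) with h | h
    · exact ⟨b, b', hb0, hb1, hb0', h, hbL⟩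
    · refine ⟨1 - b, 1 - b', by linarith, by linarith, by linarith, by linarith, ?_⟩
      have h1 := (Lat n).sub_mem ((Lat n).add_mem hu hu') hbL
      have h2 : u + u' - (b • u + b' • u') = (1 - b) • u + (1 - b') • u' := by module
      rwa [h2] at h1
  have hmpos : 0 < m := by linarith
  have hmpos' : 0 < m' := by linarith
  refine ⟨b - 1, b', hb0'.ne', ?_, (l : ℝ) * (1 - b), by nlinarith, by nlinarith, ?_, ?_⟩
  · have h1 := (Lat n).sub_mem hbL hu
    have h2 : b • u + b' • u' - u = (b - 1) • u + b' • u' := by module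
    rwa [h2] at h1
  · intro s t hs0 hs1 ht0 ht1
    have h1 : v + ((l : ℝ) * (1 - b) + s) • u + (t * l) • ((b - 1) • u + b' • u') =
        v + ((l : ℝ) * (1 - b) * (1 - t) + s) • u + (t * l * b') • u' := by module
    rw [h1]
    have hX0 : 0 ≤ (l : ℝ) * (1 - b) * (1 - t) + s := by
      have : 0 ≤ (l : ℝ) * (1 - b) * (1 - t) :=
        mul_nonneg (mul_nonneg (by linarith) (by linarith)) (by linarith)
      linarith
    have hY0 : 0 ≤ t * l * b' := by positivity
    refine par_mem_triangle hK hmpos hmpos' hv hw hw' hX0 hY0 ?_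
    have h2 : ((l : ℝ) * (1 - b) * (1 - t) + s) / m ≤ 1 - t / 2 := by
      rw [div_le_iff₀ hmpos]
      have h3 : (l : ℝ) * (1 - b) * (1 - t) ≤ l * (1 - t) := by
        have : 0 ≤ (l : ℝ) * b * (1 - t) :=
          mul_nonneg (mul_nonneg (by linarith) hb0.le) (by linarith)
        nlinarith
      have h4 : (1 - t / 2) * ((l : ℝ) + 1) ≤ (1 - t / 2) * m :=
        mul_le_mul_of_nonneg_left hm (by linarith)
      have h5 : (l : ℝ) * (1 - t) + 1 ≤ (1 - t / 2) * ((l : ℝ) + 1) := by nlinarith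
      linarith
    have h3 : t * l * b' / m' ≤ t / 2 := by
      rw [div_le_iff₀ hmpos']
      have h4 : t * l * b' ≤ t * l * (1 / 2) := mul_le_mul_of_nonneg_left hb1' (by positivity)
      have h5 : t / 2 * (l : ℝ) ≤ t / 2 * m' := mul_le_mul_of_nonneg_left hm' (by linarith)
      linarith
    linarith
  · refine ⟨(l : ℝ) * (1 - b) / 2 + 1 / 2, (l : ℝ) / 2 * b', ?_, by positivity, ?_, by module⟩
    · have : 0 ≤ (l : ℝ) * (1 - b) := mul_nonneg (by linarith) (by linarith)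
      linarith
    · have h1 : (l : ℝ) * (1 - b) ≤ l := by nlinarith
      have h2 : (l : ℝ) / 2 * b' ≤ (l : ℝ) / 2 * (1 / 2) :=
        mul_le_mul_of_nonneg_left hb1' (by positivity)
      linarith

/-- Case B: the point `v + u + l u'` is in `K`. -/
theorem par_caseB {n : ℕ} (l : ℕ) (hl : 1 ≤ l) {u u' : Fin n → ℝ}
    {m m' : ℝ} (hm : (l : ℝ) ≤ m) (hm' : (l : ℝ) ≤ m')
    {K : Set (Fin n → ℝ)} (hK : Convex ℝ K) {v : Fin n → ℝ} (hv : v ∈ K)
    (hw : v + m • u ∈ K) (hw' : v + m' • u' ∈ K) (hq : v + (1 : ℝ) • u + (l : ℝ) • u' ∈ K) :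
    ∀ s t : ℝ, 0 ≤ s → s ≤ 1 → 0 ≤ t → t ≤ 1 →
        v + (0 + s) • u + (t * l) • u' ∈ K := by
  have hl' : (1 : ℝ) ≤ l := by exact_mod_cast hl
  have h10 : v + (1 : ℝ) • u + (0 : ℝ) • u' ∈ K :=
    par_mem_triangle hK (by linarith) (by linarith) hv hw hw' zero_le_one le_rfl (by
      rw [zero_div, add_zero, div_le_one (by linarith)]; linarith)
  have h0l : v + (0 : ℝ) • u + (l : ℝ) • u' ∈ K :=
    par_mem_triangle hK (by linarith) (by linarith) hv hw hw' le_rfl (by linarith) (by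
      rw [zero_div, zero_add, div_le_one (by linarith)]; linarith)
  intro s t hs0 hs1 ht0 ht1
  have h := hK.sum_mem (t := (Finset.univ : Finset (Fin 4)))
    (w := ![(1 - s) * (1 - t), s * (1 - t), (1 - s) * t, s * t])
    (z := ![v, v + (1 : ℝ) • u + (0 : ℝ) • u', v + (0 : ℝ) • u + (l : ℝ) • u',
      v + (1 : ℝ) • u + (l : ℝ) • u'])
    (by
      intro i _
      have hs' : 0 ≤ 1 - s := by linarith
      have ht' : 0 ≤ 1 - t := by linarith
      fin_cases i
      · simpa using mul_nonneg hs' ht'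
      · simpa using mul_nonneg hs0 ht'
      · simpa using mul_nonneg hs' ht0
      · simpa using mul_nonneg hs0 ht0)
    (by simp only [Fin.sum_univ_four, Matrix.cons_val]; ring)
    (by
      intro i _
      fin_cases i
      · simpa using hv
      · simpa using h10
      · simpa using h0l
      · simpa using hq)
  have h3 : ∑ i : Fin 4, (![(1 - s) * (1 - t), s * (1 - t), (1 - s) * t, s * t] i) •
      (![v, v + (1 : ℝ) • u + (0 : ℝ) • u', v + (0 : ℝ) • u + (l : ℝ) • u',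
        v + (1 : ℝ) • u + (l : ℝ) • u'] i) = v + (0 + s) • u + (t * l) • u' := by
    simp only [Fin.sum_univ_four, Matrix.cons_val]
    module
  rw [← h3]
  exact h

end MP81308f
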