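import Pool.Agent.Lib.MP_81308f_co.Full.Spec
import Pool.Agent.Lib.MP_81308f_co.Full.Par1

/-!
# MP_81308f_co : the two-dimensional lemma, the integral case
-/

open scoped Pointwise BigOperators

namespace MP81308f

/-- The lattice length of an edge with respect to its primitive vector. -/
theorem par_len {n : ℕ} {l : ℕ} (hl : 1 ≤ l) {T : Finset (Fin n → ℝ)} (hL : LongEdges (l : ℝ) T)
    {a b : Fin n → ℝ} (ha : a ∈ T) (hb : b ∈ T) (he : IsEdge T a b) {u : Fin n → ℝ} {m : ℕ}
    (hm : 0 < m) (hba : b - a = (m : ℝ) • u)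
    (hpu : ∀ k : ℝ, k • u ∈ Lat n → ∃ j : ℤ, k = j) : l ≤ m := by
  obtain ⟨k, hk, u1, hu1, hbk⟩ := hL a ha b hb he
  have hl' : (1 : ℝ) ≤ l := by exact_mod_cast hl
  have hk0 : 0 < k := by linarith
  have hm0 : (0 : ℝ) < m := by exact_mod_cast hm
  have h1 : u1 = ((m : ℝ) / k) • u := by
    have h2 : k • u1 = (m : ℝ) • u := by rw [← hbk, hba]
    rw [div_eq_inv_mul, ← smul_smul, ← h2, smul_smul, inv_mul_cancel₀ hk0.ne', one_smul]
  rw [h1] at hu1
  obtain ⟨j, hj⟩ := hpu _ hu1
  have hj0 : (0 : ℝ) < j := by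
    rw [← hj]
    positivity
  have hj0' : 0 < j := by exact_mod_cast hj0
  have hj1 : (1 : ℝ) ≤ j := by exact_mod_cast hj0'
  have h3 : (m : ℝ) = j * k := by
    rw [← hj, div_mul_cancel₀ _ hk0.ne']
  have h4 : (l : ℝ) ≤ m := by
    rw [h3]
    nlinarith
  exact_mod_cast h4

/-- `KH` contains the truncated corner in direction `u`. -/
theorem par_KH {n : ℕ} {l : ℕ} {T : Finset (Fin n → ℝ)} {v u : Fin n → ℝ}
    (hv : v ∈ Lat n) (hvT : v ∈ convexHull ℝ (T : Set (Fin n → ℝ))) (hu : u ∈ Lat n) {m : ℝ}
    (hm : (l : ℝ) ≤ m) (hm0 : 0 < m) (hw : v + m • u ∈ convexHull ℝ (T : Set (Fin n → ℝ))) :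
    v + (l : ℝ) • u ∈ KH l T v := by
  refine subset_convexHull ℝ _ ⟨?_, ?_, u, hu, by simp⟩
  · have h := (convex_convexHull ℝ (T : Set (Fin n → ℝ))) hvT hw
      (show 0 ≤ 1 - (l : ℝ) / m by rw [sub_nonneg, div_le_one hm0]; exact hm)
      (show 0 ≤ (l : ℝ) / m by positivity) (by ring)
    have h2 : (1 - (l : ℝ) / m) • v + ((l : ℝ) / m) • (v + m • u) = v + (l : ℝ) • u := by
      match_scalars <;> field_simp
      ring
    rwa [h2] at h
  · have h3 := (Lat n).nsmul_mem hu l
    rw [← Nat.cast_smul_eq_nsmul ℝ] at h3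
    exact (Lat n).add_mem hv h3

/-- The point `v + u + l u'` lies in the 2-face when all lattice vectors of its plane are integral
combinations of `u` and `u'`. -/
theorem par_caseC (hCone : S_Cone2) {n l : ℕ} (hl : 2 ≤ l) {T : Finset (Fin n → ℝ)}
    (hT : VPoly T) (hL : LongEdges (l : ℝ) T) {A : Finset (Fin n → ℝ)} (hA : IsFace T A)
    (hd : dim A = 2) {v w w' u u' : Fin n → ℝ} (hv : v ∈ A) (hw : w ∈ A) (hw' : w' ∈ A)
    (he' : IsEdge T v w') (hnc : ¬ Cong n l v w) {m m' : ℕ} (hm : l + 1 ≤ m) (hm' : l ≤ m')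
    (hwv : w - v = (m : ℝ) • u) (hwv' : w' - v = (m' : ℝ) • u') (hu : u ∈ Lat n)
    (hind : LinearIndependent ℝ ![u, u'])
    (hcone : ∀ p ∈ A, ∃ x y : ℝ, 0 ≤ x ∧ 0 ≤ y ∧ p - v = x • (w - v) + y • (w' - v))
    (hB : ∀ α α' : ℝ, α • u + α' • u' ∈ Lat n → (∃ j : ℤ, α = j) ∧ ∃ j : ℤ, α' = j) :
    v + (1 : ℝ) • u + (l : ℝ) • u' ∈ convexHull ℝ (A : Set (Fin n → ℝ)) := by
  set K := convexHull ℝ (A : Set (Fin n → ℝ)) with hKdef
  have hK : Convex ℝ K := convex_convexHull ℝ _
  have hAK : ∀ p ∈ A, p ∈ K := fun p hp => subset_convexHull ℝ _ hp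
  have hl' : (2 : ℝ) ≤ l := by exact_mod_cast hl
  have hmR : (l : ℝ) + 1 ≤ m := by exact_mod_cast hm
  have hmR' : (l : ℝ) ≤ m' := by exact_mod_cast hm'
  have hwe : w = v + (m : ℝ) • u := by rw [← hwv]; abel
  have hwe' : w' = v + (m' : ℝ) • u' := by rw [← hwv']; abel
  have hcoord : ∀ a b : ℝ, a • u + b • u' = 0 → a = 0 ∧ b = 0 := by
    intro a b hab
    have h := (LinearIndependent.pair_iff.1 hind) a b hab
    exact h
  rcases Nat.lt_or_ge l m' with hlt | hge
  · have hm1 : (l : ℝ) + 1 ≤ m' := by exact_mod_cast hlt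
    refine par_mem_triangle hK (by linarith) (by linarith) (hAK v hv)
      (hwe ▸ hAK w hw) (hwe' ▸ hAK w' hw') zero_le_one (by linarith) ?_
    have h1 : (1 : ℝ) / m ≤ 1 / (l + 1) := one_div_le_one_div_of_le (by linarith) hmR
    have h2 : (l : ℝ) / m' ≤ l / (l + 1) := div_le_div_of_nonneg_left (by linarith)
      (by linarith) hm1
    have h3 : (1 : ℝ) / (l + 1) + l / (l + 1) = 1 := by
      field_simp
      ring
    linarith
  · have hml : m' = l := le_antisymm hge hm'
    subst hml
    -- the other edge at `w'`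
    have he'' : IsEdge T w' v := ⟨he'.1.symm, by rw [segment_symm]; exact he'.2⟩
    obtain ⟨p, hp, hep, hindp, -⟩ := hCone n T hT A hA hd w' hw' v hv he''
    have hA' := hA.1
    obtain ⟨k, hk, u2, hu2, hpk⟩ := hL w' (hA' hw') p (hA' hp) hep
    have hk0 : 0 < k := by linarith
    obtain ⟨x, y, hx, hy, hpxy⟩ := hcone p hp
    have hu2e : u2 = (x * m / k) • u + ((y * m' - m') / k) • u' := by
      have h1 : k • u2 = (x * m) • u + (y * m' - m') • u' := by
        rw [← hpk]
        have h2 : p - w' = (p - v) - (w' - v) := by abel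
        rw [h2, hpxy, hwv, hwv']
        module
      have h3 : u2 = k⁻¹ • (k • u2) := by rw [smul_smul, inv_mul_cancel₀ hk0.ne', one_smul]
      rw [h3, h1]
      match_scalars <;> field_simp
    have hu2' := hu2
    rw [hu2e] at hu2'
    obtain ⟨⟨d1, hd1⟩, ⟨d2, hd2⟩⟩ := hB _ _ hu2'
    have hx1 : x * m = k * d1 := by rw [← hd1]; field_simp
    have hy1 : y * m' = m' + k * d2 := by
      rw [← hd2]
      field_simp
      ring
    have hd10 : (0 : ℝ) ≤ d1 := by rw [← hd1]; positivity
    have hd1ne : d1 ≠ 0 := by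
      intro h0
      rw [h0] at hx1
      have hx0 : x * m = 0 := by rw [hx1]; simp
      have h2 : p - w' = (y * m' - m') • u' := by
        have h3 : p - w' = (p - v) - (w' - v) := by abel
        rw [h3, hpxy, hwv, hwv', smul_smul, smul_smul, hx0]
        module
      have h4 : v - w' = (-(m' : ℝ)) • u' := by
        have h5 : v - w' = -(w' - v) := by abel
        rw [h5, hwv', neg_smul]
      have h6 := (LinearIndependent.pair_iff.1 hindp) (y * m' - m') (m') (by
        rw [h2, h4]
        module)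
      have h7 := h6.2
      linarith
    have hd1' : 1 ≤ d1 := by
      have h1 : (0 : ℤ) ≤ d1 := by exact_mod_cast hd10
      omega
    have hd1R : (1 : ℝ) ≤ d1 := by exact_mod_cast hd1'
    have hpe : p = v + (k * d1) • u + (m' + k * d2) • u' := by
      have h1 : p = v + (p - v) := by abel
      rw [h1, hpxy, hwv, hwv', smul_smul, smul_smul, hx1, hy1, add_assoc]
    have hkd1 : (m' : ℝ) ≤ k * d1 := by nlinarith
    rcases lt_trichotomy d2 0 with hneg | hzero | hpos
    · -- impossible case
      exfalso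
      have hd2' : d2 ≤ -1 := by omega
      have hd2R : (d2 : ℝ) ≤ -1 := by exact_mod_cast hd2'
      have hge0 : 0 ≤ (m' : ℝ) + k * d2 := by rw [← hy1]; positivity
      have hk2 : k * d2 ≤ -k := by nlinarith
      have hkm : k = m' := by linarith
      have h0 : (m' : ℝ) + k * d2 = 0 := by
        have : (m' : ℝ) + k * d2 ≤ 0 := by linarith
        linarith
      rw [h0, zero_smul, add_zero, hkm] at hpe
      have hpT : p ∈ T := hA' hp
      have hvT : v ∈ T := hA' hv
      have hwT : w ∈ T := hA' hw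
      have hTK : ∀ q ∈ T, q ∈ convexHull ℝ (T : Set (Fin n → ℝ)) :=
        fun q hq => subset_convexHull ℝ _ hq
      have hu0 : u ≠ 0 := by
        intro hu0
        have := hcoord 1 0 (by rw [hu0]; simp)
        exact one_ne_zero this.1
      set X : ℝ := (m' : ℝ) * d1 with hX
      have hXpos : 0 < X := by nlinarith
      have hmpos : (0 : ℝ) < m := by linarith
      rcases lt_trichotomy X m with hlt | heq | hgt
      · have h1 : p ∈ openSegment ℝ v w := by
          refine ⟨1 - X / m, X / m, ?_, by positivity, by ring, ?_⟩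
          · rw [sub_pos, div_lt_one hmpos]
            exact hlt
          · rw [hpe, hwe]
            match_scalars <;> field_simp
            ring
        have h2 := (mem_extremePoints.1 (hT.ext p hpT)).2 v (hTK v hvT) w (hTK w hwT) h1
        exact he''.1 (by
          exfalso
          have h3 : (X : ℝ) • u = 0 := by
            have h4 : v = v + X • u := by rw [← hpe]; exact h2.1
            have h5 : v + X • u - v = 0 := by rw [← h4]; abel
            simpa using h5
          rcases smul_eq_zero.1 h3 with h6 | h6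
          · exact hXpos.ne' h6
          · exact hu0 h6)
      · apply hnc
        refine ⟨(d1 : ℝ) • u, ?_, ?_⟩
        · have := (Lat n).zsmul_mem hu d1
          rwa [← Int.cast_smul_eq_zsmul ℝ] at this
        · rw [hwv, smul_smul, ← heq]
      · have h1 : w ∈ openSegment ℝ v p := by
          refine ⟨1 - m / X, m / X, ?_, by positivity, by ring, ?_⟩
          · rw [sub_pos, div_lt_one hXpos]
            exact hgt
          · rw [hpe, hwe]
            match_scalars <;> field_simp
            ring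
        have h2 := (mem_extremePoints.1 (hT.ext w hwT)).2 v (hTK v hvT) p (hTK p hpT) h1
        have h3 : (m : ℝ) • u = 0 := by
          rw [← hwv, ← h2.1, sub_self]
        rcases smul_eq_zero.1 h3 with h6 | h6
        · exact hmpos.ne' h6
        · exact hu0 h6
    · -- horizontal edge
      rw [hzero] at hpe
      simp only [Int.cast_zero, mul_zero, add_zero] at hpe
      have hpos1 : 0 < k * d1 := by linarith
      have h := hK (hAK w' hw') (hAK p hp)
        (show 0 ≤ 1 - 1 / (k * d1) by
          rw [sub_nonneg, div_le_one hpos1]; linarith)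
        (show 0 ≤ 1 / (k * d1) by positivity) (by ring)
      have h2 : (1 - 1 / (k * d1)) • w' + (1 / (k * d1)) • p =
          v + (1 : ℝ) • u + (m' : ℝ) • u' := by
        rw [hpe, hwe']
        match_scalars <;> field_simp <;> ring
      rwa [h2] at h
    · -- rising edge
      have hd2' : 1 ≤ d2 := by omega
      have hd2R : (1 : ℝ) ≤ d2 := by exact_mod_cast hd2'
      set X : ℝ := k * d1 with hX
      set Y : ℝ := (m' : ℝ) + k * d2 with hY
      have hY2 : 2 * (m' : ℝ) ≤ Y := by
        have : k ≤ k * d2 := by nlinarith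
        linarith
      have hYpos : 0 < Y := by linarith
      have hX0 : 0 ≤ X := by linarith
      set lam : ℝ := (m' : ℝ) / Y with hlam
      have hlam0 : 0 ≤ lam := by positivity
      have hlam1 : lam ≤ 1 / 2 := by
        rw [hlam, div_le_iff₀ hYpos]
        linarith
      have hlamY : lam * Y = m' := by rw [hlam, div_mul_cancel₀ _ hYpos.ne']
      set xs : ℝ := lam * X + (1 - lam) * m with hxs
      have hxs1 : 1 ≤ xs := by
        have h1 : (1 / 2 : ℝ) * m ≤ (1 - lam) * m :=
          mul_le_mul_of_nonneg_right (by linarith) (by linarith)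
        have h2 : 0 ≤ lam * X := mul_nonneg hlam0 hX0
        linarith
      have hxs0 : 0 < xs := by linarith
      have hmid : v + xs • u + (m' : ℝ) • u' ∈ K := by
        have h := hK (hAK p hp) (hAK w hw) hlam0 (show 0 ≤ 1 - lam by linarith) (by ring)
        have h2 : lam • p + (1 - lam) • w = v + xs • u + (m' : ℝ) • u' := by
          rw [hpe, hwe, ← hlamY, hxs]
          module
        rwa [h2] at h
      have h := hK (hAK w' hw') hmid
        (show 0 ≤ 1 - 1 / xs by rw [sub_nonneg, div_le_one hxs0]; exact hxs1)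
        (show 0 ≤ 1 / xs by positivity) (by ring)
      have h2 : (1 - 1 / xs) • w' + (1 / xs) • (v + xs • u + (m' : ℝ) • u') =
          v + (1 : ℝ) • u + (m' : ℝ) • u' := by
        rw [hwe']
        have h3 : (1 / xs) * xs = 1 := by field_simp
        have h4 : (1 - 1 / xs) • (v + (m' : ℝ) • u') + (1 / xs) • (v + xs • u + (m' : ℝ) • u') =
            v + ((1 / xs) * xs) • u + (m' : ℝ) • u' := by module
        rw [h4, h3]
      rwa [h2] at h

end MP81308f
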