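import Pool.Agent.Lib.BrouwerThm.Basic

/-!
# MP_81308f_co : a continuous map of a compact convex set that does not leave the minimal face of
any point is onto
-/

set_option autoImplicit false

open Set Metric
open scoped Topology

namespace MP81308f

section Inner

variable {V : Type*} [NormedAddCommGroup V] [InnerProductSpace ℝ V] [FiniteDimensional ℝ V]

/-- Surjectivity, in an inner product space. -/
theorem surj_inner (P : Set V) (hP : IsCompact P) (hc : Convex ℝ P) (F : V → V)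
    (hF : ContinuousOn F P)
    (h : ∀ x ∈ P, ∃ ε : ℝ, 0 < ε ∧ x + ε • (x - F x) ∈ P) : P ⊆ F '' P := by
  intro c hcP
  have hne : P.Nonempty := ⟨c, hcP⟩
  have hproj : ∀ x : V, ∃ p ∈ P, ∀ y ∈ P, inner ℝ (x - p) (y - p) ≤ 0 := by
    intro x
    obtain ⟨p, hp, hpe⟩ := exists_norm_eq_iInf_of_complete_convex hne hP.isComplete hc x
    exact ⟨p, hp, (norm_eq_iInf_iff_real_inner_le_zero hc hp).1 hpe⟩
  choose ρ hρP hρ using hproj
  have hlip : ∀ x y, ‖ρ x - ρ y‖ ≤ ‖x - y‖ := by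
    intro x y
    have h1 := hρ x (ρ y) (hρP y)
    have h2 := hρ y (ρ x) (hρP x)
    have h3 : inner ℝ (ρ x - ρ y) (ρ x - ρ y) ≤ inner ℝ (x - y) (ρ x - ρ y) := by
      have e1 : inner ℝ (x - ρ x) (ρ y - ρ x) + inner ℝ (y - ρ y) (ρ x - ρ y) =
          inner ℝ (ρ x - ρ y) (ρ x - ρ y) - inner ℝ (x - y) (ρ x - ρ y) := by
        have e2 : ρ y - ρ x = -(ρ x - ρ y) := by abel
        rw [e2, inner_neg_right, ← inner_sub_left, neg_add_eq_sub, ← inner_sub_left]
        congr 1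
        abel
      linarith
    rw [real_inner_self_eq_norm_sq] at h3
    have h4 := real_inner_le_norm (x - y) (ρ x - ρ y)
    have h5 : ‖ρ x - ρ y‖ * ‖ρ x - ρ y‖ ≤ ‖x - y‖ * ‖ρ x - ρ y‖ := by
      calc _ = ‖ρ x - ρ y‖ ^ 2 := by ring
        _ ≤ _ := h3.trans h4
    rcases eq_or_lt_of_le (norm_nonneg (ρ x - ρ y)) with h6 | h6
    · rw [← h6]; exact norm_nonneg _
    · exact le_of_mul_le_mul_right h5 h6
  have hρc : Continuous ρ := by
    refine (LipschitzWith.of_dist_le_mul (K := 1) fun x y => ?_).continuous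
    rw [dist_eq_norm, dist_eq_norm]
    simpa using hlip x y
  have hFρ : Continuous fun x => F (ρ x) := hF.comp_continuous hρc hρP
  obtain ⟨R, hR⟩ : ∃ R : ℝ, ∀ x, ‖ρ x - F (ρ x) + c‖ ≤ R := by
    have h1 : IsCompact ((fun p => p - F p + c) '' P) :=
      hP.image_of_continuousOn ((continuousOn_id.sub hF).add continuousOn_const)
    obtain ⟨R, hR⟩ := h1.isBounded.exists_norm_le
    exact ⟨R, fun x => hR _ ⟨ρ x, hρP x, rfl⟩⟩
  let χ : V → ℝ := fun x => max 0 (min 1 (R + 2 - ‖x‖))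
  have hχc : Continuous χ := by fun_prop
  have hχ1 : ∀ x, χ x ≤ 1 := fun x => max_le zero_le_one (min_le_left _ _)
  have hχ0 : ∀ x, 0 ≤ χ x := fun x => le_max_left _ _
  obtain ⟨x, hx⟩ := Pool.Agent.Lib.BrouwerThm.exists_zero_of_eq_linear
    (ContinuousLinearEquiv.refl ℝ V) (fun x => x - χ x • (ρ x - F (ρ x) + c))
    (continuous_id.sub (hχc.smul ((hρc.sub hFρ).add continuous_const))) (R + 2) (by
      intro x hx
      have : χ x = 0 := max_eq_left ((min_le_right _ _).trans (by linarith))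
      simp [this])
  have hx1 : x = χ x • (ρ x - F (ρ x) + c) := sub_eq_zero.1 hx
  have hxn : ‖x‖ ≤ R := by
    have h1 : ‖x‖ = χ x * ‖ρ x - F (ρ x) + c‖ := by
      conv_lhs => rw [hx1]
      rw [norm_smul, Real.norm_eq_abs, abs_of_nonneg (hχ0 x)]
    rw [h1]
    calc _ ≤ 1 * ‖ρ x - F (ρ x) + c‖ := mul_le_mul_of_nonneg_right (hχ1 x) (norm_nonneg _)
      _ ≤ R := by rw [one_mul]; exact hR x
  have hχx : χ x = 1 := by
    have h1 : min 1 (R + 2 - ‖x‖) = 1 := min_eq_left (by linarith)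
    simp only [χ, h1]
    exact max_eq_right zero_le_one
  rw [hχx, one_smul] at hx1
  obtain ⟨ε, hε, hεP⟩ := h (ρ x) (hρP x)
  have h1 := hρ x _ hεP
  have h2 := hρ x c hcP
  have e1 : x - ρ x = c - F (ρ x) := by
    rw [sub_eq_iff_eq_add]
    conv_lhs => rw [hx1]
    abel
  rw [add_sub_cancel_left, inner_smul_right, e1] at h1
  rw [e1] at h2
  have h3 : inner ℝ (c - F (ρ x)) (ρ x - F (ρ x)) ≤ 0 := by
    by_contra hcon
    push Not at hcon
    have := mul_pos hε hcon
    linarith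
  have h4 : inner ℝ (c - F (ρ x)) (c - F (ρ x)) ≤ (0 : ℝ) := by
    have e2 : c - F (ρ x) = (c - ρ x) + (ρ x - F (ρ x)) := by abel
    have e3 : inner ℝ (c - F (ρ x)) (c - F (ρ x)) =
        (inner ℝ (c - F (ρ x)) (c - ρ x) + inner ℝ (c - F (ρ x)) (ρ x - F (ρ x)) : ℝ) := by
      rw [← inner_add_right, ← e2]
    rw [e3]
    linarith
  have h5 : c - F (ρ x) = 0 := by
    rw [real_inner_self_eq_norm_sq] at h4
    have : ‖c - F (ρ x)‖ = 0 := by
      have := norm_nonneg (c - F (ρ x))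
      nlinarith
    exact norm_eq_zero.1 this
  exact ⟨ρ x, hρP x, (sub_eq_zero.1 h5).symm⟩

end Inner

/-- A continuous map `F` of a compact convex set `P` such that `x` lies in the interior of a
segment of `P` in the direction `x - F x`, is onto. -/
theorem surj {E : Type*} [NormedAddCommGroup E] [NormedSpace ℝ E] [FiniteDimensional ℝ E]
    (P : Set E) (hP : IsCompact P) (hc : Convex ℝ P) (F : E → E)
    (hF : ContinuousOn F P)
    (h : ∀ x ∈ P, ∃ ε : ℝ, 0 < ε ∧ x + ε • (x - F x) ∈ P) : P ⊆ F '' P := by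
  let e : E ≃L[ℝ] EuclideanSpace ℝ (Fin (Module.finrank ℝ E)) := toEuclidean
  have h1 := surj_inner (e '' P) (hP.image e.continuous)
    (hc.is_linear_image e.toLinearEquiv.toLinearMap.isLinear)
    (fun y => e (F (e.symm y))) (by
      refine e.continuous.comp_continuousOn ?_
      refine hF.comp e.symm.continuous.continuousOn ?_
      rintro _ ⟨x, hx, rfl⟩
      simpa using hx) (by
      rintro _ ⟨x, hx, rfl⟩
      obtain ⟨ε, hε, hεP⟩ := h x hx
      refine ⟨ε, hε, _, hεP, ?_⟩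
      simp)
  intro c hcP
  obtain ⟨_, ⟨x, hx, rfl⟩, hxe⟩ := h1 ⟨c, hcP, rfl⟩
  refine ⟨x, hx, ?_⟩
  simpa using hxe

end MP81308f
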