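import Pool.Agent.Lib.BrouwerThm.Basic

/-!
# MP_81308f_co : the variational inequality
-/

set_option autoImplicit false

open Set Metric
open scoped Topology

namespace MP81308f

/-- Variational inequality in an inner product space. -/
theorem vi_inner {V : Type*} [NormedAddCommGroup V] [InnerProductSpace ℝ V]
    [FiniteDimensional ℝ V] (P : Set V) (hne : P.Nonempty) (hP : IsCompact P) (hc : Convex ℝ P)
    (Ψ : V → V) (hΨ : ContinuousOn Ψ P) : ∃ x ∈ P, ∀ y ∈ P, 0 ≤ inner ℝ (Ψ x) (y - x) := by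
  have hproj : ∀ x : V, ∃ p ∈ P, ∀ y ∈ P, inner ℝ (x - p) (y - p) ≤ 0 := by
    intro x
    obtain ⟨p, hp, hpe⟩ := exists_norm_eq_iInf_of_complete_convex hne hP.isComplete hc x
    exact ⟨p, hp, (norm_eq_iInf_iff_real_inner_le_zero hc hp).1 hpe⟩
  choose ρ hρP hρ using hproj
  have hlip : ∀ x y, ‖ρ x - ρ y‖ ≤ ‖x - y‖ := by
    intro x y
    have h1 := hρ x (ρ y) (hρP y)
    have h2 := hρ y (ρ x) (hρP x)
    have h3 : inner ℝ (ρ x - ρ y) (ρ x - ρ y) ≤ inner ℝ (x - y) (ρ x - ρ y) := by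
      have e1 : inner ℝ (x - ρ x) (ρ y - ρ x) + inner ℝ (y - ρ y) (ρ x - ρ y) =
          inner ℝ (ρ x - ρ y) (ρ x - ρ y) - inner ℝ (x - y) (ρ x - ρ y) := by
        have e2 : ρ y - ρ x = -(ρ x - ρ y) := by abel
        rw [e2, inner_neg_right, ← inner_sub_left, neg_add_eq_sub, ← inner_sub_left]
        congr 1
        abel
      linarith
    rw [real_inner_self_eq_norm_sq] at h3
    have h4 := real_inner_le_norm (x - y) (ρ x - ρ y)
    have h5 : ‖ρ x - ρ y‖ * ‖ρ x - ρ y‖ ≤ ‖x - y‖ * ‖ρ x - ρ y‖ := by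
      calc _ = ‖ρ x - ρ y‖ ^ 2 := by ring
        _ ≤ _ := h3.trans h4
    rcases eq_or_lt_of_le (norm_nonneg (ρ x - ρ y)) with h6 | h6
    · rw [← h6]; exact norm_nonneg _
    · exact le_of_mul_le_mul_right h5 h6
  have hρc : Continuous ρ := by
    refine (LipschitzWith.of_dist_le_mul (K := 1) fun x y => ?_).continuous
    rw [dist_eq_norm, dist_eq_norm]
    simpa using hlip x y
  have hFρ : Continuous fun x => Ψ (ρ x) := hΨ.comp_continuous hρc hρP
  obtain ⟨R, hR⟩ : ∃ R : ℝ, ∀ x, ‖ρ x - Ψ (ρ x)‖ ≤ R := by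
    have h1 : IsCompact ((fun p => p - Ψ p) '' P) :=
      hP.image_of_continuousOn (continuousOn_id.sub hΨ)
    obtain ⟨R, hR⟩ := h1.isBounded.exists_norm_le
    exact ⟨R, fun x => hR _ ⟨ρ x, hρP x, rfl⟩⟩
  let χ : V → ℝ := fun x => max 0 (min 1 (R + 2 - ‖x‖))
  have hχc : Continuous χ := by fun_prop
  have hχ1 : ∀ x, χ x ≤ 1 := fun x => max_le zero_le_one (min_le_left _ _)
  have hχ0 : ∀ x, 0 ≤ χ x := fun x => le_max_left _ _
  obtain ⟨x, hx⟩ := Pool.Agent.Lib.BrouwerThm.exists_zero_of_eq_linear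
    (ContinuousLinearEquiv.refl ℝ V) (fun x => x - χ x • (ρ x - Ψ (ρ x)))
    (continuous_id.sub (hχc.smul (hρc.sub hFρ))) (R + 2) (by
      intro x hx
      have : χ x = 0 := max_eq_left ((min_le_right _ _).trans (by linarith))
      simp [this])
  have hx1 : x = χ x • (ρ x - Ψ (ρ x)) := sub_eq_zero.1 hx
  have hxn : ‖x‖ ≤ R := by
    have h1 : ‖x‖ = χ x * ‖ρ x - Ψ (ρ x)‖ := by
      conv_lhs => rw [hx1]
      rw [norm_smul, Real.norm_eq_abs, abs_of_nonneg (hχ0 x)]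
    rw [h1]
    calc _ ≤ 1 * ‖ρ x - Ψ (ρ x)‖ := mul_le_mul_of_nonneg_right (hχ1 x) (norm_nonneg _)
      _ ≤ R := by rw [one_mul]; exact hR x
  have hχx : χ x = 1 := by
    have h1 : min 1 (R + 2 - ‖x‖) = 1 := min_eq_left (by linarith)
    simp only [χ, h1]
    exact max_eq_right zero_le_one
  rw [hχx, one_smul] at hx1
  refine ⟨ρ x, hρP x, fun y hy => ?_⟩
  have h1 := hρ x y hy
  have e1 : x - ρ x = -Ψ (ρ x) := by
    rw [sub_eq_iff_eq_add]
    conv_lhs => rw [hx1]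
    abel
  rw [e1, inner_neg_left] at h1
  linarith

/-- Variational inequality in `Fin n → ℝ`. -/
theorem vi_pi (n : ℕ) (P : Set (Fin n → ℝ)) (hne : P.Nonempty) (hP : IsCompact P)
    (hc : Convex ℝ P) (Ψ : (Fin n → ℝ) → (Fin n → ℝ)) (hΨ : ContinuousOn Ψ P) :
    ∃ x ∈ P, ∀ y ∈ P, 0 ≤ Ψ x ⬝ᵥ (y - x) := by
  let e : EuclideanSpace ℝ (Fin n) ≃L[ℝ] (Fin n → ℝ) := EuclideanSpace.equiv (Fin n) ℝ
  obtain ⟨_, ⟨x, hx, rfl⟩, h⟩ := vi_inner (e.symm '' P) (hne.image _) (hP.image e.symm.continuous)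
    (hc.is_linear_image e.symm.toLinearEquiv.toLinearMap.isLinear)
    (fun y => e.symm (Ψ (e y))) (by
      refine e.symm.continuous.comp_continuousOn ?_
      refine hΨ.comp e.continuous.continuousOn ?_
      rintro _ ⟨x, hx, rfl⟩
      simpa using hx)
  refine ⟨x, hx, fun y hy => ?_⟩
  have h1 := h _ ⟨y, hy, rfl⟩
  have h2 : inner ℝ (e.symm (Ψ (e (e.symm x)))) (e.symm y - e.symm x) = Ψ x ⬝ᵥ (y - x) := by
    rw [e.apply_symm_apply, ← map_sub, EuclideanSpace.inner_eq_star_dotProduct]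
    simp [e, dotProduct_comm]
  rw [h2] at h1
  exact h1

end MP81308f
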