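import Pool.Agent.Lib.MP_81308f_co.Face

/-!
# MP_81308f_co : weights on a polytope supported on chains of faces

For a polytope `P = conv T` we construct continuous functions `w G : P → [0, ∞)`, `G` a face, such
that for every `x ∈ P` the faces `G` with `w G x > 0` form a nonempty chain of faces contained in
the smallest face of `x`.
-/

open scoped Pointwise BigOperators

namespace MP81308f

/-- `G` is a face of `conv T` given by all points of `T` on it. -/
def IsCFace {n : ℕ} (T G : Finset (Fin n → ℝ)) : Prop :=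
  IsFace T G ∧ ∀ v ∈ T, v ∈ convexHull ℝ (G : Set (Fin n → ℝ)) → v ∈ G

/-- An extreme convex subset of `conv T` is the hull of the points of `T` on it. -/
theorem extreme_eq_hull {n : ℕ} (T : Finset (Fin n → ℝ)) (E : Set (Fin n → ℝ))
    (hE : IsExtreme ℝ (convexHull ℝ (T : Set (Fin n → ℝ))) E) (hc : Convex ℝ E)
    (G : Finset (Fin n → ℝ)) (hG : ∀ v, v ∈ G ↔ v ∈ T ∧ v ∈ E) :
    convexHull ℝ (G : Set (Fin n → ℝ)) = E := by
  classical
  apply Set.Subset.antisymm
  · exact convexHull_min (fun v hv => ((hG v).1 (Finset.mem_coe.1 hv)).2) hc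
  · intro p hp
    have hpK : p ∈ convexHull ℝ (T : Set (Fin n → ℝ)) := hE.1 hp
    have hpK' := hpK
    rw [Finset.mem_convexHull'] at hpK
    obtain ⟨w, hw0, hw1, hwp⟩ := hpK
    have hmem : ∀ v ∈ T, w v ≠ 0 → v ∈ G := by
      intro v hv hwv
      refine (hG v).2 ⟨hv, ?_⟩
      have hwpos : 0 < w v := lt_of_le_of_ne (hw0 v hv) (Ne.symm hwv)
      have hsumE : w v + ∑ u ∈ T.erase v, w u = 1 := by
        rw [Finset.add_sum_erase _ _ hv]; exact hw1
      have hsumP : w v • v + ∑ u ∈ T.erase v, w u • u = p := by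
        rw [Finset.add_sum_erase T (fun u => w u • u) hv]; exact hwp
      have hrest0 : 0 ≤ ∑ u ∈ T.erase v, w u :=
        Finset.sum_nonneg fun u hu => hw0 u (Finset.mem_of_mem_erase hu)
      rcases eq_or_lt_of_le hrest0 with h | h
      · have hz : ∀ u ∈ T.erase v, w u = 0 :=
          (Finset.sum_eq_zero_iff_of_nonneg
            fun u hu => hw0 u (Finset.mem_of_mem_erase hu)).1 h.symm
        have h1 : w v = 1 := by linarith
        have h2 : ∑ u ∈ T.erase v, w u • u = 0 :=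
          Finset.sum_eq_zero fun u hu => by rw [hz u hu, zero_smul]
        rw [h1, h2, one_smul, add_zero] at hsumP
        rw [hsumP]; exact hp
      · set s := ∑ u ∈ T.erase v, w u with hs
        set y := s⁻¹ • ∑ u ∈ T.erase v, w u • u with hy
        have hyK : y ∈ convexHull ℝ (T : Set (Fin n → ℝ)) := by
          have : y = ∑ u ∈ T.erase v, (s⁻¹ * w u) • u := by
            rw [hy, Finset.smul_sum]
            exact Finset.sum_congr rfl fun u _ => by rw [smul_smul]
          rw [this]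
          refine (convex_convexHull ℝ _).sum_mem (fun u hu => ?_) ?_ (fun u hu => ?_)
          · exact mul_nonneg (inv_nonneg.2 h.le) (hw0 u (Finset.mem_of_mem_erase hu))
          · rw [← Finset.mul_sum, ← hs, inv_mul_cancel₀ h.ne']
          · exact subset_convexHull ℝ _ (Finset.mem_of_mem_erase hu)
        have hsy : s • y = ∑ u ∈ T.erase v, w u • u := by
          rw [hy, smul_smul, mul_inv_cancel₀ h.ne', one_smul]
        refine hE.2 (subset_convexHull ℝ _ (Finset.mem_coe.2 hv)) hyK hp ?_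
        exact ⟨w v, s, hwpos, h, hsumE, by rw [hsy, hsumP]⟩
    rw [← hwp]
    have hsub : ∑ v ∈ T, w v • v = ∑ v ∈ G, w v • v := by
      symm
      refine Finset.sum_subset (fun v hv => ((hG v).1 hv).1) (fun v hv hvG => ?_)
      by_cases h : w v = 0
      · rw [h, zero_smul]
      · exact absurd (hmem v hv h) hvG
    have hsub1 : ∑ v ∈ G, w v = 1 := by
      rw [← hw1]
      refine Finset.sum_subset (fun v hv => ((hG v).1 hv).1) (fun v hv hvG => ?_)
      by_contra h
      exact hvG (hmem v hv h)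
    rw [hsub]
    exact (convex_convexHull ℝ _).sum_mem (fun v hv => hw0 v ((hG v).1 hv).1) hsub1
      (fun v hv => subset_convexHull ℝ _ (Finset.mem_coe.2 hv))

/-- The intersection of a nonempty family of extreme sets is extreme. -/
theorem extreme_inter {n : ℕ} (K : Set (Fin n → ℝ)) (S : Finset (Finset (Fin n → ℝ)))
    (hS : S.Nonempty) (h : ∀ G ∈ S, IsExtreme ℝ K (convexHull ℝ (G : Set (Fin n → ℝ)))) :
    IsExtreme ℝ K {x | ∀ G ∈ S, x ∈ convexHull ℝ (G : Set (Fin n → ℝ))} := by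
  obtain ⟨G₀, hG₀⟩ := hS
  refine ⟨fun x hx => (h G₀ hG₀).1 (hx G₀ hG₀), ?_⟩
  intro x₁ hx₁ x₂ hx₂ x hx ho G hG
  exact (h G hG).2 hx₁ hx₂ (hx G hG) ho

section
variable {n : ℕ} (T : Finset (Fin n → ℝ))

/-- All closed faces. -/
noncomputable def cfaces : Finset (Finset (Fin n → ℝ)) := by
  classical exact T.powerset.filter (fun G => IsCFace T G)

theorem mem_cfaces (G : Finset (Fin n → ℝ)) : G ∈ cfaces T ↔ IsCFace T G := by
  classical
  unfold cfaces
  rw [Finset.mem_filter, Finset.mem_powerset]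
  exact ⟨fun h => h.2, fun h => ⟨h.1.1, h⟩⟩

/-- The intersection of a family of faces, as a subset of `T`. -/
noncomputable def capT (S : Finset (Finset (Fin n → ℝ))) : Finset (Fin n → ℝ) := by
  classical exact T.filter (fun v => ∀ G ∈ S, v ∈ convexHull ℝ (G : Set (Fin n → ℝ)))

theorem mem_capT (S : Finset (Finset (Fin n → ℝ))) (v : Fin n → ℝ) :
    v ∈ capT T S ↔ v ∈ T ∧ ∀ G ∈ S, v ∈ convexHull ℝ (G : Set (Fin n → ℝ)) := by
  classical
  unfold capT
  rw [Finset.mem_filter]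

theorem hull_capT (S : Finset (Finset (Fin n → ℝ))) (hS : S.Nonempty)
    (h : ∀ G ∈ S, IsCFace T G) :
    convexHull ℝ (capT T S : Set (Fin n → ℝ)) =
      {x | ∀ G ∈ S, x ∈ convexHull ℝ (G : Set (Fin n → ℝ))} := by
  apply extreme_eq_hull T _ (extreme_inter _ S hS fun G hG => (h G hG).1.2.2)
  · intro x hx y hy s t hs ht hst G hG
    exact (convex_convexHull ℝ _) (hx G hG) (hy G hG) hs ht hst
  · intro v
    rw [mem_capT]
    rfl

theorem capT_cface (S : Finset (Finset (Fin n → ℝ))) (hS : S.Nonempty)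
    (h : ∀ G ∈ S, IsCFace T G)
    (hne : ∃ x, ∀ G ∈ S, x ∈ convexHull ℝ (G : Set (Fin n → ℝ))) : IsCFace T (capT T S) := by
  have hh := hull_capT T S hS h
  refine ⟨⟨fun v hv => ((mem_capT T S v).1 hv).1, ?_, ?_⟩, ?_⟩
  · obtain ⟨x, hx⟩ := hne
    have : (convexHull ℝ (capT T S : Set (Fin n → ℝ))).Nonempty := by
      rw [hh]; exact ⟨x, hx⟩
    rw [convexHull_nonempty_iff] at this
    exact Finset.coe_nonempty.1 this
  · rw [hh]
    exact extreme_inter _ S hS fun G hG => (h G hG).1.2.2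
  · intro v hv hvc
    rw [hh] at hvc
    exact (mem_capT T S v).2 ⟨hv, hvc⟩

/-- The elementary weight of a family of faces. -/
noncomputable def wS (S : Finset (Finset (Fin n → ℝ))) (x : Fin n → ℝ) : ℝ := by
  classical
  exact ∏ G ∈ S, ∏ G' ∈ cfaces T \ S,
    max 0 (Metric.infDist x (convexHull ℝ (G' : Set (Fin n → ℝ))) -
      Metric.infDist x (convexHull ℝ (G : Set (Fin n → ℝ))))

theorem wS_continuous (S : Finset (Finset (Fin n → ℝ))) : Continuous (wS T S) := by
  classical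
  unfold wS
  refine continuous_finsetProd _ fun G _ => continuous_finsetProd _ fun G' _ => ?_
  exact continuous_const.max ((Metric.continuous_infDist_pt _).sub (Metric.continuous_infDist_pt _))

theorem wS_nonneg (S : Finset (Finset (Fin n → ℝ))) (x : Fin n → ℝ) : 0 ≤ wS T S x := by
  classical
  unfold wS
  exact Finset.prod_nonneg fun G _ => Finset.prod_nonneg fun G' _ => le_max_left _ _

theorem wS_pos_iff (S : Finset (Finset (Fin n → ℝ))) (x : Fin n → ℝ) :
    0 < wS T S x ↔ ∀ G ∈ S, ∀ G' ∈ cfaces T, G' ∉ S →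
      Metric.infDist x (convexHull ℝ (G : Set (Fin n → ℝ))) <
        Metric.infDist x (convexHull ℝ (G' : Set (Fin n → ℝ))) := by
  classical
  constructor
  · intro h G hG G' hG' hGS
    by_contra hcon
    push Not at hcon
    have : wS T S x = 0 := by
      unfold wS
      refine Finset.prod_eq_zero hG (Finset.prod_eq_zero (Finset.mem_sdiff.2 ⟨hG', hGS⟩) ?_)
      exact max_eq_left (by linarith)
    rw [this] at h
    exact lt_irrefl _ h
  · intro h
    unfold wS
    refine Finset.prod_pos fun G hG => Finset.prod_pos fun G' hG' => ?_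
    rw [Finset.mem_sdiff] at hG'
    exact lt_max_of_lt_right (by linarith [h G hG G' hG'.1 hG'.2])

theorem infDist_zero_iff (G : Finset (Fin n → ℝ)) (hG : G.Nonempty) (x : Fin n → ℝ) :
    Metric.infDist x (convexHull ℝ (G : Set (Fin n → ℝ))) = 0 ↔
      x ∈ convexHull ℝ (G : Set (Fin n → ℝ)) := by
  have hc : IsClosed (convexHull ℝ (G : Set (Fin n → ℝ))) :=
    G.finite_toSet.isClosed_convexHull ℝ
  have hne : (convexHull ℝ (G : Set (Fin n → ℝ))).Nonempty :=
    convexHull_nonempty_iff.2 (Finset.coe_nonempty.2 hG)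
  exact (hc.mem_iff_infDist_zero hne).symm

end

/-- (WEIGHTS) -/
theorem weights {n : ℕ} (T : Finset (Fin n → ℝ)) (hT : T.Nonempty) :
    ∃ w : Finset (Fin n → ℝ) → (Fin n → ℝ) → ℝ,
      (∀ G, Continuous (w G)) ∧ (∀ G x, 0 ≤ w G x) ∧
      (∀ G, ∀ x ∈ convexHull ℝ (T : Set (Fin n → ℝ)), 0 < w G x → IsCFace T G ∧
        convexHull ℝ (G : Set (Fin n → ℝ)) ⊆
          faceSet (convexHull ℝ (T : Set (Fin n → ℝ))) x) ∧
      (∀ G G', ∀ x ∈ convexHull ℝ (T : Set (Fin n → ℝ)), 0 < w G x → 0 < w G' x →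
        G ⊆ G' ∨ G' ⊆ G) ∧
      (∀ x ∈ convexHull ℝ (T : Set (Fin n → ℝ)), ∃ G, 0 < w G x) := by
  classical
  set K := convexHull ℝ (T : Set (Fin n → ℝ)) with hKdef
  have hK : Convex ℝ K := convex_convexHull ℝ _
  -- the admissible families
  set A : Finset (Fin n → ℝ) → Finset (Finset (Finset (Fin n → ℝ))) := fun G =>
    (cfaces T).powerset.filter (fun S => S.Nonempty ∧
      (∃ x, ∀ G ∈ S, x ∈ convexHull ℝ (G : Set (Fin n → ℝ))) ∧ capT T S = G) with hA
  have hmemA : ∀ G S, S ∈ A G ↔ (S ⊆ cfaces T ∧ S.Nonempty ∧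
      (∃ x, ∀ G ∈ S, x ∈ convexHull ℝ (G : Set (Fin n → ℝ))) ∧ capT T S = G) := by
    intro G S
    rw [hA]
    simp only [Finset.mem_filter, Finset.mem_powerset]
  have hw_pos : ∀ G x, 0 < ∑ S ∈ A G, wS T S x → ∃ S ∈ A G, 0 < wS T S x := by
    intro G x h
    by_contra hcon
    push Not at hcon
    exact absurd h (not_lt.2 (Finset.sum_nonpos hcon))
  -- families of positive weight contain all faces containing `x`
  have hcont : ∀ S : Finset (Finset (Fin n → ℝ)), S.Nonempty → S ⊆ cfaces T → ∀ x, 0 < wS T S x →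
      ∀ G ∈ cfaces T, x ∈ convexHull ℝ (G : Set (Fin n → ℝ)) → G ∈ S := by
    intro S hS _ x hx G hG hxG
    by_contra hGS
    obtain ⟨G₁, hG₁⟩ := hS
    have h1 := (wS_pos_iff T S x).1 hx G₁ hG₁ G hG hGS
    rw [(infDist_zero_iff G ((mem_cfaces T G).1 hG).1.2.1 x).2 hxG] at h1
    exact absurd h1 (not_lt.2 Metric.infDist_nonneg)
  -- comparability
  have hcomp : ∀ S S' : Finset (Finset (Fin n → ℝ)), S ⊆ cfaces T → S' ⊆ cfaces T → ∀ x,
      0 < wS T S x → 0 < wS T S' x → S ⊆ S' ∨ S' ⊆ S := by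
    intro S S' hS hS' x h1 h2
    by_contra hcon
    push Not at hcon
    obtain ⟨G, hG, hG'⟩ := Finset.not_subset.1 hcon.1
    obtain ⟨G₂, hG₂, hG₂'⟩ := Finset.not_subset.1 hcon.2
    have h3 := (wS_pos_iff T S x).1 h1 G hG G₂ (hS' hG₂) hG₂'
    have h4 := (wS_pos_iff T S' x).1 h2 G₂ hG₂ G (hS hG) hG'
    exact lt_asymm h3 h4
  refine ⟨fun G x => ∑ S ∈ A G, wS T S x, ?_, ?_, ?_, ?_, ?_⟩
  · exact fun G => continuous_finsetSum _ fun S _ => wS_continuous T S
  · exact fun G x => Finset.sum_nonneg fun S _ => wS_nonneg T S x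
  · intro G x hx hpos
    obtain ⟨S, hS, hSpos⟩ := hw_pos G x hpos
    obtain ⟨hS1, hS2, hS3, hS4⟩ := (hmemA G S).1 hS
    have hSc : ∀ G ∈ S, IsCFace T G := fun G hG => (mem_cfaces T G).1 (hS1 hG)
    refine ⟨hS4 ▸ capT_cface T S hS2 hSc hS3, ?_⟩
    -- the minimal face
    set D : Finset (Fin n → ℝ) := T.filter (fun v => v ∈ faceSet K x) with hD
    have hDh : convexHull ℝ (D : Set (Fin n → ℝ)) = faceSet K x :=
      extreme_eq_hull T _ (face_extreme K hK x) (face_convex K hK x) D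
        (fun v => by rw [hD, Finset.mem_filter])
    have hxD : x ∈ convexHull ℝ (D : Set (Fin n → ℝ)) := by
      rw [hDh]
      exact ⟨hx, 1, one_pos, le_rfl, x, hx, by simp⟩
    have hDc : IsCFace T D := by
      refine ⟨⟨Finset.filter_subset _ _, ?_, ?_⟩, ?_⟩
      · exact Finset.coe_nonempty.1 (convexHull_nonempty_iff.1 ⟨x, hxD⟩)
      · rw [hDh]; exact face_extreme K hK x
      · intro v hv hvc
        rw [hDh] at hvc
        exact Finset.mem_filter.2 ⟨hv, hvc⟩
    have hDS : D ∈ S := hcont S hS2 hS1 x hSpos D ((mem_cfaces T D).2 hDc) hxD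
    rw [← hS4, hull_capT T S hS2 hSc, ← hDh]
    exact fun y hy => hy D hDS
  · intro G G' x hx h1 h2
    obtain ⟨S, hS, hSpos⟩ := hw_pos G x h1
    obtain ⟨S', hS', hSpos'⟩ := hw_pos G' x h2
    obtain ⟨hS1, hS2, hS3, hS4⟩ := (hmemA G S).1 hS
    obtain ⟨hS1', hS2', hS3', hS4'⟩ := (hmemA G' S').1 hS'
    rw [← hS4, ← hS4']
    rcases hcomp S S' hS1 hS1' x hSpos hSpos' with h | h
    · right
      intro v hv
      rw [mem_capT] at hv ⊢
      exact ⟨hv.1, fun G hG => hv.2 G (h hG)⟩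
    · left
      intro v hv
      rw [mem_capT] at hv ⊢
      exact ⟨hv.1, fun G hG => hv.2 G (h hG)⟩
  · intro x hx
    set S : Finset (Finset (Fin n → ℝ)) := (cfaces T).filter
      (fun G => x ∈ convexHull ℝ (G : Set (Fin n → ℝ))) with hS
    have hTc : T ∈ cfaces T :=
      (mem_cfaces T T).2 ⟨⟨Finset.Subset.refl _, hT, IsExtreme.refl ℝ _⟩, fun v hv _ => hv⟩
    have hSne : S.Nonempty := ⟨T, Finset.mem_filter.2 ⟨hTc, hx⟩⟩
    refine ⟨capT T S, ?_⟩
    have hSA : S ∈ A (capT T S) := (hmemA _ S).2 ⟨Finset.filter_subset _ _, hSne,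
      ⟨x, fun G hG => (Finset.mem_filter.1 hG).2⟩, rfl⟩
    refine lt_of_lt_of_le ?_ (Finset.single_le_sum (f := fun S => wS T S x)
      (fun S _ => wS_nonneg T S x) hSA)
    show 0 < wS T S x
    rw [wS_pos_iff]
    intro G hG G' hG' hGS
    have hG2 := Finset.mem_filter.1 hG
    rw [(infDist_zero_iff G ((mem_cfaces T G).1 hG2.1).1.2.1 x).2 hG2.2]
    refine lt_of_le_of_ne Metric.infDist_nonneg (fun h0 => hGS ?_)
    exact Finset.mem_filter.2 ⟨hG', (infDist_zero_iff G' ((mem_cfaces T G').1 hG').1.2.1 x).1 h0.symm⟩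

end MP81308f
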